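import Pool.Agent.Lib.MP_ccda7a_co.Kempe

set_option autoImplicit false

namespace Pool.Agent.MP_ccda7a_co

/-- The graph `G` contains an odd K5 as a subgraph, as in the frozen statement. -/
def HasOdd {V : Type} (G : SimpleGraph V) : Prop :=
  ∃ (f : Fin 5 → Set V) (T : Fin 5 → SimpleGraph V) (e : Fin 5 → Fin 5 → V) (c : V → Bool),
    (∀ i j, i ≠ j → Disjoint (f i) (f j)) ∧
    (∀ i, T i ≤ G) ∧
    (∀ i u v, (T i).Adj u v → u ∈ f i ∧ v ∈ f i ∧ c u ≠ c v) ∧
    (∀ i, ((T i).induce (f i)).IsTree) ∧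
    (∀ i j, i ≠ j → e i j ∈ f i ∧ G.Adj (e i j) (e j i) ∧ c (e i j) = c (e j i))

lemma HasOddK5.hasOdd {V : Type} {G : SimpleGraph V} (h : HasOddK5 G) : HasOdd G := by
  obtain ⟨f, T, e, c, h1, h2, h3, h4, h5, -⟩ := h
  exact ⟨f, T, e, c, h1, h2, h3, h4, h5⟩

lemma HasOdd.mono {V : Type} {G H : SimpleGraph V} (h : G ≤ H) (hG : HasOdd G) : HasOdd H := by
  obtain ⟨f, T, e, c, h1, h2, h3, h4, h5⟩ := hG
  exact ⟨f, T, e, c, h1, fun i => (h2 i).trans h, h3, h4,
    fun i j hij => ⟨(h5 i j hij).1, h (h5 i j hij).2.1, (h5 i j hij).2.2⟩⟩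

/-- the edges of `G` whose ends have different colours -/
def Bi {V : Type} (G : SimpleGraph V) (c : V → Bool) : SimpleGraph V where
  Adj u v := G.Adj u v ∧ c u ≠ c v
  symm := ⟨fun _ _ h => ⟨h.1.symm, h.2.symm⟩⟩
  loopless := ⟨fun _ h => h.1.ne rfl⟩

/-- odd K5 by connected pieces in place of trees -/
def HasOddC {V : Type} (G : SimpleGraph V) : Prop :=
  ∃ (f : Fin 5 → Set V) (c : V → Bool),
    (∀ i j, i ≠ j → Disjoint (f i) (f j)) ∧
    (∀ i, ∃ r ∈ f i, ∀ u ∈ f i, (restr (Bi G c) (f i)).Reachable r u) ∧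
    (∀ i j, i ≠ j → ∃ x ∈ f i, ∃ y ∈ f j, G.Adj x y ∧ c x = c y)

lemma HasOdd.hasOddC {V : Type} {G : SimpleGraph V} (h : HasOdd G) : HasOddC G := by
  obtain ⟨f, T, e, c, h1, h2, h3, h4, h5⟩ := h
  refine ⟨f, c, h1, ?_, ?_⟩
  · intro i
    have hconn := (h4 i).connected
    obtain ⟨r⟩ := hconn.nonempty
    refine ⟨r, r.2, ?_⟩
    intro u hu
    have hr : ((T i).induce (f i)).Reachable r ⟨u, hu⟩ := hconn.preconnected _ _
    have key : ∀ w : f i, ((T i).induce (f i)).Reachable r w →
        (restr (Bi G c) (f i)).Reachable (r : V) (w : V) := by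
      intro w hw
      refine reach_induct (P := fun w : f i => (restr (Bi G c) (f i)).Reachable (r : V) (w : V)) hw
        (SimpleGraph.Reachable.refl _) ?_
      intro x y hx hxy
      have hxy' : (T i).Adj x y := hxy
      exact hx.trans (SimpleGraph.Adj.reachable ⟨⟨h2 i hxy', (h3 i _ _ hxy').2.2⟩, x.2, y.2⟩)
    exact key ⟨u, hu⟩ hr
  · intro i j hij
    exact ⟨e i j, (h5 i j hij).1, e j i, (h5 j i hij.symm).1, (h5 i j hij).2⟩

lemma HasOddC.hasOdd {V : Type} {G : SimpleGraph V} (h : HasOddC G) : HasOdd G := by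
  classical
  obtain ⟨f, c, h1, h2, h3⟩ := h
  have hconn : ∀ i, ((restr (Bi G c) (f i)).induce (f i)).Connected := by
    intro i
    obtain ⟨r, hr, hru⟩ := h2 i
    have key : ∀ u, (hu : u ∈ f i) → ((restr (Bi G c) (f i)).induce (f i)).Reachable ⟨r, hr⟩ ⟨u, hu⟩ := by
      intro u hu
      have : ∃ hu' : u ∈ f i, ((restr (Bi G c) (f i)).induce (f i)).Reachable ⟨r, hr⟩ ⟨u, hu'⟩ := by
        refine reach_induct (P := fun u => ∃ hu' : u ∈ f i,
          ((restr (Bi G c) (f i)).induce (f i)).Reachable ⟨r, hr⟩ ⟨u, hu'⟩) (hru u hu)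
          ⟨hr, SimpleGraph.Reachable.refl _⟩ ?_
        rintro x y ⟨hx, hxr⟩ hxy
        refine ⟨hxy.2.2, hxr.trans (SimpleGraph.Adj.reachable ?_)⟩
        exact hxy
      exact this.2
    have : Nonempty (f i) := ⟨⟨r, hr⟩⟩
    refine SimpleGraph.Connected.mk ?_
    rintro ⟨x, hx⟩ ⟨y, hy⟩
    exact (key x hx).symm.trans (key y hy)
  choose T hT hTree using fun i => (hconn i).exists_isTree_le
  choose x hx y hy hxy hcxy using h3
  refine ⟨f, fun i => (T i).map (Function.Embedding.subtype (· ∈ f i)),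
    fun i j => if h : i < j then x i j h.ne else if h' : j < i then y j i h'.ne else x 0 1 (by decide),
    c, h1, ?_, ?_, ?_, ?_⟩
  · intro i u w h
    rw [SimpleGraph.map_adj] at h
    obtain ⟨p, q, hpq, rfl, rfl⟩ := h
    have := hT i hpq
    exact this.1.1
  · intro i u w h
    rw [SimpleGraph.map_adj] at h
    obtain ⟨p, q, hpq, rfl, rfl⟩ := h
    have := hT i hpq
    exact ⟨p.2, q.2, this.1.2⟩
  · intro i
    have : ((T i).map (Function.Embedding.subtype (· ∈ f i))).induce (f i) = T i :=
      SimpleGraph.comap_map_eq _ _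
    rw [this]
    exact hTree i
  · intro i j hij
    rcases lt_or_gt_of_ne hij with h | h
    · have h' : ¬ j < i := not_lt.2 h.le
      simp only [h, h', dif_pos, dif_neg, not_false_iff]
      exact ⟨hx i j h.ne, hxy i j h.ne, hcxy i j h.ne⟩
    · have h' : ¬ i < j := not_lt.2 h.le
      simp only [h, h', dif_pos, dif_neg, not_false_iff]
      exact ⟨hy j i h.ne, (hxy j i h.ne).symm, (hcxy j i h.ne).symm⟩

/-- Merging two neighbours `p`, `q` of `v` into `p`: an odd K5 lifts. -/
lemma HasOddC.lift {V : Type} {G G' : SimpleGraph V} {p q v : V} (hpq : p ≠ q) (hpv : p ≠ v)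
    (hqv : q ≠ v) (hvp : G.Adj v p) (hvq : G.Adj v q)
    (hiso : ∀ x y, G'.Adj x y → x ≠ q ∧ x ≠ v)
    (hoff : ∀ x y, G'.Adj x y → x ≠ p → y ≠ p → G.Adj x y)
    (hon : ∀ y, G'.Adj p y → G.Adj p y ∨ G.Adj q y) (h : HasOddC G') : HasOddC G := by
  classical
  obtain ⟨f, c, h1, h2, h3⟩ := h
  -- all vertices of the pieces have neighbours in `G'`
  have hnb : ∀ i, ∀ u ∈ f i, ∃ y, G'.Adj u y := by
    intro i u hu
    have : ∃ j, i ≠ j := by
      by_cases hi : i = 0
      · exact ⟨1, by rw [hi]; decide⟩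
      · exact ⟨0, hi⟩
    obtain ⟨j, hij⟩ := this
    obtain ⟨x, hx, y, _, hxy, _⟩ := h3 i j hij
    by_cases hux : u = x
    · exact ⟨y, hux ▸ hxy⟩
    · obtain ⟨r, _, hru⟩ := h2 i
      obtain ⟨w⟩ := (hru u hu).symm.trans (hru x hx)
      cases w with
      | nil => exact absurd rfl hux
      | cons hadj _ => exact ⟨_, hadj.1.1⟩
  have hq : ∀ i, q ∉ f i := by
    intro i hi
    obtain ⟨y, hy⟩ := hnb i q hi
    exact (hiso _ _ hy).1 rfl
  have hv : ∀ i, v ∉ f i := by
    intro i hi
    obtain ⟨y, hy⟩ := hnb i v hi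
    exact (hiso _ _ hy).2 rfl
  by_cases hp : ∃ i0, p ∈ f i0
  · obtain ⟨i0, hi0⟩ := hp
    have hpi : ∀ i, i ≠ i0 → p ∉ f i := by
      intro i hi h
      exact Set.disjoint_left.1 (h1 i i0 hi) h hi0
    set c' : V → Bool := fun u => if u = v then !(c p) else if u = q then c p else c u with hc'
    have cv : c' v = !(c p) := by simp [hc']
    have cq : c' q = c p := by simp [hc', hqv]
    have co : ∀ u, u ≠ v → u ≠ q → c' u = c u := by
      intro u h1 h2
      simp [hc', h1, h2]
    have cp : c' p = c p := co p hpv hpq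
    have cf : ∀ i, ∀ u ∈ f i, c' u = c u := by
      intro i u hu
      exact co u (fun h => hv i (h ▸ hu)) (fun h => hq i (h ▸ hu))
    refine ⟨fun i => if i = i0 then f i0 ∪ {q, v} else f i, c', ?_, ?_, ?_⟩
    · intro i j hij
      rw [Set.disjoint_left]
      intro u hu hu'
      by_cases hi : i = i0
      · have hj : j ≠ i0 := fun h => hij (hi.trans h.symm)
        simp only [hi, if_true, hj, if_false] at hu hu'
        rcases hu with hu | hu
        · exact Set.disjoint_left.1 (h1 i0 j (fun h => hj h.symm)) hu hu'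
        · rcases hu with rfl | hu
          · exact hq _ hu'
          · rw [Set.mem_singleton_iff] at hu
            exact hv _ (hu ▸ hu')
      · by_cases hj : j = i0
        · simp only [hi, if_false, hj, if_true] at hu hu'
          rcases hu' with hu' | hu'
          · exact Set.disjoint_left.1 (h1 i i0 hi) hu hu'
          · rcases hu' with rfl | hu'
            · exact hq _ hu
            · rw [Set.mem_singleton_iff] at hu'
              exact hv _ (hu' ▸ hu)
        · simp only [hi, hj, if_false] at hu hu'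
          exact Set.disjoint_left.1 (h1 i j hij) hu hu'
    · intro i
      by_cases hi : i = i0
      · subst hi
        simp only [if_true]
        have mp : p ∈ f i ∪ {q, v} := Or.inl hi0
        have mq : q ∈ f i ∪ {q, v} := Or.inr (Or.inl rfl)
        have mv : v ∈ f i ∪ {q, v} := Or.inr (Or.inr rfl)
        set Γ := restr (Bi G c') (f i ∪ {q, v}) with hΓ
        have rv : Γ.Reachable p v := by
          refine SimpleGraph.Adj.reachable ⟨⟨hvp.symm, ?_⟩, mp, mv⟩
          rw [cp, cv]; cases c p <;> simp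
        have rq : Γ.Reachable p q := by
          refine rv.trans (SimpleGraph.Adj.reachable ⟨⟨hvq, ?_⟩, mv, mq⟩)
          rw [cq, cv]; cases c p <;> simp
        refine ⟨p, mp, ?_⟩
        intro u hu
        rcases hu with hu | hu | hu
        · obtain ⟨r, _, hru⟩ := h2 i
          have hpu : (restr (Bi G' c) (f i)).Reachable p u := (hru p hi0).symm.trans (hru u hu)
          refine reach_induct (P := fun u => Γ.Reachable p u) hpu (SimpleGraph.Reachable.refl _) ?_
          intro x y hx hxy
          have hxy1 : G'.Adj x y := hxy.1.1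
          have hcxy : c' x ≠ c' y := by
            rw [cf i x hxy.2.1, cf i y hxy.2.2]; exact hxy.1.2
          have mx : x ∈ f i ∪ {q, v} := Or.inl hxy.2.1
          have my : y ∈ f i ∪ {q, v} := Or.inl hxy.2.2
          by_cases hyp : y = p
          · rw [hyp]
          · by_cases hxp : x = p
            · subst hxp
              rcases hon y hxy1 with h | h
              · exact SimpleGraph.Adj.reachable ⟨⟨h, hcxy⟩, mx, my⟩
              · refine rq.trans (SimpleGraph.Adj.reachable ⟨⟨h, ?_⟩, mq, my⟩)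
                rw [cq, ← cp]; exact hcxy
            · exact hx.trans (SimpleGraph.Adj.reachable ⟨⟨hoff x y hxy1 hxp hyp, hcxy⟩, mx, my⟩)
        · rw [hu]; exact rq
        · rw [Set.mem_singleton_iff] at hu
          rw [hu]; exact rv
      · simp only [hi, if_false]
        obtain ⟨r, hr, hru⟩ := h2 i
        refine ⟨r, hr, ?_⟩
        intro u hu
        refine (hru u hu).mono ?_
        intro x y hxy
        have hxp : x ≠ p := fun h => hpi i hi (h ▸ hxy.2.1)
        have hyp : y ≠ p := fun h => hpi i hi (h ▸ hxy.2.2)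
        refine ⟨⟨hoff x y hxy.1.1 hxp hyp, ?_⟩, hxy.2⟩
        rw [cf i x hxy.2.1, cf i y hxy.2.2]; exact hxy.1.2
    · have key : ∀ i j, i ≠ j → ∃ x ∈ (if i = i0 then f i0 ∪ {q, v} else f i),
          ∃ y ∈ (if j = i0 then f i0 ∪ {q, v} else f j), G.Adj x y ∧ c' x = c' y := by
        intro i j hij
        obtain ⟨x, hx, y, hy, hxy, hcxy⟩ := h3 i j hij
        have mx : x ∈ (if i = i0 then f i0 ∪ {q, v} else f i) := by
          by_cases hi : i = i0
          · rw [if_pos hi]; rw [hi] at hx; exact Or.inl hx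
          · rw [if_neg hi]; exact hx
        have my : y ∈ (if j = i0 then f i0 ∪ {q, v} else f j) := by
          by_cases hj : j = i0
          · rw [if_pos hj]; rw [hj] at hy; exact Or.inl hy
          · rw [if_neg hj]; exact hy
        have hcx := cf i x hx
        have hcy := cf j y hy
        by_cases hxp : x = p
        · subst hxp
          have hi : i = i0 := by
            by_contra hne
            exact hpi i hne hx
          rcases hon y hxy with h | h
          · exact ⟨x, mx, y, my, h, by rw [hcx, hcy, hcxy]⟩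
          · refine ⟨q, ?_, y, my, h, ?_⟩
            · rw [if_pos hi]; exact Or.inr (Or.inl rfl)
            · rw [cq, hcy, hcxy]
        · by_cases hyp : y = p
          · subst hyp
            have hj : j = i0 := by
              by_contra hne
              exact hpi j hne hy
            rcases hon x hxy.symm with h | h
            · exact ⟨x, mx, y, my, h.symm, by rw [hcx, hcy, hcxy]⟩
            · refine ⟨x, mx, q, ?_, h.symm, ?_⟩
              · rw [if_pos hj]; exact Or.inr (Or.inl rfl)
              · rw [cq, hcx, hcxy]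
          · exact ⟨x, mx, y, my, hoff x y hxy hxp hyp, by rw [hcx, hcy, hcxy]⟩
      exact key
  · push Not at hp
    refine ⟨f, c, h1, ?_, ?_⟩
    · intro i
      obtain ⟨r, hr, hru⟩ := h2 i
      refine ⟨r, hr, ?_⟩
      intro u hu
      refine (hru u hu).mono ?_
      intro x y hxy
      have hxp : x ≠ p := fun h => hp i (h ▸ hxy.2.1)
      have hyp : y ≠ p := fun h => hp i (h ▸ hxy.2.2)
      exact ⟨⟨hoff x y hxy.1.1 hxp hyp, hxy.1.2⟩, hxy.2⟩
    · intro i j hij
      obtain ⟨x, hx, y, hy, hxy, hcxy⟩ := h3 i j hij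
      have hxp : x ≠ p := fun h => hp i (h ▸ hx)
      have hyp : y ≠ p := fun h => hp j (h ▸ hy)
      exact ⟨x, hx, y, hy, hoff x y hxy hxp hyp, hcxy⟩

end Pool.Agent.MP_ccda7a_co
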