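import Pool.Agent.Lib.MP_ccda7a_co.Kempe

set_option autoImplicit false

namespace Pool.Agent.MP_ccda7a_co

variable {V : Type} {G : SimpleGraph V} {W : Set V}

/-- A critical graph has no clique cutset (here: of size four). -/
lemma separating (hc : Crit G W) (k : Fin 4 → V)
    (hk : ∀ i j, i ≠ j → G.Adj (k i) (k j)) (X : Set V) (hXK : ∀ i, k i ∉ X)
    (hX : ∀ u v, u ∈ X → G.Adj u v → v ∈ X ∨ ∃ i, k i = v) (x : V) (hx : x ∈ X) (hxW : x ∈ W) :
    ∀ w ∈ W, w ∈ X ∨ ∃ i, k i = w := by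
  classical
  intro w hw
  by_contra hcon
  push Not at hcon
  obtain ⟨hwX, hwK⟩ := hcon
  obtain ⟨φX, hφX⟩ := hc.crit w hw
  obtain ⟨φY, hφY⟩ := hc.crit x hxW
  have hxK : ∀ i, k i ≠ x := fun i h => hXK i (h ▸ hx)
  have injX : Function.Injective (φX ∘ k) := by
    intro i j hij
    by_contra hne
    exact hφX (k i) (k j) (by simpa using hwK i) (by simpa using hwK j) (hk i j hne) hij
  have injY : Function.Injective (φY ∘ k) := by
    intro i j hij
    by_contra hne
    exact hφY (k i) (k j) (by simpa using hxK i) (by simpa using hxK j) (hk i j hne) hij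
  have bijX : Function.Bijective (φX ∘ k) := Finite.injective_iff_bijective.1 injX
  have bijY : Function.Bijective (φY ∘ k) := Finite.injective_iff_bijective.1 injY
  set σ : Fin 4 ≃ Fin 4 := (Equiv.ofBijective _ bijY).symm.trans (Equiv.ofBijective _ bijX) with hσ
  have hσk : ∀ i, σ (φY (k i)) = φX (k i) := by
    intro i
    have h1 : (Equiv.ofBijective _ bijY) i = φY (k i) := rfl
    rw [hσ, Equiv.trans_apply, ← h1, Equiv.symm_apply_apply]
    rfl
  apply hc.ncol (fun u => if u ∈ X then φX u else σ (φY u))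
  have key : ∀ u v, u ∈ X → v ∉ X → G.Adj u v → φX u ≠ σ (φY v) := by
    intro u v hu hv huv
    rcases hX u v hu huv with h | ⟨i, rfl⟩
    · exact absurd h hv
    · rw [hσk]
      refine hφX u (k i) ?_ (by simpa using hwK i) huv
      simp only [Set.mem_singleton_iff]
      rintro rfl; exact hwX hu
  intro u v _ _ huv
  by_cases hu : u ∈ X <;> by_cases hv : v ∈ X
  · simp only [hu, hv, if_true]
    refine hφX u v ?_ ?_ huv <;> simp only [Set.mem_singleton_iff] <;> rintro rfl
    · exact hwX hu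
    · exact hwX hv
  · simp only [hu, hv, if_true, if_false]
    exact key u v hu hv huv
  · simp only [hu, hv, if_true, if_false]
    exact (key v u hv hu huv.symm).symm
  · simp only [hu, hv, if_false]
    intro h
    have := σ.injective h
    refine hφY u v ?_ ?_ huv this <;> simp only [Set.mem_singleton_iff] <;> rintro rfl
    · exact hu hx
    · exact hv hx

/-- the graph without the vertices `k i` -/
def Del (G : SimpleGraph V) (k : Fin 4 → V) : SimpleGraph V where
  Adj u v := G.Adj u v ∧ (∀ i, k i ≠ u) ∧ (∀ i, k i ≠ v)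
  symm := ⟨fun _ _ h => ⟨h.1.symm, h.2.2, h.2.1⟩⟩
  loopless := ⟨fun _ h => h.1.ne rfl⟩

lemma dist_parent {Δ : SimpleGraph V} {e u : V} (h : Δ.Reachable e u) (hne : u ≠ e) :
    ∃ x, Δ.Adj x u ∧ Δ.Reachable e x ∧ Δ.dist e x + 1 = Δ.dist e u := by
  obtain ⟨w, hw⟩ := h.exists_walk_length_eq_dist
  have hw' : w.reverse.length = Δ.dist e u := by rw [SimpleGraph.Walk.length_reverse, hw]
  revert hw'
  cases hwr : w.reverse with
  | nil => exact absurd rfl hne
  | @cons _ x _ hadj p =>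
    intro hw'
    rw [SimpleGraph.Walk.length_cons] at hw'
    refine ⟨x, hadj.symm, p.reverse.reachable, ?_⟩
    have h1 : Δ.dist e x ≤ p.length := by
      have := SimpleGraph.dist_le p.reverse
      rwa [SimpleGraph.Walk.length_reverse] at this
    obtain ⟨q, hq⟩ := (p.reverse.reachable).exists_walk_length_eq_dist
    have h2 : Δ.dist e u ≤ Δ.dist e x + 1 := by
      have := SimpleGraph.dist_le (q.concat hadj.symm)
      rw [SimpleGraph.Walk.length_concat, hq] at this
      exact this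
    omega

lemma dist_lip {Δ : SimpleGraph V} {e u v : V} (h : Δ.Reachable e u) (huv : Δ.Adj u v) :
    Δ.dist e v ≤ Δ.dist e u + 1 := by
  obtain ⟨q, hq⟩ := h.exists_walk_length_eq_dist
  have := SimpleGraph.dist_le (q.concat huv)
  rw [SimpleGraph.Walk.length_concat, hq] at this
  exact this

/-- If every vertex of a K4 has two adjacent outside neighbours, a critical claw-free graph
has an odd K5. -/
lemma bfs_case [Fintype V] (hc : Crit G W) (hcf : ClawFree G) (k : Fin 4 → V)
    (hk : ∀ i j, i ≠ j → G.Adj (k i) (k j))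
    (hp : ∀ i, ∃ p q, G.Adj (k i) p ∧ G.Adj (k i) q ∧ G.Adj p q ∧ (∀ i', k i' ≠ p) ∧
      (∀ i', k i' ≠ q)) : HasOddK5 G := by
  classical
  obtain ⟨e, e', he1, he2, he3, he4, he5⟩ := hp 0
  have heW : e ∈ W := hc.inW' he1
  set Δ := Del G k with hΔ
  have hΔG : ∀ u v, Δ.Adj u v → G.Adj u v := fun u v h => h.1
  set d : V → ℕ := fun u => Δ.dist e u with hd
  -- reachability
  have hreach : ∀ u ∈ W, (∀ i, k i ≠ u) → Δ.Reachable e u := by
    intro u hu huK
    have := separating hc k hk {u | Δ.Reachable e u} ?_ ?_ e (SimpleGraph.Reachable.refl _) heW u hu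
    · rcases this with h | ⟨i, hi⟩
      · exact h
      · exact absurd hi (huK i)
    · intro i h
      have : ∀ i', k i' ≠ k i := reach_induct (P := fun u => ∀ i', k i' ≠ u) h he4
        (fun u v _ h' => h'.2.2)
      exact this i rfl
    · intro u v hu huv
      by_cases hv : ∀ i, k i ≠ v
      · left
        have hu' : ∀ i', k i' ≠ u := reach_induct (P := fun u => ∀ i', k i' ≠ u) hu he4
          (fun u v _ h' => h'.2.2)
        exact SimpleGraph.Reachable.trans hu (SimpleGraph.Adj.reachable ⟨huv, hu', hv⟩)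
      · right
        push Not at hv
        exact hv
  have hde : d e = 0 := by simp [hd]
  -- bad indices
  let bad : Fin 4 → Prop := fun i => ∀ f, G.Adj (k i) f → (∀ i', k i' ≠ f) → Odd (d f)
  let M : Fin 4 → V → Prop := fun i f => G.Adj (k i) f ∧ (∀ i', k i' ≠ f) ∧
    ∃ f', G.Adj (k i) f' ∧ (∀ i', k i' ≠ f') ∧ G.Adj f f'
  have hdead : ∀ i, bad i → ∀ f, G.Adj (k i) f → (∀ i', k i' ≠ f) → ∀ g, Δ.Adj f g →
      d g ≠ d f + 1 := by
    intro i hi f hf hfK g hfg hdg
    have hfW : f ∈ W := hc.inW' hf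
    have hfr := hreach f hfW hfK
    have hodd : Odd (d f) := hi f hf hfK
    have hfe : f ≠ e := by
      rintro rfl; rw [hde] at hodd; exact absurd hodd (by decide)
    obtain ⟨h, hh1, hh2, hh3⟩ := dist_parent hfr hfe
    have hh3' : d h + 1 = d f := hh3
    have hgK : ∀ i', k i' ≠ g := hfg.2.2
    have hhK : ∀ i', k i' ≠ h := hh1.2.1
    have hhg : h ≠ g := by
      rintro rfl; omega
    rcases hcf f (k i) h g hf.symm (hΔG _ _ hh1).symm (hΔG _ _ hfg) (hhK i) (hgK i) hhg with
      h' | h' | h'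
    · have := hi h h' hhK
      rw [← hh3'] at hodd
      rcases this with ⟨a, ha⟩; rcases hodd with ⟨b, hb⟩; omega
    · have := hi g h' hgK
      rw [hdg] at this
      rcases this with ⟨a, ha⟩; rcases hodd with ⟨b, hb⟩; omega
    · have : d g ≤ d h + 1 := dist_lip hh2 ⟨h', hhK, hgK⟩
      omega
  -- minimal hitting set
  have hex : ∃ n : ℕ, ∃ R : Finset V, R.card = n ∧ (∀ f ∈ R, ∃ i, bad i ∧ M i f) ∧
      ∀ i, bad i → ∃ f ∈ R, M i f := by
    refine ⟨_, Finset.univ.filter (fun f => ∃ i, bad i ∧ M i f), rfl, ?_, ?_⟩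
    · intro f hf; simpa using hf
    · intro i hi
      obtain ⟨p, q, h1, h2, h3, h4, h5⟩ := hp i
      exact ⟨p, by simpa using ⟨i, hi, h1, h4, q, h2, h5, h3⟩, h1, h4, q, h2, h5, h3⟩
  obtain ⟨R, hRc, hR1, hR2⟩ := Nat.find_spec hex
  have hRmin : ∀ f ∈ R, ∃ i, bad i ∧ M i f ∧ ∀ g ∈ R, M i g → g = f := by
    intro f hf
    by_contra hcon
    push Not at hcon
    have hlt : (R.erase f).card < Nat.find hex := by
      rw [← hRc]; exact Finset.card_erase_lt_of_mem hf
    apply Nat.find_min hex hlt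
    refine ⟨R.erase f, rfl, fun g hg => hR1 g (Finset.mem_of_mem_erase hg), ?_⟩
    intro i hi
    obtain ⟨g, hg, hMg⟩ := hR2 i hi
    by_cases hgf : g = f
    · subst hgf
      obtain ⟨g', hg', hMg', hne⟩ := hcon i hi hMg
      exact ⟨g', Finset.mem_erase.2 ⟨hne, hg'⟩, hMg'⟩
    · exact ⟨g, Finset.mem_erase.2 ⟨hgf, hg⟩, hMg⟩
  have hRodd : ∀ f ∈ R, Odd (d f) := by
    intro f hf
    obtain ⟨i, hi, hM⟩ := hR1 f hf
    exact hi f hM.1 hM.2.1
  -- the colouring
  set c : V → Bool := fun u => if (∃ i, k i = u) ∨ u ∈ R then true else decide (Even (d u)) with hcdef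
  have hcR : ∀ u ∈ R, c u = true := by
    intro u hu; simp [hcdef, hu]
  have hcK : ∀ i, c (k i) = true := by
    intro i; simp [hcdef]
  have hcn : ∀ u, (∀ i, k i ≠ u) → u ∉ R → c u = decide (Even (d u)) := by
    intro u h1 h2
    have : ¬ ∃ i, k i = u := by push Not; exact h1
    simp [hcdef, this, h2]
  let Γ : SimpleGraph V :=
    { Adj := fun u v => Δ.Adj u v ∧ c u ≠ c v
      symm := ⟨fun _ _ h => ⟨h.1.symm, h.2.symm⟩⟩
      loopless := ⟨fun _ h => h.2 rfl⟩ }
  have hΓK : ∀ u v, Γ.Adj u v → ∀ i, k i ≠ v := fun u v h => h.1.2.2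
  have hr1 : ∀ n, ∀ u ∈ W, (∀ i, k i ≠ u) → u ∉ R → d u = n → Γ.Reachable e u := by
    intro n
    induction n with
    | zero =>
      intro u hu huK _ hdu
      have : e = u := ((hreach u hu huK).dist_eq_zero_iff).1 hdu
      subst this; exact SimpleGraph.Reachable.refl _
    | succ n ih =>
      intro u hu huK huR hdu
      have hue : u ≠ e := by rintro rfl; omega
      obtain ⟨h, hh1, hh2, hh3⟩ := dist_parent (hreach u hu huK) hue
      have hh3' : d h + 1 = d u := hh3
      have hhR : h ∉ R := by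
        intro hhR
        obtain ⟨i, hi, hM⟩ := hR1 h hhR
        exact hdead i hi h hM.1 hM.2.1 u hh1 (by omega)
      have hhW : h ∈ W := hc.inW _ _ (hΔG _ _ hh1)
      have hhK : ∀ i, k i ≠ h := hh1.2.1
      refine (ih h hhW hhK hhR (by omega)).trans (SimpleGraph.Adj.reachable ⟨hh1, ?_⟩)
      rw [hcn h hhK hhR, hcn u huK huR, ← hh3']
      simp only [ne_eq, decide_eq_decide, Nat.even_add_one]
      tauto
  have hr2 : ∀ u ∈ W, (∀ i, k i ≠ u) → Γ.Reachable e u := by
    intro u hu huK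
    by_cases huR : u ∈ R
    · obtain ⟨i, hi, hM, huniq⟩ := hRmin u huR
      obtain ⟨f', hf1, hf2, hf3⟩ := hM.2.2
      have hf'R : f' ∉ R := by
        intro h
        have := huniq f' h ⟨hf1, hf2, u, hM.1, huK, hf3.symm⟩
        subst this
        exact G.irrefl hf3
      have hf'W : f' ∈ W := hc.inW' hf1
      refine (hr1 _ f' hf'W hf2 hf'R rfl).trans (SimpleGraph.Adj.reachable ⟨⟨hf3.symm, hf2, huK⟩, ?_⟩)
      rw [hcR u huR, hcn f' hf2 hf'R]
      have := hi f' hf1 hf2
      rw [← Nat.not_even_iff_odd] at this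
      simp [this]
    · exact hr1 _ u hu huK huR rfl
  refine oddK5_of_piece G k hk c hcK Γ (fun u v h => h.1.1) (fun u v h => h.2) e ?_ ?_
  · intro i h
    have : ∀ i', k i' ≠ k i := reach_induct (P := fun u => ∀ i', k i' ≠ u) h he4
      (fun u v _ h' => hΓK _ _ h')
    exact this i rfl
  · intro i
    by_cases hi : bad i
    · obtain ⟨f, hf, hM⟩ := hR2 i hi
      exact ⟨f, hr2 f (hc.inW' hM.1) hM.2.1, hcR f hf, hM.1⟩
    · simp only [bad] at hi
      push Not at hi
      obtain ⟨f, hf1, hf2, hf3⟩ := hi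
      have hfR : f ∉ R := fun h => hf3 (hRodd f h)
      refine ⟨f, hr2 f (hc.inW' hf1) hf2, ?_, hf1⟩
      rw [hcn f hf2 hfR]
      rw [Nat.not_odd_iff_even] at hf3
      simp [hf3]

/-- A critical claw-free graph containing a K4 contains an odd K5. -/
lemma k4_case [Fintype V] (hc : Crit G W) (hcf : ClawFree G) (k : Fin 4 → V)
    (hk : ∀ i j, i ≠ j → G.Adj (k i) (k j)) : HasOddK5 G := by
  classical
  by_cases hp : ∀ i, ∃ p q, G.Adj (k i) p ∧ G.Adj (k i) q ∧ G.Adj p q ∧ (∀ i', k i' ≠ p) ∧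
      (∀ i', k i' ≠ q)
  · exact bfs_case hc hcf k hk hp
  · push Not at hp
    obtain ⟨i, hi⟩ := hp
    -- re-index so that the special vertex is `k' 0`
    set k' : Fin 4 → V := fun j => k (Equiv.swap 0 i j) with hk'def
    have hk'0 : k' 0 = k i := by simp [hk'def]
    have hk' : ∀ a b, a ≠ b → G.Adj (k' a) (k' b) := by
      intro a b hab
      exact hk _ _ (fun h => hab ((Equiv.swap 0 i).injective h))
    have hK' : ∀ y, (∀ a, k' a ≠ y) → ∀ a, k a ≠ y := by
      intro y hy a
      have := hy (Equiv.swap 0 i a)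
      simpa [hk'def] using this
    have hi' : ∀ p q, G.Adj (k' 0) p → G.Adj (k' 0) q → (∀ a, k' a ≠ p) → (∀ a, k' a ≠ q) →
        ¬ G.Adj p q := by
      intro p q h1 h2 h3 h4 h5
      rw [hk'0] at h1 h2
      obtain ⟨a, ha⟩ := hi p q h1 h2 h5 (hK' p h3)
      exact hK' q h4 a ha
    clear_value k'
    -- an outside neighbour of `k' 0`
    have hW0 : k' 0 ∈ W := hc.inW _ _ (hk' 0 1 (by decide))
    obtain ⟨φ, hφ⟩ := hc.crit _ hW0
    have h4 : ∀ a b c : Fin 4, ∃ m, a ≠ m ∧ b ≠ m ∧ c ≠ m := by decide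
    obtain ⟨m, hm1, hm2, hm3⟩ := h4 (φ (k' 1)) (φ (k' 2)) (φ (k' 3))
    obtain ⟨f1, hf1, hf1m⟩ := hc.sees hφ m
    have hf1K : ∀ a, k' a ≠ f1 := by
      intro a ha
      fin_cases a
      · exact G.irrefl (ha ▸ hf1)
      · exact hm1 (by rw [← hf1m, ← ha]; rfl)
      · exact hm2 (by rw [← hf1m, ← ha]; rfl)
      · exact hm3 (by rw [← hf1m, ← ha]; rfl)
    by_cases hall : ∀ y, G.Adj (k' 0) y → (∃ a, k' a = y) ∨ y = f1
    · exact kempe_case hc k' hk' f1 f1 hf1 hf1 hf1K hf1K
        (fun y hy => (hall y hy).imp id Or.inl) (Or.inl rfl)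
    · push Not at hall
      obtain ⟨f2, hf2, hf2K, hne⟩ := hall
      have hn12 : ¬ G.Adj f1 f2 := hi' f1 f2 hf1 hf2 hf1K hf2K
      refine kempe_case hc k' hk' f1 f2 hf1 hf2 hf1K hf2K ?_ (Or.inr ?_)
      · intro y hy
        by_contra hcon
        push Not at hcon
        obtain ⟨hyK, hy1, hy2⟩ := hcon
        rcases hcf (k' 0) f1 f2 y hf1 hf2 hy hne.symm hy1.symm hy2.symm with h | h | h
        · exact hn12 h
        · exact hi' f1 y hf1 hy hf1K hyK h
        · exact hi' f2 y hf2 hy hf2K hyK h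
      · intro a ha
        rcases hcf (k' 0) (k' a) f1 f2 (hk' _ _ (Ne.symm ha)) hf1 hf2 (hf1K a) (hf2K a) hne.symm with
          h | h | h
        · exact Or.inl h
        · exact Or.inr h
        · exact absurd h hn12

end Pool.Agent.MP_ccda7a_co
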