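import Pool.Agent.Lib.MP_ccda7a_co.Arc1
import Pool.Agent.Lib.MP_ccda7a_co.Bfs

set_option autoImplicit false

namespace Pool.Agent.MP_ccda7a_co

variable {V : Type}

lemma even_path {Δ : SimpleGraph V} {x y : V} (p : Δ.Walk x y) (hp : p.IsPath)
    (he : Even p.length) :
    ∃ c : V → Bool, c x = true ∧ c y = true ∧ (Bi Δ c).Reachable x y := by
  classical
  set c : V → Bool := fun u => decide (∃ i, i ≤ p.length ∧ Even i ∧ p.getVert i = u) with hc
  have hinj := hp.getVert_injOn
  have key : ∀ i, i ≤ p.length → (c (p.getVert i) = true ↔ Even i) := by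
    intro i hi
    rw [hc]
    simp only [decide_eq_true_eq]
    constructor
    · rintro ⟨j, hj, hje, hji⟩
      have : j = i := hinj hj hi hji
      rw [← this]; exact hje
    · intro h
      exact ⟨i, hi, h, rfl⟩
  have hr : ∀ i, i ≤ p.length → (Bi Δ c).Reachable x (p.getVert i) := by
    intro i
    induction i with
    | zero => intro _; rw [SimpleGraph.Walk.getVert_zero]
    | succ n ih =>
      intro hn
      have h1 : n ≤ p.length := by omega
      refine (ih h1).trans (SimpleGraph.Adj.reachable ⟨p.adj_getVert_succ (by omega), ?_⟩)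
      intro heq
      have k1 := key n h1
      have k2 := key (n + 1) hn
      rw [← heq] at k2
      rw [k1, Nat.even_add_one] at k2
      tauto
  refine ⟨c, ?_, ?_, ?_⟩
  · have := (key 0 (Nat.zero_le _)).2 (by decide)
    rwa [SimpleGraph.Walk.getVert_zero] at this
  · have := (key p.length le_rfl).2 he
    rwa [SimpleGraph.Walk.getVert_length] at this
  · have := hr p.length le_rfl
    rwa [SimpleGraph.Walk.getVert_length] at this

/-- From `e` there is an even path to one of two adjacent vertices. -/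
lemma even_or {Δ : SimpleGraph V} {e f g : V} (hr : Δ.Reachable e f) (hfg : Δ.Adj f g) :
    ∃ (t : V) (c : V → Bool), (t = f ∨ t = g) ∧ c e = true ∧ c t = true ∧
      (Bi Δ c).Reachable e t := by
  classical
  obtain ⟨p, hp, hlen⟩ := hr.exists_path_of_dist
  by_cases hev : Even p.length
  · obtain ⟨c, h1, h2, h3⟩ := even_path p hp hev
    exact ⟨f, c, Or.inl rfl, h1, h2, h3⟩
  · by_cases hg : g ∈ p.support
    · have hq : (p.takeUntil g hg).IsPath := hp.takeUntil hg
      have hsum : (p.takeUntil g hg).length + (p.dropUntil g hg).length = p.length := by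
        have := congrArg SimpleGraph.Walk.length (p.take_spec hg)
        rwa [SimpleGraph.Walk.length_append] at this
      have hd : 0 < (p.dropUntil g hg).length := by
        by_contra hcon
        have h0 : (p.dropUntil g hg).length = 0 := by omega
        exact hfg.ne (SimpleGraph.Walk.eq_of_length_eq_zero h0).symm
      have hle : p.length ≤ (p.takeUntil g hg).length + 1 := by
        have := SimpleGraph.dist_le ((p.takeUntil g hg).concat hfg.symm)
        rw [SimpleGraph.Walk.length_concat] at this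
        omega
      have hev' : Even (p.takeUntil g hg).length := by
        have h1 : (p.takeUntil g hg).length + 1 = p.length := by omega
        rw [← h1, Nat.even_add_one, not_not] at hev
        exact hev
      obtain ⟨c, h1, h2, h3⟩ := even_path _ hq hev'
      exact ⟨g, c, Or.inr rfl, h1, h2, h3⟩
    · have hq : (p.concat hfg).IsPath := hp.concat hg hfg
      have hev' : Even (p.concat hfg).length := by
        rw [SimpleGraph.Walk.length_concat, Nat.even_add_one]
        exact hev
      obtain ⟨c, h1, h2, h3⟩ := even_path _ hq hev'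
      exact ⟨g, c, Or.inr rfl, h1, h2, h3⟩

lemma out_nbr {G : SimpleGraph V} {W : Set V} (hc : Crit G W) (k : Fin 4 → V)
    (hk : ∀ i j, i ≠ j → G.Adj (k i) (k j)) (i : Fin 4) :
    ∃ f, G.Adj (k i) f ∧ ∀ j, k j ≠ f := by
  classical
  have hne : ∃ j, i ≠ j := by
    by_cases hi : i = 0
    · exact ⟨1, by rw [hi]; decide⟩
    · exact ⟨0, hi⟩
  obtain ⟨j, hij⟩ := hne
  obtain ⟨φ, hφ⟩ := hc.crit (k i) (hc.inW _ _ (hk i j hij))
  have h4 : ∃ m : Fin 4, ∀ j, j ≠ i → φ (k j) ≠ m := by
    by_contra hcon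
    push Not at hcon
    choose s hs1 hs2 using hcon
    have hinj : Function.Injective s := by
      intro x y hxy
      rw [← hs2 x, ← hs2 y, hxy]
    have hsurj := Finite.surjective_of_injective hinj
    obtain ⟨x, hx⟩ := hsurj i
    exact hs1 x hx
  obtain ⟨m, hm⟩ := h4
  obtain ⟨f, hf, hfm⟩ := hc.sees hφ m
  refine ⟨f, hf, ?_⟩
  rintro j' rfl
  by_cases hj : j' = i
  · subst hj; exact G.irrefl hf
  · exact hm j' hj hfm

lemma kempe_one {G : SimpleGraph V} {W : Set V} (hc : Crit G W) (k : Fin 4 → V)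
    (hk : ∀ i j, i ≠ j → G.Adj (k i) (k j)) (i : Fin 4) (f : V) (hf : G.Adj (k i) f)
    (hfK : ∀ j, k j ≠ f) (hN : ∀ y, G.Adj (k i) y → (∃ j, k j = y) ∨ y = f) : HasOddK5 G := by
  classical
  refine kempe_case hc (fun j => k (Equiv.swap 0 i j)) ?_ f f ?_ ?_ ?_ ?_ ?_ (Or.inl rfl)
  · intro a b hab
    exact hk _ _ (fun h => hab ((Equiv.swap 0 i).injective h))
  · simpa using hf
  · simpa using hf
  · intro j; exact hfK _
  · intro j; exact hfK _
  · intro y hy
    have hy' : G.Adj (k i) y := by simpa using hy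
    rcases hN y hy' with ⟨j, hj⟩ | h
    · exact Or.inl ⟨Equiv.swap 0 i j, by simpa using hj⟩
    · exact Or.inr (Or.inl h)

/-- `x` lies on the arc from `s` to `t` of the circle `ℝ/ℤ`. -/
def inA (s t x : ℝ) : Prop := ∃ m : ℤ, s ≤ x + m ∧ x + m ≤ t

/-- The intersection graph of the arcs from `a v` to `b v`. -/
def AG (a b : V → ℝ) : SimpleGraph V where
  Adj u w := u ≠ w ∧ ∃ x, inA (a u) (b u) x ∧ inA (a w) (b w) x
  symm := ⟨fun _ _ h => ⟨h.1.symm, h.2.imp fun _ hx => ⟨hx.2, hx.1⟩⟩⟩
  loopless := ⟨fun _ h => h.1 rfl⟩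

lemma adj_crit (a b : V → ℝ) {k u : V} (hku : k ≠ u) (hk1 : a k ≤ 0) (hk2 : 0 ≤ b k)
    (hu1 : 0 < a u) (hu2 : a u ≤ b u) (hu3 : b u < 1) :
    (AG a b).Adj k u ↔ a u ≤ b k ∨ a k + 1 ≤ b u := by
  constructor
  · rintro ⟨-, x, ⟨m, h1, h2⟩, ⟨n, h3, h4⟩⟩
    rcases le_or_gt n m with h | h
    · left
      have : (n : ℝ) ≤ m := by exact_mod_cast h
      linarith
    · right
      have : (m : ℝ) + 1 ≤ n := by exact_mod_cast h
      linarith
  · rintro (h | h)
    · exact ⟨hku, a u, ⟨0, by push_cast; linarith, by push_cast; linarith⟩,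
        ⟨0, by push_cast; linarith, by push_cast; linarith⟩⟩
    · exact ⟨hku, b u, ⟨-1, by push_cast; linarith, by push_cast; linarith⟩,
        ⟨0, by push_cast; linarith, by push_cast; linarith⟩⟩

/-- Four arcs through the point `0`, the first one starts there and contains no other arc. -/
lemma cut_case (a b : V → ℝ) (W : Finset V) (hc : Crit (restr (AG a b) W) W) (k : Fin 4 → V)
    (hk : ∀ i j, i ≠ j → (restr (AG a b) W).Adj (k i) (k j))
    (hK : ∀ i, a (k i) ≤ 0 ∧ 0 ≤ b (k i)) (hv0 : a (k 0) = 0)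
    (hD : ∀ u ∈ W, (∀ i, k i ≠ u) → 0 < a u ∧ a u ≤ b u ∧ b u < 1)
    (hmin : ∀ u ∈ W, (∀ i, k i ≠ u) → (restr (AG a b) W).Adj (k 0) u →
      inA (a u) (b u) (b (k 0))) : HasOddK5 (restr (AG a b) W) := by
  classical
  set G := restr (AG a b) (W : Set V) with hG
  have hkW : ∀ i, k i ∈ W := by
    intro i
    have hne : ∃ j, i ≠ j := by
      by_cases hi : i = 0
      · exact ⟨1, by rw [hi]; decide⟩
      · exact ⟨0, hi⟩
    obtain ⟨j, hij⟩ := hne
    exact hc.inW _ _ (hk i j hij)
  have hcr : ∀ i u, u ∈ W → (∀ j, k j ≠ u) →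
      (G.Adj (k i) u ↔ a u ≤ b (k i) ∨ a (k i) + 1 ≤ b u) := by
    intro i u hu huK
    obtain ⟨h1, h2, h3⟩ := hD u hu huK
    rw [← adj_crit a b (huK i) (hK i).1 (hK i).2 h1 h2 h3]
    exact ⟨fun h => h.1, fun h => ⟨h, hkW i, hu⟩⟩
  by_cases hone : ∃ i f, G.Adj (k i) f ∧ (∀ j, k j ≠ f) ∧
      ∀ y, G.Adj (k i) y → (∃ j, k j = y) ∨ y = f
  · obtain ⟨i, f, h1, h2, h3⟩ := hone
    exact kempe_one hc k hk i f h1 h2 h3
  · have htwo : ∀ i f, ∃ y, G.Adj (k i) y ∧ (∀ j, k j ≠ y) ∧ y ≠ f := by
      intro i f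
      obtain ⟨f0, h1, h2⟩ := out_nbr hc k hk i
      by_cases hff : f0 = f
      · subst hff
        by_contra hcon
        push Not at hcon
        apply hone
        refine ⟨i, f0, h1, h2, ?_⟩
        intro y hy
        by_cases hyK : ∀ j, k j ≠ y
        · exact Or.inr (hcon y hy hyK)
        · push Not at hyK
          exact Or.inl hyK
      · exact ⟨f0, h1, h2, hff⟩
    set D : Finset V := W.filter (fun u => ∀ i, k i ≠ u) with hDdef
    have hmemD : ∀ u, u ∈ D ↔ u ∈ W ∧ ∀ i, k i ≠ u := by
      intro u; rw [hDdef, Finset.mem_filter]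
    have hDne : D.Nonempty := by
      obtain ⟨f, h1, h2⟩ := out_nbr hc k hk 0
      exact ⟨f, (hmemD f).2 ⟨hc.inW' h1, h2⟩⟩
    obtain ⟨f, hfD, hf⟩ := Finset.exists_min_image D a hDne
    obtain ⟨e, heD, he⟩ := Finset.exists_max_image D b hDne
    obtain ⟨u, hvu, huK, huf⟩ := htwo 0 f
    have huW : u ∈ W := hc.inW' hvu
    have huD : u ∈ D := (hmemD u).2 ⟨huW, huK⟩
    have hEne : (D.erase f).Nonempty := ⟨u, Finset.mem_erase.2 ⟨huf, huD⟩⟩
    obtain ⟨g, hgE, hg⟩ := Finset.exists_min_image (D.erase f) a hEne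
    have hgD : g ∈ D := Finset.mem_of_mem_erase hgE
    have hgf : g ≠ f := Finset.ne_of_mem_erase hgE
    have hfW := ((hmemD f).1 hfD).1
    have hfK := ((hmemD f).1 hfD).2
    have hgW := ((hmemD g).1 hgD).1
    have hgK := ((hmemD g).1 hgD).2
    have heW := ((hmemD e).1 heD).1
    have heK := ((hmemD e).1 heD).2
    have hau : a u ≤ b (k 0) := by
      rcases (hcr 0 u huW huK).1 hvu with h | h
      · exact h
      · have := (hD u huW huK).2.2
        rw [hv0] at h
        linarith
    have hvg : G.Adj (k 0) g :=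
      (hcr 0 g hgW hgK).2 (Or.inl ((hg u (Finset.mem_erase.2 ⟨huf, huD⟩)).trans hau))
    have hvf : G.Adj (k 0) f := (hcr 0 f hfW hfK).2 (Or.inl ((hf u huD).trans hau))
    have hfg : G.Adj f g :=
      ⟨⟨hgf.symm, b (k 0), hmin f hfW hfK hvf, hmin g hgW hgK hvg⟩, hfW, hgW⟩
    set Δ := Del G k with hΔ
    have hreach : Δ.Reachable e f := by
      have := separating hc k hk {u | Δ.Reachable e u} ?_ ?_ e (SimpleGraph.Reachable.refl _) heW f
        hfW
      · rcases this with h | ⟨i, hi⟩
        · exact h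
        · exact absurd hi (hfK i)
      · intro i h
        have : ∀ i', k i' ≠ k i := reach_induct (P := fun u => ∀ i', k i' ≠ u) h heK
          (fun u v _ h' => h'.2.2)
        exact this i rfl
      · intro u v hu huv
        by_cases hv : ∀ i, k i ≠ v
        · left
          have hu' : ∀ i', k i' ≠ u := reach_induct (P := fun u => ∀ i', k i' ≠ u) hu heK
            (fun u v _ h' => h'.2.2)
          exact SimpleGraph.Reachable.trans hu (SimpleGraph.Adj.reachable ⟨huv, hu', hv⟩)
        · right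
          push Not at hv
          exact hv
    obtain ⟨t, c, ht, hce, hct, hret⟩ := even_or hreach (⟨hfg, hfK, hgK⟩ : Δ.Adj f g)
    have hnK : ∀ u, (Bi Δ c).Reachable e u → ∀ i', k i' ≠ u := by
      intro u hu
      exact reach_induct (P := fun u => ∀ i', k i' ≠ u) hu heK (fun u v _ h' => h'.1.2.2)
    refine oddK5_of_piece G k hk (fun u => decide (∃ i, k i = u) || c u) ?_ (Bi Δ c)
      (fun u v h => h.1.1) ?_ e ?_ ?_
    · intro i
      have : ∃ j, k j = k i := ⟨i, rfl⟩
      simp [this]
    · intro u w h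
      have h1 : ¬ ∃ i, k i = u := by push Not; exact h.1.2.1
      have h2 : ¬ ∃ i, k i = w := by push Not; exact h.1.2.2
      simp only [h1, h2, decide_false, Bool.false_or]
      exact h.2
    · intro i h
      exact hnK _ h i rfl
    · intro i
      by_cases hie : G.Adj (k i) e
      · exact ⟨e, SimpleGraph.Reachable.refl _, by simp [hce], hie⟩
      · have hif : a f ≤ b (k i) := by
          obtain ⟨y, hy1, hy2, -⟩ := htwo i (k i)
          have hyW : y ∈ W := hc.inW' hy1
          have hyD : y ∈ D := (hmemD y).2 ⟨hyW, hy2⟩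
          rcases (hcr i y hyW hy2).1 hy1 with h | h
          · exact (hf y hyD).trans h
          · exfalso
            exact hie ((hcr i e heW heK).2 (Or.inr (h.trans (he y hyD))))
        have hadjf : G.Adj (k i) f := (hcr i f hfW hfK).2 (Or.inl hif)
        rcases ht with rfl | rfl
        · exact ⟨t, hret, by simp [hct], hadjf⟩
        · refine ⟨t, hret, by simp [hct], ?_⟩
          by_contra hit
          obtain ⟨y, hy1, hy2, hy3⟩ := htwo i f
          have hyW : y ∈ W := hc.inW' hy1
          have hyD : y ∈ D := (hmemD y).2 ⟨hyW, hy2⟩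
          rcases (hcr i y hyW hy2).1 hy1 with h | h
          · exact hit ((hcr i t hgW hgK).2
              (Or.inl ((hg y (Finset.mem_erase.2 ⟨hy3, hyD⟩)).trans h)))
          · exact hie ((hcr i e heW heK).2 (Or.inr (h.trans (he y hyD))))

end Pool.Agent.MP_ccda7a_co
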