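import Pool.Agent.Lib.MP_ccda7a_co.Arc2

set_option autoImplicit false

namespace Pool.Agent.MP_ccda7a_co

variable {V : Type}

lemma AG_congr {a b a' b' : V → ℝ} (σ : ℝ → ℝ) (hσ : Function.Surjective σ)
    (h : ∀ u x, inA (a' u) (b' u) x ↔ inA (a u) (b u) (σ x)) : AG a' b' = AG a b := by
  ext u w
  constructor
  · rintro ⟨huw, x, h1, h2⟩
    exact ⟨huw, σ x, (h u x).1 h1, (h w x).1 h2⟩
  · rintro ⟨huw, y, h1, h2⟩
    obtain ⟨x, rfl⟩ := hσ y
    exact ⟨huw, x, (h u x).2 h1, (h w x).2 h2⟩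

lemma inA_shift (s t x l : ℝ) (n : ℤ) : inA (s - l + n) (t - l + n) x ↔ inA s t (x + l) := by
  constructor
  · rintro ⟨m, h1, h2⟩
    exact ⟨m - n, by push_cast; linarith, by push_cast; linarith⟩
  · rintro ⟨m, h1, h2⟩
    exact ⟨m + n, by push_cast; linarith, by push_cast; linarith⟩

lemma inA_refl (s t x : ℝ) : inA (-t) (-s) x ↔ inA s t (-x) := by
  constructor
  · rintro ⟨m, h1, h2⟩
    exact ⟨-m, by push_cast; linarith, by push_cast; linarith⟩
  · rintro ⟨m, h1, h2⟩
    exact ⟨-m, by push_cast; linarith, by push_cast; linarith⟩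

lemma inA_left {s t : ℝ} (h : s ≤ t) : inA s t s := ⟨0, by push_cast; linarith, by push_cast; linarith⟩

lemma inA_right {s t : ℝ} (h : s ≤ t) : inA s t t := ⟨0, by push_cast; linarith, by push_cast; linarith⟩

/-- An arc which meets a minimal arc contains one of its ends. -/
lemma ends {su tu sv tv x : ℝ} (hv : sv ≤ tv) (hu : inA su tu x) (hv' : inA sv tv x)
    (hmin : (∀ y, inA su tu y → inA sv tv y) → ∀ y, inA sv tv y → inA su tu y) :
    inA su tu sv ∨ inA su tu tv := by
  obtain ⟨m, h1, h2⟩ := hu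
  obtain ⟨n, h3, h4⟩ := hv'
  by_cases c1 : su ≤ sv + ((m - n : ℤ) : ℝ)
  · left
    refine ⟨m - n, c1, ?_⟩
    push_cast at *
    linarith
  · by_cases c2 : tv + ((m - n : ℤ) : ℝ) ≤ tu
    · right
      refine ⟨m - n, ?_, c2⟩
      push_cast at *
      linarith
    · left
      push Not at c1 c2
      refine hmin ?_ sv (inA_left hv)
      rintro y ⟨k, h5, h6⟩
      refine ⟨k - (m - n), ?_, ?_⟩
      · push_cast at *; linarith
      · push_cast at *; linarith

/-- Four arcs through the first end of a minimal arc. -/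
lemma case_left (a b : V → ℝ) (hab : ∀ v, a v ≤ b v) (W : Finset V)
    (hc : Crit (restr (AG a b) W) W) (k : Fin 4 → V)
    (hk : ∀ i j, i ≠ j → (restr (AG a b) W).Adj (k i) (k j))
    (hmin : ∀ u ∈ W, (∀ y, inA (a u) (b u) y → inA (a (k 0)) (b (k 0)) y) →
      ∀ y, inA (a (k 0)) (b (k 0)) y → inA (a u) (b u) y)
    (hK : ∀ i, inA (a (k i)) (b (k i)) (a (k 0)))
    (hD : ∀ u ∈ W, (∀ i, k i ≠ u) → ¬ inA (a u) (b u) (a (k 0))) :
    HasOddK5 (restr (AG a b) W) := by
  classical
  set l := a (k 0) with hl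
  have hn : ∀ u, ∃ n : ℤ, (u = k 0 → n = 0) ∧
      (inA (a u) (b u) l → a u - l + n ≤ 0 ∧ 0 ≤ b u - l + n) ∧
      (¬ inA (a u) (b u) l → 0 ≤ a u - l + n ∧ a u - l + n < 1) := by
    intro u
    by_cases hu : u = k 0
    · subst hu
      refine ⟨0, fun _ => rfl, ?_, ?_⟩
      · intro _
        have := hab (k 0)
        push_cast
        constructor <;> linarith
      · intro h
        exact absurd (hK 0) h
    · by_cases h : inA (a u) (b u) l
      · obtain ⟨m, h1, h2⟩ := h
        refine ⟨-m, fun h => absurd h hu, fun _ => ?_, fun h' => absurd ⟨m, h1, h2⟩ h'⟩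
        push_cast
        constructor <;> linarith
      · refine ⟨-⌊a u - l⌋, fun h => absurd h hu, fun h' => absurd h' h, fun _ => ?_⟩
        have h1 := Int.floor_le (a u - l)
        have h2 := Int.lt_floor_add_one (a u - l)
        push_cast
        constructor <;> linarith
  choose n hn0 hn1 hn2 using hn
  set a' : V → ℝ := fun u => a u - l + n u with ha'
  set b' : V → ℝ := fun u => b u - l + n u with hb'
  have hin : ∀ u x, inA (a' u) (b' u) x ↔ inA (a u) (b u) (x + l) := fun u x =>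
    inA_shift (a u) (b u) x l (n u)
  have hAG : AG a' b' = AG a b := by
    refine AG_congr (fun x => x + l) (fun y => ⟨y - l, by ring⟩) hin
  have hDv : ∀ u ∈ W, (∀ i, k i ≠ u) → 0 < a' u ∧ a' u ≤ b' u ∧ b' u < 1 := by
    intro u hu huK
    have hnl := hD u hu huK
    obtain ⟨h1, h2⟩ := hn2 u hnl
    have hle : a' u ≤ b' u := by
      have := hab u
      simp only [ha', hb']
      linarith
    have hnot : ¬ inA (a' u) (b' u) 0 := by
      rw [hin, zero_add]; exact hnl
    refine ⟨?_, hle, ?_⟩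
    · rcases h1.lt_or_eq with h | h
      · exact h
      · exfalso
        apply hnot
        refine ⟨0, ?_, ?_⟩
        · push_cast; simp only [ha']; linarith
        · push_cast; simp only [ha'] at hle ⊢; linarith
    · by_contra hcon
      push Not at hcon
      apply hnot
      refine ⟨1, ?_, ?_⟩
      · push_cast; simp only [ha']; linarith
      · push_cast; linarith
  have hres : HasOddK5 (restr (AG a' b') W) := by
    refine cut_case a' b' W (by rw [hAG]; exact hc) k (by rw [hAG]; exact hk) ?_ ?_ hDv ?_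
    · intro i
      exact hn1 (k i) (hK i)
    · simp only [ha', hn0 (k 0) rfl, ← hl]
      push_cast
      ring
    · intro u hu huK hadj
      rw [hin]
      have hb0 : b' (k 0) + l = b (k 0) := by
        simp only [hb', hn0 (k 0) rfl]
        push_cast
        ring
      rw [hb0]
      rw [hAG] at hadj
      obtain ⟨⟨-, x, hx1, hx2⟩, -, -⟩ := hadj
      rcases ends (hab (k 0)) hx2 hx1 (hmin u hu) with h | h
      · exact absurd h (hD u hu huK)
      · exact h
  rwa [hAG] at hres

/-- Four arcs through the last end of a minimal arc. -/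
lemma case_right (a b : V → ℝ) (hab : ∀ v, a v ≤ b v) (W : Finset V)
    (hc : Crit (restr (AG a b) W) W) (k : Fin 4 → V)
    (hk : ∀ i j, i ≠ j → (restr (AG a b) W).Adj (k i) (k j))
    (hmin : ∀ u ∈ W, (∀ y, inA (a u) (b u) y → inA (a (k 0)) (b (k 0)) y) →
      ∀ y, inA (a (k 0)) (b (k 0)) y → inA (a u) (b u) y)
    (hK : ∀ i, inA (a (k i)) (b (k i)) (b (k 0)))
    (hD : ∀ u ∈ W, (∀ i, k i ≠ u) → ¬ inA (a u) (b u) (b (k 0))) :
    HasOddK5 (restr (AG a b) W) := by
  classical
  have hin : ∀ u x, inA (-(b u)) (-(a u)) x ↔ inA (a u) (b u) (-x) := fun u x =>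
    inA_refl (a u) (b u) x
  have hAG : AG (fun u => -(b u)) (fun u => -(a u)) = AG a b :=
    AG_congr (fun x => -x) (fun y => ⟨-y, by ring⟩) hin
  have hres : HasOddK5 (restr (AG (fun u => -(b u)) (fun u => -(a u))) W) := by
    refine case_left (fun u => -(b u)) (fun u => -(a u)) (fun v => by have := hab v; linarith) W
      (by rw [hAG]; exact hc) k (by rw [hAG]; exact hk) ?_ ?_ ?_
    · intro u hu h y hy
      rw [hin] at hy ⊢
      refine hmin u hu ?_ _ hy
      intro z hz
      have h1 := h (-z) (by rw [hin, neg_neg]; exact hz)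
      rwa [hin, neg_neg] at h1
    · intro i
      rw [hin, neg_neg]
      exact hK i
    · intro u hu huK
      rw [hin, neg_neg]
      exact hD u hu huK
  rwa [hAG] at hres

/-- Merging two arcs at the two ends of a minimal arc with four neighbours. -/
lemma merge_case (a b : V → ℝ) (hab : ∀ v, a v ≤ b v) (W : Finset V)
    (hc : Crit (restr (AG a b) W) W)
    (ih : ∀ (a' b' : V → ℝ) (W' : Finset V), W'.card < W.card → (∀ v, a' v ≤ b' v) →
      (∀ φ : V → Fin 4, ¬ IsCol (restr (AG a' b') W') ∅ φ) → HasOdd (restr (AG a' b') W'))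
    (v p q x0 y0 : V) (hvW : v ∈ W) (hpW : p ∈ W) (hqW : q ∈ W) (hpq : p ≠ q) (hpv : p ≠ v)
    (hqv : q ≠ v)
    (hmin : ∀ u ∈ W, (∀ y, inA (a u) (b u) y → inA (a v) (b v) y) →
      ∀ y, inA (a v) (b v) y → inA (a u) (b u) y)
    (hp : inA (a p) (b p) (a v)) (hq : inA (a q) (b q) (b v)) (hnadj : ¬ (AG a b).Adj p q)
    (hN : ∀ u, (restr (AG a b) W).Adj v u → u = p ∨ u = q ∨ u = x0 ∨ u = y0) :
    HasOdd (restr (AG a b) W) := by
  classical
  set G := restr (AG a b) (W : Set V) with hG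
  obtain ⟨m, hm1, hm2⟩ := hp
  obtain ⟨n, hn1, hn2⟩ := hq
  have hp' : inA (a p) (b p) (a v) := ⟨m, hm1, hm2⟩
  have hq' : inA (a q) (b q) (b v) := ⟨n, hn1, hn2⟩
  have hv := hab v
  set α := a p - m with hα
  set β := b q - n with hβ
  have hα1 : a p - m ≤ a q - n := by
    by_contra hcon
    push Not at hcon
    apply hnadj
    refine ⟨hpq, a p - m, ⟨m, by linarith, by linarith⟩, ⟨n, by linarith, by linarith⟩⟩
  have hβ1 : b p - m ≤ b q - n := by
    by_contra hcon
    push Not at hcon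
    apply hnadj
    refine ⟨hpq, b q - n, ⟨m, by linarith, by linarith⟩, ⟨n, by linarith, by linarith⟩⟩
  have hnew : ∀ x, inA α β x ↔ inA (a p) (b p) x ∨ inA (a v) (b v) x ∨ inA (a q) (b q) x := by
    intro x
    constructor
    · rintro ⟨k, h1, h2⟩
      by_cases c1 : x + k ≤ b p - m
      · exact Or.inl ⟨k + m, by push_cast; linarith, by push_cast; linarith⟩
      · push Not at c1
        by_cases c2 : x + k ≤ b v
        · exact Or.inr (Or.inl ⟨k, by linarith, c2⟩)
        · push Not at c2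
          exact Or.inr (Or.inr ⟨k + n, by push_cast; linarith, by push_cast; linarith⟩)
    · rintro (⟨k, h1, h2⟩ | ⟨k, h1, h2⟩ | ⟨k, h1, h2⟩)
      · exact ⟨k - m, by push_cast; linarith, by push_cast; linarith⟩
      · exact ⟨k, by linarith, by linarith⟩
      · exact ⟨k - n, by push_cast; linarith, by push_cast; linarith⟩
  set a' : V → ℝ := fun u => if u = p then α else a u with ha'
  set b' : V → ℝ := fun u => if u = p then β else b u with hb'
  set W' : Finset V := (W.erase v).erase q with hW'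
  have hap : a' p = α := by simp [ha']
  have hbp : b' p = β := by simp [hb']
  have hao : ∀ u, u ≠ p → a' u = a u := fun u hu => by simp [ha', hu]
  have hbo : ∀ u, u ≠ p → b' u = b u := fun u hu => by simp [hb', hu]
  have hmemW : ∀ u, u ∈ W' ↔ u ≠ q ∧ u ≠ v ∧ u ∈ W := by
    intro u; rw [hW', Finset.mem_erase, Finset.mem_erase]
  have hcard : W'.card < W.card := by
    have h1 : W'.card ≤ (W.erase v).card := Finset.card_le_card (Finset.erase_subset _ _)
    have h2 := Finset.card_erase_lt_of_mem hvW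
    omega
  have hab' : ∀ u, a' u ≤ b' u := by
    intro u
    by_cases hu : u = p
    · rw [hu, hap, hbp]; linarith
    · rw [hao u hu, hbo u hu]; exact hab u
  have hpW' : p ∈ W' := (hmemW p).2 ⟨hpq, hpv, hpW⟩
  -- adjacency in the new graph
  have hadj_of : ∀ u, u ∈ W' → u ≠ p → (G.Adj p u ∨ G.Adj q u) →
      (restr (AG a' b') (W' : Set V)).Adj p u := by
    intro u hu hup h
    refine ⟨⟨fun h' => hup h'.symm, ?_⟩, hpW', hu⟩
    rw [hap, hbp, hao u hup, hbo u hup]
    rcases h with ⟨⟨-, x, h1, h2⟩, -, -⟩ | ⟨⟨-, x, h1, h2⟩, -, -⟩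
    · exact ⟨x, (hnew x).2 (Or.inl h1), h2⟩
    · exact ⟨x, (hnew x).2 (Or.inr (Or.inr h1)), h2⟩
  have hadj_off : ∀ u w, u ≠ p → w ≠ p →
      ((AG a' b').Adj u w ↔ (AG a b).Adj u w) := by
    intro u w hu hw
    constructor
    · rintro ⟨h1, x, h2, h3⟩
      rw [hao u hu, hbo u hu] at h2
      rw [hao w hw, hbo w hw] at h3
      exact ⟨h1, x, h2, h3⟩
    · rintro ⟨h1, x, h2, h3⟩
      refine ⟨h1, x, ?_, ?_⟩
      · rw [hao u hu, hbo u hu]; exact h2
      · rw [hao w hw, hbo w hw]; exact h3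
  have hnoncol : ∀ φ : V → Fin 4, ¬ IsCol (restr (AG a' b') (W' : Set V)) ∅ φ := by
    intro φ hφ
    set ψ : V → Fin 4 := fun u => if u = q then φ p else φ u with hψdef
    have ψq : ψ q = φ p := by simp [hψdef]
    have ψo : ∀ u, u ≠ q → ψ u = φ u := fun u hu => by simp [hψdef, hu]
    have hone : ∀ u w, u ≠ v → w ≠ v → G.Adj u w → w ≠ q → ψ u ≠ ψ w := by
      intro u w hu hw huw hwq
      have hwW' : w ∈ W' := (hmemW w).2 ⟨hwq, hw, huw.2.2⟩
      rw [ψo w hwq]
      by_cases huq : u = q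
      · subst huq
        rw [ψq]
        by_cases hwp : w = p
        · subst hwp
          exact absurd huw.1.symm hnadj
        · exact hφ p w (by simp) (by simp) (hadj_of w hwW' hwp (Or.inr huw))
      · have huW' : u ∈ W' := (hmemW u).2 ⟨huq, hu, huw.2.1⟩
        rw [ψo u huq]
        by_cases hup : u = p
        · subst hup
          have hwp : w ≠ u := huw.ne.symm
          exact hφ u w (by simp) (by simp) (hadj_of w hwW' hwp (Or.inl huw))
        · by_cases hwp : w = p
          · subst hwp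
            exact (hφ w u (by simp) (by simp) (hadj_of u huW' hup (Or.inl huw.symm))).symm
          · exact hφ u w (by simp) (by simp) ⟨(hadj_off u w hup hwp).2 huw.1, huW', hwW'⟩
    have hψ : IsCol G {v} ψ := by
      intro u w hu hw huw
      rw [Set.mem_singleton_iff] at hu hw
      by_cases hwq : w = q
      · have huq : u ≠ q := by
          rintro rfl
          exact huw.ne hwq.symm
        exact (hone w u hw hu huw.symm huq).symm
      · exact hone u w hu hw huw hwq
    have h4 : ∀ a b c : Fin 4, ∃ m, a ≠ m ∧ b ≠ m ∧ c ≠ m := by decide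
    obtain ⟨c, h1, h2, h3⟩ := h4 (φ p) (ψ x0) (ψ y0)
    obtain ⟨y, hy, hyc⟩ := hc.sees hψ c
    rcases hN y hy with rfl | rfl | rfl | rfl
    · exact h1 (by rw [← ψo _ hpq]; exact hyc)
    · exact h1 (by rw [← ψq]; exact hyc)
    · exact h2 hyc
    · exact h3 hyc
  have hodd := ih a' b' W' hcard hab' hnoncol
  refine HasOddC.hasOdd (HasOddC.lift (G' := restr (AG a' b') (W' : Set V)) hpq hpv hqv ?_ ?_ ?_ ?_
    ?_ hodd.hasOddC)
  · exact ⟨⟨hpv.symm, a v, inA_left hv, hp'⟩, hvW, hpW⟩
  · exact ⟨⟨hqv.symm, b v, inA_right hv, hq'⟩, hvW, hqW⟩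
  · intro x y hxy
    have := (hmemW x).1 hxy.2.1
    exact ⟨this.1, this.2.1⟩
  · intro x y hxy hx hy
    refine ⟨(hadj_off x y hx hy).1 hxy.1, ((hmemW x).1 hxy.2.1).2.2, ((hmemW y).1 hxy.2.2).2.2⟩
  · intro y hy
    have hyW' := (hmemW y).1 hy.2.2
    have hyp : y ≠ p := hy.ne.symm
    obtain ⟨⟨-, x, h1, h2⟩, -, -⟩ := hy
    rw [hap, hbp] at h1
    rw [hao y hyp, hbo y hyp] at h2
    rcases (hnew x).1 h1 with h | h | h
    · exact Or.inl ⟨⟨hyp.symm, x, h, h2⟩, hpW, hyW'.2.2⟩
    · rcases ends hv h2 h (hmin y hyW'.2.2) with h' | h'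
      · exact Or.inl ⟨⟨hyp.symm, a v, hp', h'⟩, hpW, hyW'.2.2⟩
      · exact Or.inr ⟨⟨hyW'.1.symm, b v, hq', h'⟩, hqW, hyW'.2.2⟩
    · exact Or.inr ⟨⟨hyW'.1.symm, x, h, h2⟩, hqW, hyW'.2.2⟩

end Pool.Agent.MP_ccda7a_co
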