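import Pool.Agent.Lib.MP_ccda7a_co.Arc3

set_option autoImplicit false

namespace Pool.Agent.MP_ccda7a_co

variable {V : Type}

lemma enum {n : ℕ} (t : Finset V) (ht : t.card = n) :
    ∃ k : Fin n → V, Function.Injective k ∧ ∀ u, u ∈ t ↔ ∃ i, k i = u := by
  classical
  let e := (Finset.equivFinOfCardEq ht).symm
  refine ⟨fun i => (e i : V), ?_, ?_⟩
  · intro i j h
    exact e.injective (Subtype.ext h)
  · intro u
    constructor
    · intro hu
      obtain ⟨i, hi⟩ := e.surjective ⟨u, hu⟩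
      exact ⟨i, by simp [hi]⟩
    · rintro ⟨i, rfl⟩
      exact (e i).2

/-- All arcs through a point are pairwise adjacent. -/
lemma clique_of_point {n : ℕ} (a b : V → ℝ) (W : Finset V) (x : ℝ) (k : Fin n → V)
    (hinj : Function.Injective k) (hW : ∀ i, k i ∈ W) (hx : ∀ i, inA (a (k i)) (b (k i)) x)
    (i j : Fin n) (hij : i ≠ j) : (restr (AG a b) W).Adj (k i) (k j) :=
  ⟨⟨fun h => hij (hinj h), x, hx i, hx j⟩, hW i, hW j⟩

/-- The arcs through an end `x` of the minimal arc `v`. -/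
lemma end_case (a b : V → ℝ) (W : Finset V) (v : V) (hvW : v ∈ W) (x : ℝ) (hvx : inA (a v) (b v) x)
    (hcase : ∀ k : Fin 4 → V, k 0 = v →
      (∀ i j, i ≠ j → (restr (AG a b) W).Adj (k i) (k j)) →
      (∀ i, inA (a (k i)) (b (k i)) x) →
      (∀ u ∈ W, (∀ i, k i ≠ u) → ¬ inA (a u) (b u) x) → HasOddK5 (restr (AG a b) W))
    (A : Finset V) (hA : ∀ u, u ∈ A ↔ u ∈ W ∧ u ≠ v ∧ inA (a u) (b u) x) (h3 : 3 ≤ A.card) :
    HasOddK5 (restr (AG a b) W) := by
  classical
  rcases h3.lt_or_eq with h | h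
  · obtain ⟨t, htA, ht⟩ := Finset.exists_subset_card_eq (show 4 ≤ A.card by omega)
    obtain ⟨k, hk, hkt⟩ := enum t ht
    have hkA : ∀ i, k i ∈ A := fun i => htA ((hkt _).2 ⟨i, rfl⟩)
    refine oddK5_of_K5 _ k (clique_of_point a b W x k hk (fun i => ((hA _).1 (hkA i)).1)
      (fun i => ((hA _).1 (hkA i)).2.2)) v ?_
    intro i
    obtain ⟨h1, h2, h3⟩ := (hA _).1 (hkA i)
    exact ⟨⟨h2, x, h3, hvx⟩, h1, hvW⟩
  · obtain ⟨k, hk, hkA⟩ := enum A h.symm
    have hk1 : ∀ i, k i ∈ W ∧ k i ≠ v ∧ inA (a (k i)) (b (k i)) x := fun i =>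
      (hA _).1 ((hkA _).2 ⟨i, rfl⟩)
    set kk : Fin 4 → V := Fin.cons v k with hkk
    have hk0 : kk 0 = v := rfl
    have hks : ∀ i : Fin 3, kk i.succ = k i := fun i => by rw [hkk, Fin.cons_succ]
    have hkW : ∀ i, kk i ∈ W := by
      intro i
      refine Fin.cases ?_ (fun i => ?_) i
      · rw [hk0]; exact hvW
      · rw [hks]; exact (hk1 i).1
    have hkx : ∀ i, inA (a (kk i)) (b (kk i)) x := by
      intro i
      refine Fin.cases ?_ (fun i => ?_) i
      · rw [hk0]; exact hvx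
      · rw [hks]; exact (hk1 i).2.2
    have hinj : Function.Injective kk := by
      rw [hkk, Fin.cons_injective_iff]
      refine ⟨?_, hk⟩
      rintro ⟨i, hi⟩
      exact (hk1 i).2.1 hi
    refine hcase kk hk0 (clique_of_point a b W x kk hinj hkW hkx) hkx ?_
    intro u hu huk hux
    have huv : u ≠ v := fun h => huk 0 (by rw [hk0, h])
    obtain ⟨i, hi⟩ := (hkA u).1 ((hA u).2 ⟨hu, huv, hux⟩)
    exact huk i.succ (by rw [hks, hi])

lemma main_step (a b : V → ℝ) (hab : ∀ v, a v ≤ b v) (W : Finset V)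
    (hc : Crit (restr (AG a b) W) W)
    (ih : ∀ (a' b' : V → ℝ) (W' : Finset V), W'.card < W.card → (∀ v, a' v ≤ b' v) →
      (∀ φ : V → Fin 4, ¬ IsCol (restr (AG a' b') W') ∅ φ) → HasOdd (restr (AG a' b') W')) :
    HasOdd (restr (AG a b) W) := by
  classical
  have hWne : W.Nonempty := by
    by_contra hcon
    rw [Finset.not_nonempty_iff_eq_empty] at hcon
    exact hc.ncol (fun _ => 0) (fun u v _ _ huv => by
      have := hc.inW _ _ huv
      rw [hcon] at this
      simp at this)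
  obtain ⟨S, hS⟩ := Finset.exists_minimal
    (s := W.image (fun u => {x : ℝ | inA (a u) (b u) x})) (hWne.image _)
  obtain ⟨v, hvW, rfl⟩ := Finset.mem_image.1 hS.1
  have hmin : ∀ u ∈ W, (∀ y, inA (a u) (b u) y → inA (a v) (b v) y) →
      ∀ y, inA (a v) (b v) y → inA (a u) (b u) y := by
    intro u hu h y hy
    exact hS.2 (Finset.mem_image.2 ⟨u, hu, rfl⟩) h hy
  set G := restr (AG a b) (W : Set V) with hG
  set A : Finset V := W.filter (fun u => u ≠ v ∧ inA (a u) (b u) (a v)) with hAdef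
  set B : Finset V := W.filter (fun u => u ≠ v ∧ inA (a u) (b u) (b v)) with hBdef
  have hA : ∀ u, u ∈ A ↔ u ∈ W ∧ u ≠ v ∧ inA (a u) (b u) (a v) := by
    intro u; rw [hAdef, Finset.mem_filter]
  have hB : ∀ u, u ∈ B ↔ u ∈ W ∧ u ≠ v ∧ inA (a u) (b u) (b v) := by
    intro u; rw [hBdef, Finset.mem_filter]
  have hvl : inA (a v) (b v) (a v) := inA_left (hab v)
  have hvr : inA (a v) (b v) (b v) := inA_right (hab v)
  by_cases hA3 : 3 ≤ A.card
  · refine (end_case a b W v hvW (a v) hvl ?_ A hA hA3).hasOdd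
    intro k hk0 hk hK hD
    subst hk0
    exact case_left a b hab W hc k hk hmin hK hD
  by_cases hB3 : 3 ≤ B.card
  · refine (end_case a b W v hvW (b v) hvr ?_ B hB hB3).hasOdd
    intro k hk0 hk hK hD
    subst hk0
    exact case_right a b hab W hc k hk hmin hK hD
  -- four neighbours
  obtain ⟨φ, hφ⟩ := hc.crit v hvW
  choose s hs1 hs2 using fun j => hc.sees hφ j
  have hsinj : Function.Injective s := by
    intro i j hij
    rw [← hs2 i, ← hs2 j, hij]
  have hNAB : ∀ u, G.Adj v u → u ∈ A ∪ B := by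
    intro u hu
    have huv : u ≠ v := hu.ne.symm
    have huW : u ∈ W := hu.2.2
    obtain ⟨⟨-, x, h1, h2⟩, -, -⟩ := hu
    rw [Finset.mem_union, hA, hB]
    rcases ends (hab v) h2 h1 (hmin u huW) with h | h
    · exact Or.inl ⟨huW, huv, h⟩
    · exact Or.inr ⟨huW, huv, h⟩
  have hcardAB : (A ∪ B).card ≤ 4 := by
    have := Finset.card_union_le A B
    omega
  have himg : Finset.univ.image s = A ∪ B := by
    apply Finset.eq_of_subset_of_card_le
    · intro u hu
      obtain ⟨j, _, rfl⟩ := Finset.mem_image.1 hu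
      exact hNAB _ (hs1 j)
    · rw [Finset.card_image_of_injective _ hsinj]
      simpa using hcardAB
  have hN : ∀ u, G.Adj v u → ∃ j, s j = u := by
    intro u hu
    have := hNAB u hu
    rw [← himg] at this
    obtain ⟨j, _, hj⟩ := Finset.mem_image.1 this
    exact ⟨j, hj⟩
  by_cases hall : ∀ i j, i ≠ j → G.Adj (s i) (s j)
  · exact (oddK5_of_K5 G s hall v (fun i => (hs1 i).symm)).hasOdd
  · push Not at hall
    obtain ⟨i, j, hij, hnadj⟩ := hall
    have hsW : ∀ i, s i ∈ W := fun i => (hs1 i).2.2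
    have hsv : ∀ i, s i ≠ v := fun i => (hs1 i).ne.symm
    have hne : s i ≠ s j := fun h => hij (hsinj h)
    have hnadj' : ¬ (AG a b).Adj (s i) (s j) := fun h => hnadj ⟨h, hsW i, hsW j⟩
    -- the other two
    have hoth : ∀ i j : Fin 4, i ≠ j → ∃ c d : Fin 4, ∀ l, l = i ∨ l = j ∨ l = c ∨ l = d := by
      decide
    obtain ⟨c, d, hcd⟩ := hoth i j hij
    have hNN : ∀ u, G.Adj v u → u = s i ∨ u = s j ∨ u = s c ∨ u = s d := by
      intro u hu
      obtain ⟨l, rfl⟩ := hN u hu
      rcases hcd l with rfl | rfl | rfl | rfl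
      · exact Or.inl rfl
      · exact Or.inr (Or.inl rfl)
      · exact Or.inr (Or.inr (Or.inl rfl))
      · exact Or.inr (Or.inr (Or.inr rfl))
    have hi := hNAB _ (hs1 i)
    have hj := hNAB _ (hs1 j)
    rw [Finset.mem_union, hA, hB] at hi hj
    rcases hi with ⟨_, _, hi⟩ | ⟨_, _, hi⟩
    · rcases hj with ⟨_, _, hj⟩ | ⟨_, _, hj⟩
      · exact absurd ⟨hne, a v, hi, hj⟩ hnadj'
      · exact merge_case a b hab W hc ih v (s i) (s j) (s c) (s d) hvW (hsW i) (hsW j) hne
          (hsv i) (hsv j) hmin hi hj hnadj' hNN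
    · rcases hj with ⟨_, _, hj⟩ | ⟨_, _, hj⟩
      · refine merge_case a b hab W hc ih v (s j) (s i) (s c) (s d) hvW (hsW j) (hsW i) hne.symm
          (hsv j) (hsv i) hmin hj hi (fun h => hnadj' h.symm) ?_
        intro u hu
        rcases hNN u hu with h | h | h | h
        · exact Or.inr (Or.inl h)
        · exact Or.inl h
        · exact Or.inr (Or.inr (Or.inl h))
        · exact Or.inr (Or.inr (Or.inr h))
      · exact absurd ⟨hne, b v, hi, hj⟩ hnadj'

theorem arcs_main : ∀ (n : ℕ) (a b : V → ℝ) (W : Finset V), W.card = n → (∀ v, a v ≤ b v) →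
    (∀ φ : V → Fin 4, ¬ IsCol (restr (AG a b) W) ∅ φ) → HasOdd (restr (AG a b) W) := by
  classical
  intro n
  induction n using Nat.strong_induction_on with
  | _ n ih =>
    intro a b W hW hab hnc
    have ih' : ∀ (a' b' : V → ℝ) (W' : Finset V), W'.card < W.card → (∀ v, a' v ≤ b' v) →
        (∀ φ : V → Fin 4, ¬ IsCol (restr (AG a' b') W') ∅ φ) → HasOdd (restr (AG a' b') W') := by
      intro a' b' W' hlt h1 h2
      exact ih W'.card (by omega) a' b' W' rfl h1 h2
    by_cases hcrit : ∀ x ∈ W, ∃ φ : V → Fin 4, IsCol (restr (AG a b) (W.erase x : Finset V)) ∅ φ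
    · refine main_step a b hab W ⟨fun u v h => h.2.1, hnc, ?_⟩ ih'
      intro x hx
      obtain ⟨φ, hφ⟩ := hcrit x (by simpa using hx)
      refine ⟨φ, ?_⟩
      intro u v hu hv huv
      rw [Set.mem_singleton_iff] at hu hv
      refine hφ u v (by simp) (by simp) ⟨huv.1, ?_, ?_⟩
      · have := huv.2.1
        simp only [Finset.coe_erase, Set.mem_sdiff, Set.mem_singleton_iff]
        exact ⟨this, hu⟩
      · have := huv.2.2
        simp only [Finset.coe_erase, Set.mem_sdiff, Set.mem_singleton_iff]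
        exact ⟨this, hv⟩
    · push Not at hcrit
      obtain ⟨x, hx, hx2⟩ := hcrit
      have := ih' a b (W.erase x) (Finset.card_erase_lt_of_mem hx) hab hx2
      refine this.mono ?_
      intro u v huv
      have h1 := huv.2.1
      have h2 := huv.2.2
      simp only [Finset.coe_erase, Set.mem_sdiff] at h1 h2
      exact ⟨huv.1, h1.1, h2.1⟩

end Pool.Agent.MP_ccda7a_co
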