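import Mathlib

set_option autoImplicit false

namespace Pool.Agent.MP_ccda7a_co

/-- The graph `G` contains an odd K5 as a subgraph (same formulation as in the frozen
statement of the problem) in which the trees with index 0, 1, 2, 3 are single vertices. -/
def HasOddK5 {V : Type} (G : SimpleGraph V) : Prop :=
  ∃ (f : Fin 5 → Set V) (T : Fin 5 → SimpleGraph V) (e : Fin 5 → Fin 5 → V) (c : V → Bool),
    (∀ i j, i ≠ j → Disjoint (f i) (f j)) ∧
    (∀ i, T i ≤ G) ∧
    (∀ i u v, (T i).Adj u v → u ∈ f i ∧ v ∈ f i ∧ c u ≠ c v) ∧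
    (∀ i, ((T i).induce (f i)).IsTree) ∧
    (∀ i j, i ≠ j → e i j ∈ f i ∧ G.Adj (e i j) (e j i) ∧ c (e i j) = c (e j i)) ∧
    (∀ i, i ≠ 4 → ∃ v, f i = {v})

/-- A graph is claw-free if no vertex has three pairwise non-adjacent neighbours. -/
def ClawFree {V : Type} (G : SimpleGraph V) : Prop :=
  ∀ x a b c, G.Adj x a → G.Adj x b → G.Adj x c → a ≠ b → a ≠ c → b ≠ c →
    G.Adj a b ∨ G.Adj a c ∨ G.Adj b c

lemma HasOddK5.mono {V : Type} {G H : SimpleGraph V} (h : G ≤ H) (hG : HasOddK5 G) :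
    HasOddK5 H := by
  obtain ⟨f, T, e, c, h1, h2, h3, h4, h5, h6⟩ := hG
  exact ⟨f, T, e, c, h1, fun i => (h2 i).trans h, h3, h4,
    fun i j hij => ⟨(h5 i j hij).1, h (h5 i j hij).2.1, (h5 i j hij).2.2⟩, h6⟩

lemma tree_congr {V : Type} (T : SimpleGraph V) {A B : Set V} (h : A = B)
    (hB : (T.induce B).IsTree) : (T.induce A).IsTree := by
  subst h; exact hB

/-- Four pairwise adjacent vertices and a connected bichromatic piece touching all of them in
the right colour give an odd K5. -/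
lemma oddK5_of_piece {V : Type} (G : SimpleGraph V) (k : Fin 4 → V)
    (hk : ∀ i j, i ≠ j → G.Adj (k i) (k j)) (c : V → Bool) (hck : ∀ i, c (k i) = true)
    (Γ : SimpleGraph V) (hΓ : Γ ≤ G) (hΓc : ∀ u w, Γ.Adj u w → c u ≠ c w) (r : V)
    (hS : ∀ i, ¬ Γ.Reachable r (k i))
    (hn : ∀ i, ∃ s, Γ.Reachable r s ∧ c s = true ∧ G.Adj (k i) s) : HasOddK5 G := by
  classical
  set C := Γ.connectedComponentMk r with hC
  have hmem : ∀ u, u ∈ C.supp ↔ Γ.Reachable r u := by
    intro u
    rw [SimpleGraph.ConnectedComponent.mem_supp_iff, hC, SimpleGraph.ConnectedComponent.eq]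
    exact ⟨fun h => h.symm, fun h => h.symm⟩
  obtain ⟨T, hT, hTree⟩ := (C.connected_toSimpleGraph).exists_isTree_le
  choose s hs1 hs2 hs3 using hn
  -- the fifth tree
  set T4 : SimpleGraph V := T.map (Function.Embedding.subtype (· ∈ C.supp)) with hT4
  have hT4adj : ∀ u w, T4.Adj u w → Γ.Adj u w ∧ u ∈ C.supp ∧ w ∈ C.supp := by
    intro u w h
    rw [hT4, SimpleGraph.map_adj] at h
    obtain ⟨a, b, hab, rfl, rfl⟩ := h
    have := hT hab
    refine ⟨?_, a.2, b.2⟩
    simpa [SimpleGraph.ConnectedComponent.toSimpleGraph] using this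
  refine ⟨fun i => if h : (i : ℕ) < 4 then {k ⟨i, h⟩} else C.supp,
    fun i => if (i : ℕ) < 4 then ⊥ else T4,
    fun i j => if h : (i : ℕ) < 4 then k ⟨i, h⟩ else if h : (j : ℕ) < 4 then s ⟨j, h⟩ else r,
    c, ?_, ?_, ?_, ?_, ?_, ?_⟩
  · intro i j hij
    rw [Set.disjoint_left]
    intro u hu hv
    by_cases hi : (i : ℕ) < 4 <;> by_cases hj : (j : ℕ) < 4
    · simp only [hi, hj, dif_pos, Set.mem_singleton_iff] at hu hv
      have : (⟨i, hi⟩ : Fin 4) ≠ ⟨j, hj⟩ := by
        intro h; apply hij; ext; simpa using congrArg (fun x : Fin 4 => (x : ℕ)) h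
      exact (hk _ _ this).ne (hu.symm.trans hv)
    · simp only [hi, hj, dif_pos, dif_neg, not_false_iff, Set.mem_singleton_iff] at hu hv
      rw [hu, hmem] at hv
      exact hS _ hv
    · simp only [hi, hj, dif_pos, dif_neg, not_false_iff, Set.mem_singleton_iff] at hu hv
      rw [hv, hmem] at hu
      exact hS _ hu
    · apply hij; ext; omega
  · intro i
    by_cases hi : (i : ℕ) < 4
    · simp [hi]
    · simp only [hi, if_false]
      intro u w h
      exact hΓ (hT4adj u w h).1
  · intro i u w h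
    by_cases hi : (i : ℕ) < 4
    · simp [hi] at h
    · simp only [hi, if_false, dif_neg, not_false_iff] at h ⊢
      exact ⟨(hT4adj u w h).2.1, (hT4adj u w h).2.2, hΓc _ _ (hT4adj u w h).1⟩
  · intro i
    by_cases hi : (i : ℕ) < 4
    · refine tree_congr _ (B := {k ⟨i, hi⟩}) (by simp only [hi, dif_pos]) ?_
      exact SimpleGraph.IsTree.of_subsingleton
    · refine tree_congr _ (B := C.supp) (by simp only [hi, dif_neg, not_false_iff]) ?_
      simp only [hi, if_false]
      have : T4.induce C.supp = T := by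
        rw [hT4]; exact SimpleGraph.comap_map_eq _ _
      rw [this]; exact hTree
  · intro i j hij
    by_cases hi : (i : ℕ) < 4 <;> by_cases hj : (j : ℕ) < 4
    · simp only [hi, hj, dif_pos, Set.mem_singleton_iff, hck, true_and, and_true]
      apply hk
      intro h; apply hij; ext; simpa using congrArg (fun x : Fin 4 => (x : ℕ)) h
    · simp only [hi, hj, dif_pos, dif_neg, not_false_iff, Set.mem_singleton_iff, true_and]
      exact ⟨hs3 _, by rw [hck, hs2]⟩
    · simp only [hi, hj, dif_pos, dif_neg, not_false_iff]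
      exact ⟨(hmem _).2 (hs1 _), (hs3 _).symm, by rw [hck, hs2]⟩
    · exfalso; apply hij; ext; omega
  · intro i hi
    have hi' : (i : ℕ) < 4 := by
      have h5 := i.2
      by_contra hcon
      apply hi
      apply Fin.ext
      have h4 : ((4 : Fin 5) : ℕ) = 4 := rfl
      omega
    exact ⟨k ⟨i, hi'⟩, by simp only [hi', dif_pos]⟩

/-- Five pairwise adjacent vertices are an odd K5. -/
lemma oddK5_of_K5 {V : Type} (G : SimpleGraph V) (k : Fin 4 → V)
    (hk : ∀ i j, i ≠ j → G.Adj (k i) (k j)) (y : V) (hy : ∀ i, G.Adj (k i) y) :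
    HasOddK5 G := by
  refine oddK5_of_piece G k hk (fun _ => true) (fun _ => rfl) ⊥ bot_le (by simp) y ?_ ?_
  · intro i h
    have : y = k i := by simpa using h
    exact (hy i).ne this.symm
  · intro i
    exact ⟨y, SimpleGraph.Reachable.refl _, rfl, hy i⟩

/-! ### Partial colourings and criticality -/

/-- `φ` is a proper 4-colouring of `G` away from the set `R`. -/
def IsCol {V : Type} (G : SimpleGraph V) (R : Set V) (φ : V → Fin 4) : Prop :=
  ∀ u v, u ∉ R → v ∉ R → G.Adj u v → φ u ≠ φ v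

/-- `G`, whose edges all lie inside `W`, is vertex-critical for 4 colours. -/
structure Crit {V : Type} (G : SimpleGraph V) (W : Set V) : Prop where
  inW : ∀ u v, G.Adj u v → u ∈ W
  ncol : ∀ φ : V → Fin 4, ¬ IsCol G ∅ φ
  crit : ∀ x ∈ W, ∃ φ : V → Fin 4, IsCol G {x} φ

/-- The restriction of `G` to the vertex set `W` (other vertices become isolated). -/
def restr {V : Type} (G : SimpleGraph V) (W : Set V) : SimpleGraph V where
  Adj u v := G.Adj u v ∧ u ∈ W ∧ v ∈ W
  symm := ⟨fun _ _ h => ⟨h.1.symm, h.2.2, h.2.1⟩⟩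
  loopless := ⟨fun _ h => h.1.ne rfl⟩

lemma restr_le {V : Type} (G : SimpleGraph V) (W : Set V) : restr G W ≤ G := fun _ _ h => h.1

lemma ClawFree.restr {V : Type} {G : SimpleGraph V} (h : ClawFree G) (W : Set V) :
    ClawFree (restr G W) := by
  intro x a b c ha hb hc hab hac hbc
  rcases h x a b c ha.1 hb.1 hc.1 hab hac hbc with h' | h' | h'
  · exact Or.inl ⟨h', ha.2.2, hb.2.2⟩
  · exact Or.inr (Or.inl ⟨h', ha.2.2, hc.2.2⟩)
  · exact Or.inr (Or.inr ⟨h', hb.2.2, hc.2.2⟩)

/-- A finite graph that is not 4-colourable has a vertex-critical restriction. -/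
lemma exists_crit {V : Type} [Fintype V] (G : SimpleGraph V) (hG : ¬ G.Colorable 4) :
    ∃ W : Set V, Crit (restr G W) W := by
  classical
  have h0 : ∀ φ : V → Fin 4, ¬ IsCol (restr G (Set.univ)) ∅ φ := by
    intro φ h
    apply hG
    exact ⟨SimpleGraph.Coloring.mk φ (fun {u v} huv =>
      h u v (by simp) (by simp) ⟨huv, trivial, trivial⟩)⟩
  -- minimal finset
  have hex : ∃ n : ℕ, ∃ W : Finset V, W.card = n ∧
      ∀ φ : V → Fin 4, ¬ IsCol (restr G (W : Set V)) ∅ φ := by
    refine ⟨_, Finset.univ, rfl, ?_⟩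
    simpa using h0
  obtain ⟨W, hWc, hW⟩ := Nat.find_spec hex
  refine ⟨W, ⟨fun u v h => h.2.1, hW, ?_⟩⟩
  intro x hx
  by_contra hcon
  push Not at hcon
  have hlt : (W.erase x).card < Nat.find hex := by
    rw [← hWc]; exact Finset.card_erase_lt_of_mem (by simpa using hx)
  apply Nat.find_min hex hlt
  refine ⟨W.erase x, rfl, ?_⟩
  intro φ hφ
  apply hcon φ
  intro u v hu hv huv
  refine hφ u v (by simp) (by simp) ⟨huv.1, ?_, ?_⟩
  · simp only [Finset.coe_erase, Set.mem_sdiff]; exact ⟨huv.2.1, hu⟩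
  · simp only [Finset.coe_erase, Set.mem_sdiff]; exact ⟨huv.2.2, hv⟩

variable {V : Type} {G : SimpleGraph V} {W : Set V}

lemma Crit.inW' (h : Crit G W) {u v : V} (huv : G.Adj u v) : v ∈ W := h.inW _ _ huv.symm

/-- In a critical graph every colour appears around the uncoloured vertex. -/
lemma Crit.sees (h : Crit G W) {x : V} {φ : V → Fin 4} (hφ : IsCol G {x} φ) (j : Fin 4) :
    ∃ y, G.Adj x y ∧ φ y = j := by
  classical
  by_contra hcon
  push Not at hcon
  apply h.ncol (fun u => if u = x then j else φ u)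
  intro u v _ _ huv
  by_cases hu : u = x <;> by_cases hv : v = x
  · subst hu; subst hv; exact absurd huv (G.irrefl)
  · subst hu; simp only [if_true, hv, if_false]; exact fun h' => hcon v huv h'.symm
  · subst hv; simp only [if_true, hu, if_false]; exact fun h' => hcon u huv.symm h'
  · simp only [hu, hv, if_false]
    exact hφ u v (by simpa using hu) (by simpa using hv) huv

/-- Colourings off a nonempty part of `W`. -/
lemma Crit.exists_col (h : Crit G W) (R : Set V) {x : V} (hx : x ∈ W) (hxR : x ∈ R) :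
    ∃ φ : V → Fin 4, IsCol G R φ := by
  obtain ⟨φ, hφ⟩ := h.crit x hx
  refine ⟨φ, fun u v hu hv huv => hφ u v ?_ ?_ huv⟩
  · intro h'; apply hu; rw [Set.mem_singleton_iff] at h'; rw [h']; exact hxR
  · intro h'; apply hv; rw [Set.mem_singleton_iff] at h'; rw [h']; exact hxR

/-- Kempe swap of two colours on a closed set. -/
lemma IsCol.swap {R : Set V} {φ : V → Fin 4} (hφ : IsCol G R φ) (i j : Fin 4) (D : Set V)
    [DecidablePred (· ∈ D)]
    (hD : ∀ u v, u ∈ D → v ∉ D → u ∉ R → v ∉ R → G.Adj u v →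
      (φ u = i ∨ φ u = j) → (φ v ≠ i ∧ φ v ≠ j)) :
    IsCol G R (fun u => if u ∈ D then Equiv.swap i j (φ u) else φ u) := by
  have key : ∀ u v, u ∈ D → v ∉ D → u ∉ R → v ∉ R → G.Adj u v →
      Equiv.swap i j (φ u) ≠ φ v := by
    intro u v hu hv huR hvR huv heq
    by_cases h1 : φ u = i
    · rw [h1, Equiv.swap_apply_left] at heq
      exact (hD u v hu hv huR hvR huv (Or.inl h1)).2 heq.symm
    · by_cases h2 : φ u = j
      · rw [h2, Equiv.swap_apply_right] at heq
        exact (hD u v hu hv huR hvR huv (Or.inr h2)).1 heq.symm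
      · rw [Equiv.swap_apply_of_ne_of_ne h1 h2] at heq
        exact hφ u v huR hvR huv heq
  intro u v huR hvR huv
  by_cases hu : u ∈ D <;> by_cases hv : v ∈ D
  · simp only [hu, hv, if_true]
    intro h; exact hφ u v huR hvR huv ((Equiv.swap i j).injective h)
  · simp only [hu, hv, if_true, if_false]
    exact key u v hu hv huR hvR huv
  · simp only [hu, hv, if_true, if_false]
    exact (key v u hv hu hvR huR huv.symm).symm
  · simp only [hu, hv, if_false]
    exact hφ u v huR hvR huv

end Pool.Agent.MP_ccda7a_co
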