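import Pool.Agent.Lib.MP_ccda7a_co.Base

set_option autoImplicit false

namespace Pool.Agent.MP_ccda7a_co

/-- Search used in `fin_five`. -/
def okB (a b c d e : Fin 4) : Bool :=
  (List.finRange 4).any fun x => (List.finRange 4).any fun w0 =>
    (w0 != a && w0 != e && w0 != x) && (List.finRange 4).any fun w1 =>
    (w1 != b && w1 != a && w1 != x && w1 != w0) && (List.finRange 4).any fun w2 =>
    (w2 != c && w2 != b && w2 != x && w2 != w1) && (List.finRange 4).any fun w3 =>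
    (w3 != d && w3 != c && w3 != x && w3 != w2) && (List.finRange 4).any fun w4 =>
    (w4 != e && w4 != d && w4 != x && w4 != w3 && w4 != w0)

lemma okB_all : ∀ a b c d e : Fin 4, okB a b c d e = true := by
  decide +kernel

/-- Every cyclic pattern of five outer colours around a five-wheel can be completed. -/
lemma fin_five (o : Fin 5 → Fin 4) : ∃ (w : Fin 5 → Fin 4) (x : Fin 4),
    ∀ i, w i ≠ o i ∧ w i ≠ o (i + 4) ∧ w i ≠ w (i + 1) ∧ w i ≠ x := by
  have h := okB_all (o 0) (o 1) (o 2) (o 3) (o 4)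
  simp only [okB, List.any_eq_true, List.mem_finRange, true_and, Bool.and_eq_true, bne_iff_ne] at h
  obtain ⟨x, w0, ⟨⟨h1, h2⟩, h3⟩, w1, ⟨⟨⟨h4, h5⟩, h6⟩, h7⟩, w2, ⟨⟨⟨h8, h9⟩, h10⟩, h11⟩,
    w3, ⟨⟨⟨h12, h13⟩, h14⟩, h15⟩, w4, ⟨⟨⟨h16, h17⟩, h18⟩, h19⟩, h20⟩ := h
  refine ⟨![w0, w1, w2, w3, w4], x, ?_⟩
  intro i
  fin_cases i
  · exact ⟨h1, h2, h7.symm, h3⟩
  · exact ⟨h4, h5, h11.symm, h6⟩
  · exact ⟨h8, h9, h15.symm, h10⟩
  · exact ⟨h12, h13, h19.symm, h14⟩
  · exact ⟨h16, h17, h20, h18⟩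

variable {V : Type} {G : SimpleGraph V} {W : Set V}

/-- `G` has no K4. -/
def NoK4 (G : SimpleGraph V) : Prop :=
  ∀ a b c d, G.Adj a b → G.Adj a c → G.Adj a d → G.Adj b c → G.Adj b d → G.Adj c d → False

/-- In a K4-free claw-free graph five neighbours of a vertex form an induced five-cycle and
there is no sixth neighbour. -/
lemma nbr_struct [Fintype V] (hcf : ClawFree G) (hn4 : NoK4 G) (v : V)
    (N : Finset V) (hN : ∀ y, y ∈ N ↔ G.Adj v y) (h5 : 5 ≤ N.card) :
    ∃ u : Fin 5 → V, Function.Injective u ∧ (∀ y, G.Adj v y ↔ ∃ i, u i = y) ∧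
      (∀ i, G.Adj (u i) (u (i + 1))) ∧ (∀ i, ¬ G.Adj (u i) (u (i + 2))) := by
  classical
  have hne : N.Nonempty := by
    rw [← Finset.card_pos]; omega
  obtain ⟨u0, hu0⟩ := hne
  have hvu0 : G.Adj v u0 := (hN _).1 hu0
  set A := N.filter (fun y => G.Adj u0 y) with hA
  set B := N.filter (fun y => ¬ G.Adj u0 y ∧ y ≠ u0) with hB
  have hAm : ∀ y, y ∈ A ↔ G.Adj v y ∧ G.Adj u0 y := by
    intro y; rw [hA, Finset.mem_filter, hN]
  have hBm : ∀ y, y ∈ B ↔ G.Adj v y ∧ ¬ G.Adj u0 y ∧ y ≠ u0 := by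
    intro y; rw [hB, Finset.mem_filter, hN]
  have hAc : A.card ≤ 2 := by
    by_contra hcon
    push Not at hcon
    obtain ⟨a, ha, b, hb, c, hc, hab, hac, hbc⟩ := Finset.two_lt_card.1 hcon
    rw [hAm] at ha hb hc
    rcases hcf v a b c ha.1 hb.1 hc.1 hab hac hbc with h | h | h
    · exact hn4 v u0 a b hvu0 ha.1 hb.1 ha.2 hb.2 h
    · exact hn4 v u0 a c hvu0 ha.1 hc.1 ha.2 hc.2 h
    · exact hn4 v u0 b c hvu0 hb.1 hc.1 hb.2 hc.2 h
  have hBadj : ∀ a b, a ∈ B → b ∈ B → a ≠ b → G.Adj a b := by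
    intro a b ha hb hab
    rw [hBm] at ha hb
    rcases hcf v u0 a b hvu0 ha.1 hb.1 ha.2.2.symm hb.2.2.symm hab with h | h | h
    · exact absurd h ha.2.1
    · exact absurd h hb.2.1
    · exact h
  have hBc : B.card ≤ 2 := by
    by_contra hcon
    push Not at hcon
    obtain ⟨a, ha, b, hb, c, hc, hab, hac, hbc⟩ := Finset.two_lt_card.1 hcon
    exact hn4 v a b c ((hBm _).1 ha).1 ((hBm _).1 hb).1 ((hBm _).1 hc).1
      (hBadj a b ha hb hab) (hBadj a c ha hc hac) (hBadj b c hb hc hbc)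
  have hcov : N ⊆ insert u0 (A ∪ B) := by
    intro y hy
    rw [Finset.mem_insert, Finset.mem_union, hAm, hBm]
    have := (hN y).1 hy
    by_cases h1 : y = u0
    · exact Or.inl h1
    · by_cases h2 : G.Adj u0 y
      · exact Or.inr (Or.inl ⟨this, h2⟩)
      · exact Or.inr (Or.inr ⟨this, h2, h1⟩)
  have h6 := Finset.card_le_card hcov
  have h7 := Finset.card_insert_le u0 (A ∪ B)
  have h8 := Finset.card_union_le A B
  have hA2 : A.card = 2 := by omega
  have hB2 : B.card = 2 := by omega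
  obtain ⟨p, q, hpq, hAe⟩ := Finset.card_eq_two.1 hA2
  obtain ⟨r, s, hrs, hBe⟩ := Finset.card_eq_two.1 hB2
  have hp := (hAm p).1 (by rw [hAe]; simp)
  have hq := (hAm q).1 (by rw [hAe]; simp)
  have hr := (hBm r).1 (by rw [hBe]; simp)
  have hs := (hBm s).1 (by rw [hBe]; simp)
  have hrs' : G.Adj r s := hBadj r s (by rw [hBe]; simp) (by rw [hBe]; simp) hrs
  have hpq' : ¬ G.Adj p q := fun h => hn4 v u0 p q hvu0 hp.1 hq.1 hp.2 hq.2 h
  have hall : ∀ y, G.Adj v y → y = u0 ∨ y = p ∨ y = q ∨ y = r ∨ y = s := by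
    intro y hy
    have := hcov ((hN y).2 hy)
    rw [hAe, hBe] at this
    simp only [Finset.mem_insert, Finset.mem_union, Finset.mem_singleton] at this
    tauto
  have main : ∀ p q, G.Adj v p ∧ G.Adj u0 p → G.Adj v q ∧ G.Adj u0 q → ¬ G.Adj p q → p ≠ q →
      (∀ y, G.Adj v y → y = u0 ∨ y = p ∨ y = q ∨ y = r ∨ y = s) → G.Adj p r →
      ∃ u : Fin 5 → V, Function.Injective u ∧ (∀ y, G.Adj v y ↔ ∃ i, u i = y) ∧
      (∀ i, G.Adj (u i) (u (i + 1))) ∧ (∀ i, ¬ G.Adj (u i) (u (i + 2))) := by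
    intro p q hp hq hpq' hpq hall hpr
    have hps : ¬ G.Adj p s := fun h => hn4 v p r s hp.1 hr.1 hs.1 hpr h hrs'
    have hpr0 : p ≠ r := by rintro rfl; exact hr.2.1 hp.2
    have hps0 : p ≠ s := by rintro rfl; exact hs.2.1 hp.2
    have hqr0 : q ≠ r := by rintro rfl; exact hr.2.1 hq.2
    have hqs0 : q ≠ s := by rintro rfl; exact hs.2.1 hq.2
    have hqs : G.Adj q s := by
      rcases hcf v p q s hp.1 hq.1 hs.1 hpq hps0 hqs0 with h | h | h
      · exact absurd h hpq'
      · exact absurd h hps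
      · exact h
    have hqr : ¬ G.Adj q r := fun h => hn4 v q r s hq.1 hr.1 hs.1 h hqs hrs'
    refine ⟨![u0, p, r, s, q], ?_, ?_, ?_, ?_⟩
    · have hu0p := hp.2.ne
      have hu0q := hq.2.ne
      have hr0 := hr.2.2
      have hs0 := hs.2.2
      have hnd : [u0, p, r, s, q].Nodup := by
        simp only [List.nodup_cons, List.mem_cons, List.not_mem_nil, or_false, not_or,
          not_false_iff, List.nodup_nil, and_true]
        exact ⟨⟨hu0p, hr0.symm, hs0.symm, hu0q⟩, ⟨hpr0, hps0, hpq⟩, ⟨hrs, hqr0.symm⟩, hqs0.symm⟩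
      exact List.nodup_ofFn.1 (by simpa [List.ofFn_succ] using hnd)
    · intro y
      constructor
      · intro hy
        rcases hall y hy with rfl | rfl | rfl | rfl | rfl
        · exact ⟨0, rfl⟩
        · exact ⟨1, rfl⟩
        · exact ⟨4, rfl⟩
        · exact ⟨2, rfl⟩
        · exact ⟨3, rfl⟩
      · rintro ⟨i, rfl⟩
        fin_cases i
        · exact hvu0
        · exact hp.1
        · exact hr.1
        · exact hs.1
        · exact hq.1
    · intro i
      fin_cases i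
      · exact hp.2
      · exact hpr
      · exact hrs'
      · exact hqs.symm
      · exact hq.2.symm
    · intro i
      fin_cases i
      · exact hr.2.1
      · exact hps
      · exact fun h => hqr h.symm
      · exact fun h => hs.2.1 h.symm
      · exact fun h => hpq' h.symm
  have hpr0 : p ≠ r := by rintro rfl; exact hr.2.1 hp.2
  have hqr0 : q ≠ r := by rintro rfl; exact hr.2.1 hq.2
  rcases hcf v p q r hp.1 hq.1 hr.1 hpq hpr0 hqr0 with h | h | h
  · exact absurd h hpq'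
  · exact main p q hp hq hpq' hpq hall h
  · refine main q p hq hp (fun h => hpq' h.symm) hpq.symm ?_ h
    intro y hy
    rcases hall y hy with h | h | h | h | h <;> simp [h]

/-- The closed neighbourhood of a vertex whose neighbourhood is a five-cycle is reducible. -/
lemma five_red (hc : Crit G W) (hcf : ClawFree G) (hn4 : NoK4 G) (v : V)
    (hv : v ∈ W) (u : Fin 5 → V) (hinj : Function.Injective u)
    (hN : ∀ y, G.Adj v y ↔ ∃ i, u i = y) (hadj : ∀ i, G.Adj (u i) (u (i + 1)))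
    (hnadj : ∀ i, ¬ G.Adj (u i) (u (i + 2))) : False := by
  classical
  have hvu : ∀ i, G.Adj v (u i) := fun i => (hN _).2 ⟨i, rfl⟩
  set R : Set V := {v} ∪ Set.range u with hR
  have hvR : v ∈ R := Or.inl rfl
  have huR : ∀ i, u i ∈ R := fun i => Or.inr ⟨i, rfl⟩
  have hRcases : ∀ y, y ∈ R → y = v ∨ ∃ i, u i = y := fun y hy => hy
  obtain ⟨φ, hφ⟩ := hc.exists_col R hv hvR
  let P : Fin 5 → V → Prop := fun i z => G.Adj (u i) z ∧ G.Adj (u (i + 1)) z ∧ z ∉ R
  have hvz : ∀ z, z ∉ R → ¬ G.Adj v z := by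
    intro z hz h
    obtain ⟨i, hi⟩ := (hN z).1 h
    exact hz (hi ▸ huR i)
  have huniq : ∀ i z z', P i z → P i z' → z = z' := by
    intro i z z' h h'
    by_contra hne
    have hvz0 : v ≠ z := by rintro rfl; exact h.2.2 hvR
    have hvz0' : v ≠ z' := by rintro rfl; exact h'.2.2 hvR
    rcases hcf (u i) v z z' (hvu i).symm h.1 h'.1 hvz0 hvz0' hne with h'' | h'' | h''
    · exact hvz z h.2.2 h''
    · exact hvz z' h'.2.2 h''
    · exact hn4 (u i) (u (i + 1)) z z' (hadj i) h.1 h'.1 h.2.1 h'.2.1 h''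
  let o : Fin 5 → Fin 4 := fun i => if h : ∃ z, P i z then φ h.choose else 0
  have ho : ∀ i z, P i z → φ z = o i := by
    intro i z h
    have hex : ∃ z, P i z := ⟨z, h⟩
    have : o i = φ hex.choose := by simp only [o, hex, dif_pos]
    rw [this]
    exact congrArg φ (huniq i z _ h hex.choose_spec)
  have e1 : ∀ i : Fin 5, i + 4 + 2 = i + 1 := by decide
  have e2 : ∀ i : Fin 5, i + 4 + 1 = i := by decide
  have e3 : ∀ i : Fin 5, i + 1 ≠ i + 4 := by decide
  have hout : ∀ i z, G.Adj (u i) z → z ∉ R → φ z = o i ∨ φ z = o (i + 4) := by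
    intro i z hz hzR
    have h1 : G.Adj (u i) (u (i + 4)) := by
      have := hadj (i + 4); rw [e2] at this; exact this.symm
    have hn : ¬ G.Adj (u (i + 1)) (u (i + 4)) := by
      intro h
      apply hnadj (i + 4)
      rw [e1]; exact h.symm
    have hz1 : u (i + 1) ≠ z := by rintro rfl; exact hzR (huR _)
    have hz2 : u (i + 4) ≠ z := by rintro rfl; exact hzR (huR _)
    rcases hcf (u i) (u (i + 1)) (u (i + 4)) z (hadj i) h1 hz (fun h => e3 i (hinj h)) hz1 hz2 with
      h | h | h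
    · exact absurd h hn
    · exact Or.inl (ho i z ⟨hz, h, hzR⟩)
    · right
      refine ho (i + 4) z ⟨h, ?_, hzR⟩
      rw [e2]; exact hz
  obtain ⟨w, x, hw⟩ := fin_five o
  let ψ : V → Fin 4 := fun y => if y = v then x else
    if h : ∃ i, u i = y then w h.choose else φ y
  have hψv : ψ v = x := by simp [ψ]
  have hψu : ∀ i, ψ (u i) = w i := by
    intro i
    have h1 : u i ≠ v := (hvu i).ne.symm
    have hex : ∃ j, u j = u i := ⟨i, rfl⟩
    have h2 : hex.choose = i := hinj hex.choose_spec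
    simp only [ψ, h1, if_false, hex, dif_pos]
    rw [h2]
  have hψo : ∀ y, y ∉ R → ψ y = φ y := by
    intro y hy
    have h1 : y ≠ v := by rintro rfl; exact hy hvR
    have h2 : ¬ ∃ i, u i = y := by rintro ⟨i, rfl⟩; exact hy (huR i)
    simp only [ψ, h1, if_false, h2, dif_neg, not_false_iff]
  apply hc.ncol ψ
  -- adjacent rim vertices
  have hrim : ∀ i j, G.Adj (u i) (u j) → w i ≠ w j := by
    intro i j hij
    have hcases : ∀ i j : Fin 5, j = i ∨ j = i + 1 ∨ j = i + 2 ∨ i = j + 1 ∨ i = j + 2 := by decide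
    rcases hcases i j with h | h | h | h | h
    · subst h; exact absurd hij G.irrefl
    · subst h; exact (hw i).2.2.1
    · subst h; exact absurd hij (hnadj i)
    · subst h; exact ((hw j).2.2.1).symm
    · subst h; exact absurd hij.symm (hnadj j)
  have hone : ∀ a b, a ∈ R → G.Adj a b → ψ a ≠ ψ b := by
    intro a b ha hab
    rcases hRcases a ha with rfl | ⟨i, rfl⟩
    · obtain ⟨j, rfl⟩ := (hN b).1 hab
      rw [hψv, hψu]; exact ((hw j).2.2.2).symm
    · by_cases hb : b ∈ R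
      · rcases hRcases b hb with rfl | ⟨j, rfl⟩
        · rw [hψv, hψu]; exact (hw i).2.2.2
        · rw [hψu, hψu]; exact hrim i j hab
      · rw [hψu, hψo b hb]
        rcases hout i b hab hb with h | h
        · rw [h]; exact (hw i).1
        · rw [h]; exact (hw i).2.1
  intro a b _ _ hab
  by_cases ha : a ∈ R
  · exact hone a b ha hab
  · by_cases hb : b ∈ R
    · exact (hone b a hb hab.symm).symm
    · rw [hψo a ha, hψo b hb]
      exact hφ a b ha hb hab

end Pool.Agent.MP_ccda7a_co
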