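import Pool.Agent.Lib.MP_ccda7a_co.Kempe
import Pool.Agent.Lib.MP_ccda7a_co.Five

set_option autoImplicit false

namespace Pool.Agent.MP_ccda7a_co

variable {V : Type} {G : SimpleGraph V} {W : Set V}

/-- Three vertices of degree at most one cannot lie in one component of a graph of maximum
degree at most two. -/
lemma three_ends [Fintype V] (Γ : SimpleGraph V)
    (hmax : ∀ u a b c, Γ.Adj u a → Γ.Adj u b → Γ.Adj u c → a = b ∨ a = c ∨ b = c)
    (x y z : V) (hxy : x ≠ y) (hxz : x ≠ z) (hyz : y ≠ z)
    (h1 : ∀ u, u = x ∨ u = y ∨ u = z → ∀ a b, Γ.Adj u a → Γ.Adj u b → a = b)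
    (hr1 : Γ.Reachable x y) (hr2 : Γ.Reachable x z) : False := by
  classical
  set C := Γ.connectedComponentMk x with hC
  have hx : x ∈ C := rfl
  have hy : y ∈ C := by
    rw [hC]; exact (SimpleGraph.ConnectedComponent.eq.2 hr1.symm)
  have hz : z ∈ C := by
    rw [hC]; exact (SimpleGraph.ConnectedComponent.eq.2 hr2.symm)
  set H := C.toSimpleGraph with hH
  have hconn : H.Connected := C.connected_toSimpleGraph
  have hadj : ∀ u v : C, H.Adj u v → Γ.Adj u v := by
    intro u v h
    simpa [hH, SimpleGraph.ConnectedComponent.toSimpleGraph] using h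
  have hdeg2 : ∀ u : C, H.degree u ≤ 2 := by
    intro u
    by_contra hcon
    push Not at hcon
    rw [← SimpleGraph.card_neighborFinset_eq_degree] at hcon
    obtain ⟨a, ha, b, hb, c, hc, hab, hac, hbc⟩ := Finset.two_lt_card.1 hcon
    rw [SimpleGraph.mem_neighborFinset] at ha hb hc
    rcases hmax u a b c (hadj _ _ ha) (hadj _ _ hb) (hadj _ _ hc) with h | h | h
    · exact hab (Subtype.ext h)
    · exact hac (Subtype.ext h)
    · exact hbc (Subtype.ext h)
  have hdeg1 : ∀ u : C, ((u : V) = x ∨ (u : V) = y ∨ (u : V) = z) → H.degree u ≤ 1 := by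
    intro u hu
    rw [← SimpleGraph.card_neighborFinset_eq_degree, Finset.card_le_one]
    intro a ha b hb
    rw [SimpleGraph.mem_neighborFinset] at ha hb
    exact Subtype.ext (h1 u hu a b (hadj _ _ ha) (hadj _ _ hb))
  have hsum := H.sum_degrees_eq_twice_card_edges
  have hcard := hconn.card_vert_le_card_edgeSet_add_one
  set S : Finset C := {⟨x, hx⟩, ⟨y, hy⟩, ⟨z, hz⟩} with hS
  have hSc : S.card = 3 := by
    rw [hS, Finset.card_eq_three]
    refine ⟨_, _, _, ?_, ?_, ?_, rfl⟩
    · intro h; exact hxy (congrArg Subtype.val h)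
    · intro h; exact hxz (congrArg Subtype.val h)
    · intro h; exact hyz (congrArg Subtype.val h)
  have hle : ∑ u : C, (H.degree u + if u ∈ S then 1 else 0) ≤ ∑ _u : C, 2 := by
    apply Finset.sum_le_sum
    intro u _
    by_cases hu : u ∈ S
    · have : H.degree u ≤ 1 := by
        apply hdeg1
        rw [hS] at hu
        simp only [Finset.mem_insert, Finset.mem_singleton] at hu
        rcases hu with rfl | rfl | rfl
        · exact Or.inl rfl
        · exact Or.inr (Or.inl rfl)
        · exact Or.inr (Or.inr rfl)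
      simp only [hu, if_true]; omega
    · simp only [hu, if_false]
      have := hdeg2 u
      omega
  rw [Finset.sum_add_distrib, hsum, Finset.sum_const, Finset.card_univ, smul_eq_mul,
    Finset.sum_ite_mem, Finset.univ_inter, Finset.sum_const, hSc] at hle
  rw [Nat.card_eq_fintype_card, Nat.card_eq_fintype_card, ← SimpleGraph.edgeFinset_card] at hcard
  simp only [smul_eq_mul, mul_one] at hle
  omega

/-- All vertices have at most four neighbours. -/
def Deg4 (G : SimpleGraph V) : Prop :=
  ∀ (x : V) (N : Finset V), (∀ y ∈ N, G.Adj x y) → N.card ≤ 4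

/-- Each colour occurs exactly once around the uncoloured vertex. -/
lemma nbr_unique (hc : Crit G W) (hd : Deg4 G) {x : V} {φ : V → Fin 4}
    (hφ : IsCol G {x} φ) {y y' : V} (hy : G.Adj x y) (hy' : G.Adj x y') (he : φ y = φ y') :
    y = y' := by
  classical
  choose s hs1 hs2 using fun j => hc.sees hφ j
  have hinj : Function.Injective s := by
    intro i j hij
    rw [← hs2 i, ← hs2 j, hij]
  have hall : ∀ z, G.Adj x z → z = s (φ z) := by
    intro z hz
    by_contra hcon
    have hz' : z ∉ Finset.univ.image s := by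
      intro h
      rw [Finset.mem_image] at h
      obtain ⟨j, _, hj⟩ := h
      apply hcon
      rw [← hj, hs2]
    have h5 := hd x (insert z (Finset.univ.image s)) (by
      intro y hy
      rw [Finset.mem_insert, Finset.mem_image] at hy
      rcases hy with rfl | ⟨j, _, rfl⟩
      · exact hz
      · exact hs1 j)
    rw [Finset.card_insert_of_notMem hz', Finset.card_image_of_injective _ hinj] at h5
    simp at h5
  rw [hall y hy, hall y' hy', he]

/-- A neighbour of the uncoloured vertex sees all other colours. -/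
lemma nbr_sees (hc : Crit G W) (hd : Deg4 G) {x : V} {φ : V → Fin 4}
    (hφ : IsCol G {x} φ) {a : V} (ha : G.Adj x a) (j : Fin 4) (hj : j ≠ φ a) :
    ∃ z, z ≠ x ∧ G.Adj a z ∧ φ z = j := by
  classical
  by_contra hcon
  push Not at hcon
  have hψ : IsCol G {x} (fun u => if u = a then j else φ u) := by
    intro u v hu hv huv
    simp only [Set.mem_singleton_iff] at hu hv
    by_cases hua : u = a <;> by_cases hva : v = a
    · subst hua; subst hva; exact absurd huv G.irrefl
    · subst hua
      simp only [if_true, hva, if_false]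
      exact (hcon v hv huv).symm
    · subst hva
      simp only [if_true, hua, if_false]
      exact hcon u hu huv.symm
    · simp only [hua, hva, if_false]
      exact hφ u v (by simpa using hu) (by simpa using hv) huv
  obtain ⟨y, hy1, hy2⟩ := hc.sees hψ (φ a)
  by_cases hya : y = a
  · subst hya
    simp only [if_true] at hy2
    exact hj hy2
  · simp only [hya, if_false] at hy2
    exact hya (nbr_unique hc hd hφ hy1 ha hy2)

/-- ... and each of them exactly once. -/
lemma nbr_sees_unique (hc : Crit G W) (hd : Deg4 G) {x : V} {φ : V → Fin 4}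
    (hφ : IsCol G {x} φ) {a : V} (ha : G.Adj x a) {z z' : V} (hz : G.Adj a z)
    (hz' : G.Adj a z') (hzx : z ≠ x) (hzx' : z' ≠ x) (he : φ z = φ z') : z = z' := by
  classical
  have hax : a ≠ x := ha.ne.symm
  choose t ht1 ht2 ht3 using fun (j : {j : Fin 4 // j ≠ φ a}) => nbr_sees hc hd hφ ha j.1 j.2
  have hinj : Function.Injective t := by
    intro i j hij
    apply Subtype.ext
    rw [← ht3 i, ← ht3 j, hij]
  have hxt : x ∉ Finset.univ.image t := by
    intro h
    rw [Finset.mem_image] at h
    obtain ⟨j, _, hj⟩ := h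
    exact ht1 j hj
  have hall : ∀ z, G.Adj a z → (hzx : z ≠ x) → ∃ h : φ z ≠ φ a, z = t ⟨φ z, h⟩ := by
    intro z hz hzx
    have hne : φ z ≠ φ a := (hφ a z (by simpa using hax) (by simpa using hzx) hz).symm
    refine ⟨hne, ?_⟩
    by_contra hcon
    have hz' : z ∉ insert x (Finset.univ.image t) := by
      intro h
      rw [Finset.mem_insert, Finset.mem_image] at h
      rcases h with h | ⟨j, _, hj⟩
      · exact hzx h
      · apply hcon
        have hjj : j = ⟨φ z, hne⟩ := Subtype.ext (by rw [← ht3 j, hj])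
        exact hj.symm.trans (congrArg t hjj)
    have h5 := hd a (insert z (insert x (Finset.univ.image t))) (by
      intro y hy
      rw [Finset.mem_insert, Finset.mem_insert, Finset.mem_image] at hy
      rcases hy with rfl | rfl | ⟨j, _, rfl⟩
      · exact hz
      · exact ha.symm
      · exact ht2 j)
    rw [Finset.card_insert_of_notMem hz', Finset.card_insert_of_notMem hxt,
      Finset.card_image_of_injective _ hinj] at h5
    have : (Finset.univ : Finset {j : Fin 4 // j ≠ φ a}).card = 3 := by
      rw [Finset.card_univ, Fintype.card_subtype_compl]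
      simp
    omega
  obtain ⟨h, hzt⟩ := hall z hz hzx
  obtain ⟨h', hzt'⟩ := hall z' hz' hzx'
  rw [hzt, hzt']
  congr 1
  exact Subtype.ext he

/-- No diamond: an edge has at most one common neighbour. -/
lemma no_diamond (hc : Crit G W) (hn4 : NoK4 G) (hd : Deg4 G) (x b a c : V)
    (hxb : G.Adj x b) (hxa : G.Adj x a) (hxc : G.Adj x c) (hba : G.Adj b a) (hbc : G.Adj b c)
    (hac : a ≠ c) : False := by
  classical
  have hnac : ¬ G.Adj a c := fun h => hn4 x b a c hxb hxa hxc hba hbc h
  obtain ⟨φ, hφ⟩ := hc.crit x (hc.inW _ _ hxb)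
  have hxa' : a ≠ x := hxa.ne.symm
  have hxb' : b ≠ x := hxb.ne.symm
  have hxc' : c ≠ x := hxc.ne.symm
  have hab' : a ≠ b := hba.ne.symm
  have hcb' : c ≠ b := hbc.ne.symm
  have n1 : φ b ≠ φ a := fun h => hab' (nbr_unique hc hd hφ hxb hxa h).symm
  have n2 : φ b ≠ φ c := fun h => hcb' (nbr_unique hc hd hφ hxb hxc h).symm
  have n3 : φ a ≠ φ c := fun h => hac (nbr_unique hc hd hφ hxa hxc h)
  let ψ : V → Fin 4 := fun y => if y = a ∨ y = c then φ b else if y = b then φ c else
    if y = x then φ a else φ y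
  have pa : ψ a = φ b := by simp [ψ]
  have pc : ψ c = φ b := by simp [ψ]
  have pb : ψ b = φ c := by simp [ψ, hab'.symm, hcb'.symm]
  have px : ψ x = φ a := by simp [ψ, hxa'.symm, hxb'.symm, hxc'.symm]
  have po : ∀ y, y ≠ a → y ≠ b → y ≠ c → y ≠ x → ψ y = φ y := by
    intro y h1 h2 h3 h4; simp [ψ, h1, h2, h3, h4]
  have hA : ∀ v, G.Adj a v → ψ a ≠ ψ v := by
    intro v hv
    have h1 : v ≠ a := hv.ne.symm
    have h2 : v ≠ c := by rintro rfl; exact hnac hv
    rw [pa]
    by_cases h3 : v = b
    · subst h3; rw [pb]; exact n2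
    by_cases h4 : v = x
    · subst h4; rw [px]; exact n1
    rw [po v h1 h3 h2 h4]
    intro h
    exact h3 (nbr_sees_unique hc hd hφ hxa hba.symm hv hxb' h4 h).symm
  have hCc : ∀ v, G.Adj c v → ψ c ≠ ψ v := by
    intro v hv
    have h1 : v ≠ c := hv.ne.symm
    have h2 : v ≠ a := by rintro rfl; exact hnac hv.symm
    rw [pc]
    by_cases h3 : v = b
    · subst h3; rw [pb]; exact n2
    by_cases h4 : v = x
    · subst h4; rw [px]; exact n1
    rw [po v h2 h3 h1 h4]
    intro h
    exact h3 (nbr_sees_unique hc hd hφ hxc hbc.symm hv hxb' h4 h).symm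
  have hB : ∀ v, G.Adj b v → ψ b ≠ ψ v := by
    intro v hv
    have h1 : v ≠ b := hv.ne.symm
    rw [pb]
    by_cases h2 : v = a
    · subst h2; rw [pa]; exact n2.symm
    by_cases h3 : v = c
    · subst h3; rw [pc]; exact n2.symm
    by_cases h4 : v = x
    · subst h4; rw [px]; exact n3.symm
    rw [po v h2 h1 h3 h4]
    intro h
    exact h3 (nbr_sees_unique hc hd hφ hxb hbc hv hxc' h4 h).symm
  have hX : ∀ v, G.Adj x v → ψ x ≠ ψ v := by
    intro v hv
    have h1 : v ≠ x := hv.ne.symm
    rw [px]
    by_cases h2 : v = a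
    · subst h2; rw [pa]; exact n1.symm
    by_cases h3 : v = c
    · subst h3; rw [pc]; exact n1.symm
    by_cases h4 : v = b
    · subst h4; rw [pb]; exact n3
    rw [po v h2 h4 h3 h1]
    intro h
    exact h2 (nbr_unique hc hd hφ hxa hv h).symm
  apply hc.ncol ψ
  intro u v _ _ huv
  by_cases hua : u = a
  · subst hua; exact hA v huv
  by_cases hub : u = b
  · subst hub; exact hB v huv
  by_cases huc : u = c
  · subst huc; exact hCc v huv
  by_cases hux : u = x
  · subst hux; exact hX v huv
  by_cases hva : v = a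
  · subst hva; exact (hA u huv.symm).symm
  by_cases hvb : v = b
  · subst hvb; exact (hB u huv.symm).symm
  by_cases hvc : v = c
  · subst hvc; exact (hCc u huv.symm).symm
  by_cases hvx : v = x
  · subst hvx; exact (hX u huv.symm).symm
  rw [po u hua hub huc hux, po v hva hvb hvc hvx]
  exact hφ u v (by simpa using hux) (by simpa using hvx) huv

/-- the subgraph of two colours, avoiding `x` -/
def Two (G : SimpleGraph V) (x : V) (φ : V → Fin 4) (i j : Fin 4) : SimpleGraph V where
  Adj u v := G.Adj u v ∧ u ≠ x ∧ v ≠ x ∧ ((φ u = i ∧ φ v = j) ∨ (φ u = j ∧ φ v = i))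
  symm := ⟨fun _ _ h => ⟨h.1.symm, h.2.2.1, h.2.1, h.2.2.2.elim (fun h' => Or.inr ⟨h'.2, h'.1⟩)
    (fun h' => Or.inl ⟨h'.2, h'.1⟩)⟩⟩
  loopless := ⟨fun _ h => h.1.ne rfl⟩

open Classical in
lemma two_swap {x : V} {φ : V → Fin 4} (hφ : IsCol G {x} φ) (i j : Fin 4) (r : V) :
    IsCol G {x} (fun u => if u ∈ {u | (Two G x φ i j).Reachable r u} then
      Equiv.swap i j (φ u) else φ u) := by
  apply hφ.swap
  intro u v hu hv huR hvR huv hcol
  have hux : u ≠ x := by simpa using huR
  have hvx : v ≠ x := by simpa using hvR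
  have hne := hφ u v huR hvR huv
  constructor
  · intro hvi
    apply hv
    refine SimpleGraph.Reachable.trans hu (SimpleGraph.Adj.reachable ⟨huv, hux, hvx, ?_⟩)
    rcases hcol with h | h
    · exact absurd (h.trans hvi.symm) hne
    · exact Or.inr ⟨h, hvi⟩
  · intro hvj
    apply hv
    refine SimpleGraph.Reachable.trans hu (SimpleGraph.Adj.reachable ⟨huv, hux, hvx, ?_⟩)
    rcases hcol with h | h
    · exact Or.inl ⟨h, hvj⟩
    · exact absurd (h.trans hvj.symm) hne

/-- The critical claw-free K4-free graph of maximum degree four does not exist. -/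
lemma four_false [Fintype V] (hc : Crit G W) (hcf : ClawFree G) (hn4 : NoK4 G) (hd : Deg4 G) :
    False := by
  classical
  -- a vertex of W
  have hWne : ∃ x, x ∈ W := by
    by_contra hcon
    push Not at hcon
    exact hc.ncol (fun _ => 0) (fun u v _ _ huv => absurd (hc.inW _ _ huv) (hcon u))
  obtain ⟨x, hxW⟩ := hWne
  obtain ⟨φ, hφ⟩ := hc.crit x hxW
  choose s hs1 hs2 using fun j => hc.sees hφ j
  have sne : ∀ i j, i ≠ j → s i ≠ s j := by
    intro i j hij h
    apply hij
    rw [← hs2 i, ← hs2 j, h]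
  -- some neighbour of `s 0` among the others
  have hex : ∃ j, j ≠ 0 ∧ G.Adj (s 0) (s j) := by
    by_contra hcon
    push Not at hcon
    have h01 := hcon 1 (by decide)
    have h02 := hcon 2 (by decide)
    have h03 := hcon 3 (by decide)
    have key : ∀ a b, a ≠ b → ¬ G.Adj (s 0) (s a) → ¬ G.Adj (s 0) (s b) → a ≠ 0 → b ≠ 0 →
        G.Adj (s a) (s b) := by
      intro a b hab h1 h2 ha hb
      rcases hcf x (s 0) (s a) (s b) (hs1 _) (hs1 _) (hs1 _) (sne _ _ ha.symm) (sne _ _ hb.symm)
        (sne _ _ hab) with h | h | h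
      · exact absurd h h1
      · exact absurd h h2
      · exact h
    exact hn4 x (s 1) (s 2) (s 3) (hs1 _) (hs1 _) (hs1 _)
      (key 1 2 (by decide) h01 h02 (by decide) (by decide))
      (key 1 3 (by decide) h01 h03 (by decide) (by decide))
      (key 2 3 (by decide) h02 h03 (by decide) (by decide))
  obtain ⟨j, hj0, hab⟩ := hex
  -- a third neighbour
  have hl : ∀ j : Fin 4, ∃ l : Fin 4, l ≠ 0 ∧ l ≠ j := by decide
  obtain ⟨l, hl0, hlj⟩ := hl j
  set a := s 0 with ha
  set b := s j with hb
  set c := s l with hcdef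
  have hxa : G.Adj x a := hs1 _
  have hxb : G.Adj x b := hs1 _
  have hxc : G.Adj x c := hs1 _
  have hφa : φ a = 0 := hs2 _
  have hφb : φ b = j := hs2 _
  have hφc : φ c = l := hs2 _
  have hbc : b ≠ c := sne _ _ hlj.symm
  have hac : a ≠ c := sne _ _ hl0.symm
  have hnac : ¬ G.Adj a c := by
    intro h
    exact no_diamond hc hn4 hd x a b c hxa hxb hxc hab h hbc
  have hax : a ≠ x := hxa.ne.symm
  have hbx : b ≠ x := hxb.ne.symm
  have hcx : c ≠ x := hxc.ne.symm
  -- the neighbour of `a` with the colour of `c`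
  obtain ⟨p, hpx, hap, hφp⟩ := nbr_sees hc hd hφ hxa l (by rw [hφa]; exact hl0)
  have hpc : p ≠ c := by rintro rfl; exact hnac hap
  have hpb : p ≠ b := by
    rintro rfl; exact hlj (hφp.symm.trans hφb)
  have hnbp : ¬ G.Adj b p := by
    intro h
    exact no_diamond hc hn4 hd a b x p hab hxa.symm hap hxb.symm h hpx.symm
  set Γ := Two G x φ j l with hΓ
  have hmax : ∀ u a b c, Γ.Adj u a → Γ.Adj u b → Γ.Adj u c → a = b ∨ a = c ∨ b = c := by
    intro u n1 n2 n3 h1 h2 h3
    by_contra hcon
    push Not at hcon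
    obtain ⟨d1, d2, d3⟩ := hcon
    have hsame : ∀ n, Γ.Adj u n → (φ u = j → φ n = l) ∧ (φ u = l → φ n = j) := by
      intro n hn
      rcases hn.2.2.2 with ⟨e1, e2⟩ | ⟨e1, e2⟩
      · exact ⟨fun _ => e2, fun h => absurd (h.symm.trans e1) hlj⟩
      · exact ⟨fun h => absurd (e1.symm.trans h) hlj, fun _ => e2⟩
    have hcol : φ u = j ∨ φ u = l := by
      rcases h1.2.2.2 with ⟨e1, _⟩ | ⟨e1, _⟩
      · exact Or.inl e1
      · exact Or.inr e1
    have heq : ∀ n n', Γ.Adj u n → Γ.Adj u n' → ¬ G.Adj n n' := by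
      intro n n' hn hn' hadj
      apply hφ n n' (by simpa using hn.2.2.1) (by simpa using hn'.2.2.1) hadj
      rcases hcol with h | h
      · rw [(hsame n hn).1 h, (hsame n' hn').1 h]
      · rw [(hsame n hn).2 h, (hsame n' hn').2 h]
    rcases hcf u n1 n2 n3 h1.1 h2.1 h3.1 d1 d2 d3 with h | h | h
    · exact heq _ _ h1 h2 h
    · exact heq _ _ h1 h3 h
    · exact heq _ _ h2 h3 h
  have h1b : ∀ n n', Γ.Adj b n → Γ.Adj b n' → n = n' := by
    intro n n' hn hn'
    apply nbr_sees_unique hc hd hφ hxb hn.1 hn'.1 hn.2.2.1 hn'.2.2.1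
    have e : ∀ n, Γ.Adj b n → φ n = l := by
      intro n hn
      rcases hn.2.2.2 with ⟨_, e2⟩ | ⟨e1, _⟩
      · exact e2
      · exact absurd (e1.symm.trans hφb) hlj
    rw [e n hn, e n' hn']
  have h1c : ∀ n n', Γ.Adj c n → Γ.Adj c n' → n = n' := by
    intro n n' hn hn'
    apply nbr_sees_unique hc hd hφ hxc hn.1 hn'.1 hn.2.2.1 hn'.2.2.1
    have e : ∀ n, Γ.Adj c n → φ n = j := by
      intro n hn
      rcases hn.2.2.2 with ⟨e1, _⟩ | ⟨_, e2⟩
      · exact absurd (hφc.symm.trans e1) hlj
      · exact e2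
    rw [e n hn, e n' hn']
  have h1p : ∀ n n', Γ.Adj p n → Γ.Adj p n' → n = n' := by
    intro n n' hn hn'
    by_contra hne
    have e : ∀ n, Γ.Adj p n → φ n = j := by
      intro n hn
      rcases hn.2.2.2 with ⟨e1, _⟩ | ⟨_, e2⟩
      · exact absurd (hφp.symm.trans e1) hlj
      · exact e2
    have hna : ∀ n, Γ.Adj p n → ¬ G.Adj a n := by
      intro n hn h
      have : n = b := by
        apply nbr_sees_unique hc hd hφ hxa h hab hn.2.2.1 hbx
        rw [e n hn, hφb]
      subst this
      exact hnbp hn.1.symm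
    have han : ∀ n, Γ.Adj p n → a ≠ n := by
      rintro n hn rfl
      have := e _ hn
      rw [hφa] at this
      exact hj0 this.symm
    rcases hcf p a n n' hap.symm hn.1 hn'.1 (han n hn) (han n' hn') hne with h | h | h
    · exact hna n hn h
    · exact hna n' hn' h
    · apply hφ n n' (by simpa using hn.2.2.1) (by simpa using hn'.2.2.1) h
      rw [e n hn, e n' hn']
  have hφa' : φ a ≠ j ∧ φ a ≠ l := by
    rw [hφa]; exact ⟨hj0.symm, hl0.symm⟩
  by_cases hbcr : Γ.Reachable b c
  · by_cases hbpr : Γ.Reachable b p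
    · refine three_ends Γ hmax b c p hbc hpb.symm hpc.symm ?_ hbcr hbpr
      intro u hu
      rcases hu with rfl | rfl | rfl
      · exact h1b
      · exact h1c
      · exact h1p
    · -- swap on the component of `p`
      have hψ := two_swap hφ j l p
      have hbn : ¬ Γ.Reachable p b := fun h => hbpr h.symm
      have e1 : b = p := by
        apply nbr_sees_unique hc hd hψ hxa hab hap hbx hpx
        have r1 : b ∉ {u | (Two G x φ j l).Reachable p u} := hbn
        have r2 : p ∈ {u | (Two G x φ j l).Reachable p u} := SimpleGraph.Reachable.refl _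
        simp only [r1, r2, if_true, if_false]
        rw [hφp, Equiv.swap_apply_right, hφb]
      exact hpb e1.symm
  · -- swap on the component of `b`
    have hψ := two_swap hφ j l b
    have e1 : b = c := by
      apply nbr_unique hc hd hψ hxb hxc
      have r1 : c ∉ {u | (Two G x φ j l).Reachable b u} := hbcr
      have r2 : b ∈ {u | (Two G x φ j l).Reachable b u} := SimpleGraph.Reachable.refl _
      simp only [r1, r2, if_true, if_false]
      rw [hφb, Equiv.swap_apply_left, hφc]
    exact hbc e1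

end Pool.Agent.MP_ccda7a_co
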