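import Pool.Agent.Lib.MP_ccda7a_co.Base

set_option autoImplicit false

namespace Pool.Agent.MP_ccda7a_co

variable {V : Type} {G : SimpleGraph V} {W : Set V}

lemma reach_induct {Γ : SimpleGraph V} {P : V → Prop} {a b : V} (h : Γ.Reachable a b)
    (ha : P a) (hs : ∀ u v, P u → Γ.Adj u v → P v) : P b := by
  obtain ⟨w⟩ := h
  induction w with
  | nil => exact ha
  | cons hadj _ ih => exact ih (hs _ _ ha hadj)

/-- bichromatic graph relative to a colour `m`, avoiding the image of `k` -/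
def Gam (G : SimpleGraph V) (k : Fin 4 → V) (φ : V → Fin 4) (m : Fin 4) : SimpleGraph V where
  Adj u v := G.Adj u v ∧ (∀ i, k i ≠ u) ∧ (∀ i, k i ≠ v) ∧ ¬ (φ u = m ↔ φ v = m)
  symm := ⟨fun _ _ h => ⟨h.1.symm, h.2.2.1, h.2.1, fun h' => h.2.2.2 h'.symm⟩⟩
  loopless := ⟨fun _ h => h.1.ne rfl⟩

/-- the two-coloured graph, avoiding the image of `k` -/
def Gam2 (G : SimpleGraph V) (k : Fin 4 → V) (φ : V → Fin 4) (j m : Fin 4) : SimpleGraph V where
  Adj u v := G.Adj u v ∧ (∀ i, k i ≠ u) ∧ (∀ i, k i ≠ v) ∧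
    ((φ u = j ∧ φ v = m) ∨ (φ u = m ∧ φ v = j))
  symm := ⟨fun _ _ h => ⟨h.1.symm, h.2.2.1, h.2.1, h.2.2.2.elim (fun h' => Or.inr ⟨h'.2, h'.1⟩)
    (fun h' => Or.inl ⟨h'.2, h'.1⟩)⟩⟩
  loopless := ⟨fun _ h => h.1.ne rfl⟩

lemma Gam2_le (G : SimpleGraph V) (k : Fin 4 → V) (φ : V → Fin 4) (j m : Fin 4) (hjm : j ≠ m) :
    Gam2 G k φ j m ≤ Gam G k φ m := by
  intro u v h
  refine ⟨h.1, h.2.1, h.2.2.1, ?_⟩
  rcases h.2.2.2 with h' | h'
  · intro h''
    exact hjm (h'.1.symm.trans (h''.2 h'.2))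
  · intro h''
    exact hjm (h'.2.symm.trans (h''.1 h'.1))

lemma kempe_claim (k : Fin 4 → V)
    (hk : ∀ i j, i ≠ j → G.Adj (k i) (k j)) (φ : V → Fin 4) (m : Fin 4)
    (f : V) (hf0 : G.Adj (k 0) f) (hfK : ∀ i, k i ≠ f) (hfm : φ f = m)
    (hs : ∀ i, i ≠ 0 → ∃ s, (Gam G k φ m).Reachable f s ∧ φ s = m ∧ G.Adj (k i) s) :
    HasOddK5 G := by
  classical
  refine oddK5_of_piece G k hk (fun u => decide ((∃ i, k i = u) ∨ φ u = m)) ?_
    (Gam G k φ m) (fun u v h => h.1) ?_ f ?_ ?_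
  · intro i
    simp only [decide_eq_true_eq]
    exact Or.inl ⟨i, rfl⟩
  · intro u v h heq
    apply h.2.2.2
    have hu : ¬ ∃ i, k i = u := fun ⟨i, hi⟩ => h.2.1 i hi
    have hv : ¬ ∃ i, k i = v := fun ⟨i, hi⟩ => h.2.2.1 i hi
    simpa [hu, hv] using heq
  · intro i h
    have : ∀ i', k i' ≠ k i := reach_induct (P := fun u => ∀ i', k i' ≠ u) h hfK
      (fun u v _ h' => h'.2.2.1)
    exact this i rfl
  · intro i
    by_cases hi : i = 0
    · subst hi
      exact ⟨f, SimpleGraph.Reachable.refl _, by simp [hfm], hf0⟩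
    · obtain ⟨s, h1, h2, h3⟩ := hs i hi
      exact ⟨s, h1, by simp [h2], h3⟩

open Classical in
lemma kempe_step (k : Fin 4 → V)
    (hk : ∀ i j, i ≠ j → G.Adj (k i) (k j)) (φ : V → Fin 4) (m : Fin 4)
    (hφ : IsCol G {k 0} φ) (hm : ∀ i, i ≠ 0 → φ (k i) ≠ m)
    (f : V) (hfK : ∀ i, k i ≠ f) (i : Fin 4) (hi : i ≠ 0)
    (hs : ¬ ∃ s, (Gam G k φ m).Reachable f s ∧ φ s = m ∧ G.Adj (k i) s) :
    ∃ D : Set V, f ∈ D ∧ (∀ i, k i ∉ D) ∧
      IsCol G {k 0} (fun u => if u ∈ D then Equiv.swap (φ (k i)) m (φ u) else φ u) := by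
  have hjm : φ (k i) ≠ m := hm i hi
  refine ⟨{u | (Gam2 G k φ (φ (k i)) m).Reachable f u}, SimpleGraph.Reachable.refl _, ?_, ?_⟩
  · intro i' h
    have : ∀ i'', k i'' ≠ k i' := reach_induct (P := fun u => ∀ i', k i' ≠ u) h hfK
      (fun u v _ h' => h'.2.2.1)
    exact this i' rfl
  · apply hφ.swap
    intro u v hu hv huR hvR huv hcol
    have hu' : ∀ i, k i ≠ u := reach_induct (P := fun u => ∀ i', k i' ≠ u) hu hfK
      (fun u v _ h' => h'.2.2.1)
    have hne := hφ u v huR hvR huv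
    have hgam : (Gam G k φ m).Reachable f u := hu.mono (Gam2_le G k φ _ m hjm)
    constructor
    · intro hvj
      have hum : φ u = m := by
        rcases hcol with h | h
        · exact absurd (h.trans hvj.symm) hne
        · exact h
      by_cases hvK : ∀ i', k i' ≠ v
      · apply hv
        exact SimpleGraph.Reachable.trans hu
          (SimpleGraph.Adj.reachable ⟨huv, hu', hvK, Or.inr ⟨hum, hvj⟩⟩)
      · push Not at hvK
        obtain ⟨i', hi'⟩ := hvK
        have hi0 : i' ≠ 0 := by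
          rintro rfl; exact hvR (by simp [hi'])
        have : i' = i := by
          by_contra hne'
          apply hφ (k i') (k i) _ _ (hk _ _ hne')
          · rw [hi', hvj]
          · simp only [Set.mem_singleton_iff]; exact (hk _ _ hi0).ne
          · simp only [Set.mem_singleton_iff]; exact (hk _ _ hi).ne
        subst this
        exact hs ⟨u, hgam, hum, by rw [hi']; exact huv.symm⟩
    · intro hvm
      have huj : φ u = φ (k i) := by
        rcases hcol with h | h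
        · exact h
        · exact absurd (h.trans hvm.symm) hne
      by_cases hvK : ∀ i', k i' ≠ v
      · apply hv
        exact SimpleGraph.Reachable.trans hu
          (SimpleGraph.Adj.reachable ⟨huv, hu', hvK, Or.inl ⟨huj, hvm⟩⟩)
      · push Not at hvK
        obtain ⟨i', hi'⟩ := hvK
        have hi0 : i' ≠ 0 := by
          rintro rfl; exact hvR (by simp [hi'])
        exact hm i' hi0 (by rw [hi', hvm])

lemma kempe_b (hc : Crit G W) (k : Fin 4 → V)
    (hk : ∀ i j, i ≠ j → G.Adj (k i) (k j)) (f g : V) (hf : G.Adj (k 0) f)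
    (hKf : ∀ i, k i ≠ f) (hKg : ∀ i, k i ≠ g)
    (hN : ∀ y, G.Adj (k 0) y → (∃ i, k i = y) ∨ y = f ∨ y = g)
    (hx : ∀ i, i ≠ 0 → G.Adj (k i) f ∨ G.Adj (k i) g)
    (φ : V → Fin 4) (m : Fin 4) (hφ : IsCol G {k 0} φ) (hm : ∀ i, i ≠ 0 → φ (k i) ≠ m)
    (hfm : φ f = m) (hgm : φ g ≠ m) : HasOddK5 G := by
  classical
  apply kempe_claim k hk φ m f hf hKf hfm
  intro i hi
  by_contra hcon
  have hk0 : ∀ i, i ≠ 0 → k i ∉ ({k 0} : Set V) := by
    intro i hi; simp only [Set.mem_singleton_iff]; exact (hk _ _ hi).ne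
  by_cases hg : φ g = φ (k i)
  · have hng : ¬ G.Adj (k i) g := by
      intro h
      exact hφ (k i) g (hk0 i hi) (by simp only [Set.mem_singleton_iff]; exact (hKg 0).symm) h
        hg.symm
    exact hcon ⟨f, SimpleGraph.Reachable.refl _, hfm, (hx i hi).resolve_right hng⟩
  · obtain ⟨D, hfD, hKD, hφ'⟩ := kempe_step k hk φ m hφ hm f hKf i hi hcon
    obtain ⟨y, hy1, hy2⟩ := hc.sees hφ' m
    rcases hN y hy1 with ⟨i', rfl⟩ | rfl | rfl
    · have hi' : i' ≠ 0 := by rintro rfl; exact G.irrefl hy1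
      simp only [hKD i', if_false] at hy2
      exact hm i' hi' hy2
    · simp only [hfD, if_true, hfm, Equiv.swap_apply_right] at hy2
      exact hm i hi hy2
    · by_cases hgD : y ∈ D
      · simp only [hgD, if_true, Equiv.swap_apply_of_ne_of_ne hg hgm] at hy2
        exact hgm hy2
      · simp only [hgD, if_false] at hy2
        exact hgm hy2

/-- A vertex of a K4 with at most two suitable outside neighbours gives an odd K5. -/
lemma kempe_case (hc : Crit G W) (k : Fin 4 → V)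
    (hk : ∀ i j, i ≠ j → G.Adj (k i) (k j)) (f1 f2 : V) (h1 : G.Adj (k 0) f1)
    (h2 : G.Adj (k 0) f2) (hK1 : ∀ i, k i ≠ f1) (hK2 : ∀ i, k i ≠ f2)
    (hN : ∀ y, G.Adj (k 0) y → (∃ i, k i = y) ∨ y = f1 ∨ y = f2)
    (hx : f1 = f2 ∨ ∀ i, i ≠ 0 → G.Adj (k i) f1 ∨ G.Adj (k i) f2) : HasOddK5 G := by
  classical
  obtain ⟨φ, hφ⟩ := hc.crit (k 0) (hc.inW _ _ h1)
  have h4 : ∀ a b c : Fin 4, ∃ m, a ≠ m ∧ b ≠ m ∧ c ≠ m := by decide
  obtain ⟨m, hm1, hm2, hm3⟩ := h4 (φ (k 1)) (φ (k 2)) (φ (k 3))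
  have hm : ∀ i, i ≠ 0 → φ (k i) ≠ m := by
    intro i hi
    fin_cases i
    · exact absurd rfl hi
    · exact hm1
    · exact hm2
    · exact hm3
  have hseen : φ f1 = m ∨ φ f2 = m := by
    obtain ⟨y, hy1, hy2⟩ := hc.sees hφ m
    rcases hN y hy1 with ⟨i', rfl⟩ | rfl | rfl
    · exact absurd hy2 (hm i' (by rintro rfl; exact G.irrefl hy1))
    · exact Or.inl hy2
    · exact Or.inr hy2
  have hN' : ∀ y, G.Adj (k 0) y → (∃ i, k i = y) ∨ y = f2 ∨ y = f1 := by
    intro y hy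
    rcases hN y hy with h | h | h
    · exact Or.inl h
    · exact Or.inr (Or.inr h)
    · exact Or.inr (Or.inl h)
  -- both vertices with the missing colour
  have hboth : φ f1 = m → φ f2 = m → HasOddK5 G := by
    intro hf1 hf2
    by_cases hall : ∀ i, i ≠ 0 → ∃ s, (Gam G k φ m).Reachable f1 s ∧ φ s = m ∧ G.Adj (k i) s
    · exact kempe_claim k hk φ m f1 h1 hK1 hf1 hall
    · push Not at hall
      obtain ⟨i, hi, hcon⟩ := hall
      have hcon' : ¬ ∃ s, (Gam G k φ m).Reachable f1 s ∧ φ s = m ∧ G.Adj (k i) s := by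
        rintro ⟨s, hs1, hs2, hs3⟩; exact hcon s hs1 hs2 hs3
      obtain ⟨D, hfD, hKD, hφ'⟩ := kempe_step k hk φ m hφ hm f1 hK1 i hi hcon'
      by_cases hf2D : f2 ∈ D
      · exfalso
        obtain ⟨y, hy1, hy2⟩ := hc.sees hφ' m
        rcases hN y hy1 with ⟨i', rfl⟩ | rfl | rfl
        · have hi' : i' ≠ 0 := by rintro rfl; exact G.irrefl hy1
          simp only [hKD i', if_false] at hy2
          exact hm i' hi' hy2
        · simp only [hfD, if_true, hf1, Equiv.swap_apply_right] at hy2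
          exact hm i hi hy2
        · simp only [hf2D, if_true, hf2, Equiv.swap_apply_right] at hy2
          exact hm i hi hy2
      · have hne : f1 ≠ f2 := by rintro rfl; exact hf2D hfD
        have hx' := hx.resolve_left hne
        refine kempe_b hc k hk f2 f1 h2 hK2 hK1 hN' (fun i hi => (hx' i hi).symm) _ m hφ' ?_ ?_ ?_
        · intro i' hi'
          simp only [hKD i', if_false]; exact hm i' hi'
        · simp only [hf2D, if_false, hf2]
        · simp only [hfD, if_true, hf1, Equiv.swap_apply_right]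
          exact hm i hi
  by_cases hf1 : φ f1 = m
  · by_cases hf2 : φ f2 = m
    · exact hboth hf1 hf2
    · have hne : f1 ≠ f2 := by rintro rfl; exact hf2 hf1
      exact kempe_b hc k hk f1 f2 h1 hK1 hK2 hN (hx.resolve_left hne) φ m hφ hm hf1 hf2
  · have hf2 : φ f2 = m := hseen.resolve_left hf1
    have hne : f1 ≠ f2 := by rintro rfl; exact hf1 hf2
    exact kempe_b hc k hk f2 f1 h2 hK2 hK1 hN' (fun i hi => (hx.resolve_left hne i hi).symm)
      φ m hφ hm hf2 hf1

end Pool.Agent.MP_ccda7a_co
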