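import Pool.Agent.Lib.MP_ccda7a_co.OddK

set_option autoImplicit false

namespace Pool.Agent.MP_ccda7a_co

variable {V : Type}

lemma o_reach_induct {Γ : SimpleGraph V} {P : V → Prop} {a b : V} (h : Γ.Reachable a b)
    (ha : P a) (hs : ∀ u v, P u → Γ.Adj u v → P v) : P b := by
  obtain ⟨w⟩ := h
  induction w with
  | nil => exact ha
  | cons hadj _ ih => exact ih (hs _ _ ha hadj)

/-- A spanning tree of a connected vertex set. -/
lemma exists_tree (R : SimpleGraph V) (f : Set V) (r : V) (hr : r ∈ f)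
    (hR : ∀ u w, R.Adj u w → u ∈ f ∧ w ∈ f) (hc : ∀ u ∈ f, R.Reachable r u) :
    ∃ T : SimpleGraph V, T ≤ R ∧ (T.induce f).IsTree := by
  classical
  set C := R.connectedComponentMk r with hC
  have hmem : ∀ u, u ∈ C.supp ↔ R.Reachable r u := by
    intro u
    rw [SimpleGraph.ConnectedComponent.mem_supp_iff, hC, SimpleGraph.ConnectedComponent.eq]
    exact ⟨fun h => h.symm, fun h => h.symm⟩
  have hCf : C.supp = f := by
    ext u
    rw [hmem]
    constructor
    · intro h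
      exact o_reach_induct (P := fun u => u ∈ f) h hr (fun u v _ h' => (hR u v h').2)
    · exact hc u
  obtain ⟨T, hT, hTree⟩ := (C.connected_toSimpleGraph).exists_isTree_le
  refine ⟨T.map (Function.Embedding.subtype (· ∈ C.supp)), ?_, ?_⟩
  · intro u w h
    rw [SimpleGraph.map_adj] at h
    obtain ⟨a, b, hab, rfl, rfl⟩ := h
    have := hT hab
    simpa [SimpleGraph.ConnectedComponent.toSimpleGraph] using this
  · rw [← hCf]
    have : (T.map (Function.Embedding.subtype (· ∈ C.supp))).induce C.supp = T :=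
      SimpleGraph.comap_map_eq _ _
    rw [this]; exact hTree

/-- the edges of `G` inside `f` whose ends have different colours -/
def Bic (G : SimpleGraph V) (c : V → Bool) (f : Set V) : SimpleGraph V where
  Adj u v := G.Adj u v ∧ u ∈ f ∧ v ∈ f ∧ c u ≠ c v
  symm := ⟨fun _ _ h => ⟨h.1.symm, h.2.2.1, h.2.1, h.2.2.2.symm⟩⟩
  loopless := ⟨fun _ h => h.1.ne rfl⟩

/-- A description of an odd clique without trees. -/
lemma oddK_iff (t : ℕ) (G : SimpleGraph V) : OddK t G ↔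
    ∃ (f : Fin t → Set V) (e : Fin t → Fin t → V) (c : V → Bool),
      (∀ i j, i ≠ j → Disjoint (f i) (f j)) ∧
      (∀ i, ∃ r ∈ f i, ∀ u ∈ f i, (Bic G c (f i)).Reachable r u) ∧
      (∀ i j, i ≠ j → e i j ∈ f i ∧ G.Adj (e i j) (e j i) ∧ c (e i j) = c (e j i)) := by
  classical
  constructor
  · rintro ⟨f, T, e, c, h1, h2, h3, h4, h5⟩
    refine ⟨f, e, c, h1, ?_, h5⟩
    intro i
    have hcon := (h4 i).1
    obtain ⟨⟨r, hr⟩⟩ := hcon.nonempty
    refine ⟨r, hr, ?_⟩
    intro u hu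
    have hreach := hcon.preconnected ⟨r, hr⟩ ⟨u, hu⟩
    have := hreach.map (f := (SimpleGraph.Embedding.induce (G := T i) (f i)).toHom)
    refine this.mono ?_
    intro a b hab
    exact ⟨h2 i hab, (h3 i a b hab).1, (h3 i a b hab).2.1, (h3 i a b hab).2.2⟩
  · rintro ⟨f, e, c, h1, h2, h3⟩
    have h4 : ∀ i, ∃ T : SimpleGraph V, T ≤ Bic G c (f i) ∧ (T.induce (f i)).IsTree := by
      intro i
      obtain ⟨r, hr, hc⟩ := h2 i
      exact exists_tree _ _ r hr (fun u w h => ⟨h.2.1, h.2.2.1⟩) hc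
    choose T hT1 hT2 using h4
    exact ⟨f, T, e, c, h1, fun i u w h => (hT1 i h).1,
      fun i u w h => ⟨(hT1 i h).2.1, (hT1 i h).2.2.1, (hT1 i h).2.2.2⟩, hT2, h3⟩

lemma OddK.mono {t : ℕ} {G H : SimpleGraph V} (h : G ≤ H) (hG : OddK t G) : OddK t H := by
  obtain ⟨f, T, e, c, h1, h2, h3, h4, h5⟩ := hG
  exact ⟨f, T, e, c, h1, fun i => (h2 i).trans h, h3, h4,
    fun i j hij => ⟨(h5 i j hij).1, h (h5 i j hij).2.1, (h5 i j hij).2.2⟩⟩

/-- The odd contraction `(G - v) / A`: the vertices of `A` (neighbours of `v`) are identified to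
the vertex `a0` of `A`; the vertices `v` and those of `A` different from `a0` become isolated. -/
def Con (G : SimpleGraph V) (v : V) (A : Set V) (a0 : V) (hA : ∀ x ∈ A, ∀ y ∈ A, ¬ G.Adj x y)
    (ha0 : a0 ∈ A) :
    SimpleGraph V where
  Adj x y := ∃ a b, a ≠ v ∧ b ≠ v ∧ G.Adj a b ∧ (a ∈ A → x = a0) ∧ (a ∉ A → x = a) ∧
    (b ∈ A → y = a0) ∧ (b ∉ A → y = b)
  symm := ⟨fun _ _ ⟨a, b, h1, h2, h3, h4, h5, h6, h7⟩ => ⟨b, a, h2, h1, h3.symm, h6, h7, h4, h5⟩⟩
  loopless := ⟨fun x ⟨a, b, _, _, h3, h4, h5, h6, h7⟩ => by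
    by_cases ha : a ∈ A
    · by_cases hb : b ∈ A
      · exact hA a ha b hb h3
      · exact hb (by rw [← h7 hb, h4 ha]; exact ha0)
    · by_cases hb : b ∈ A
      · exact ha (by rw [← h5 ha, h6 hb]; exact ha0)
      · exact h3.ne ((h5 ha).symm.trans (h7 hb))⟩

section con

variable (G : SimpleGraph V) (v : V) (A : Set V) (a0 : V) (hA : ∀ x ∈ A, ∀ y ∈ A, ¬ G.Adj x y)
    (ha0 : a0 ∈ A) (hN : ∀ x ∈ A, G.Adj v x)

include hN in
lemma con_mem {x y : V} (h : (Con G v A a0 hA ha0).Adj x y) : x ≠ v ∧ (x ∈ A → x = a0) := by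
  obtain ⟨a, b, h1, h2, h3, h4, h5, h6, h7⟩ := h
  by_cases ha : a ∈ A
  · rw [h4 ha]
    exact ⟨fun h => (hN a0 ha0).ne h.symm, fun _ => rfl⟩
  · rw [h5 ha]
    exact ⟨h1, fun h => absurd h ha⟩

/-- An odd clique of the odd contraction gives an odd clique of the graph. -/
lemma con_oddK (hN : ∀ x ∈ A, G.Adj v x) (t : ℕ) (ht : 2 ≤ t)
    (h : OddK t (Con G v A a0 hA ha0)) : OddK t G := by
  classical
  rw [oddK_iff] at h ⊢
  obtain ⟨f, e, c, h1, h2, h3⟩ := h
  set G' := Con G v A a0 hA ha0 with hG'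
  -- the vertices outside of the contraction are not used
  have hother : ∀ i : Fin t, ∃ j : Fin t, i ≠ j := by
    intro i
    by_cases hi : (i : ℕ) = 0
    · exact ⟨⟨1, by omega⟩, fun h => by have := congrArg Fin.val h; simp at this; omega⟩
    · exact ⟨⟨0, by omega⟩, fun h => by have := congrArg Fin.val h; simp at this; omega⟩
  have hused : ∀ i, ∀ u ∈ f i, ∃ w, G'.Adj u w := by
    intro i u hu
    obtain ⟨j, hij⟩ := hother i
    obtain ⟨h4, h5, h6⟩ := h3 i j hij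
    obtain ⟨r, hr, hc⟩ := h2 i
    by_cases hue : u = e i j
    · rw [hue]; exact ⟨_, h5⟩
    · have hreach : (Bic G' c (f i)).Reachable u (e i j) := (hc u hu).symm.trans (hc _ h4)
      obtain ⟨w⟩ := hreach
      cases w with
      | nil => exact absurd rfl hue
      | cons hadj _ => exact ⟨_, hadj.1⟩
  have hfv : ∀ i, v ∉ f i := by
    intro i hv
    obtain ⟨w, hw⟩ := hused i v hv
    exact (con_mem G v A a0 hA ha0 hN hw).1 rfl
  have hfA : ∀ i, ∀ x ∈ f i, x ∈ A → x = a0 := by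
    intro i x hx hxA
    obtain ⟨w, hw⟩ := hused i x hx
    exact (con_mem G v A a0 hA ha0 hN hw).2 hxA
  -- new sets and new colouring
  let f' : Fin t → Set V := fun i => {u | u ∈ f i ∨ (a0 ∈ f i ∧ (u = v ∨ u ∈ A))}
  let c' : V → Bool := fun u => if u = v then !(c a0) else if u ∈ A then c a0 else c u
  have hc'v : c' v = !(c a0) := by simp only [c', if_true]
  have hAv : ∀ x ∈ A, x ≠ v := fun x hx h => (hN x hx).ne h.symm
  have hc'A : ∀ x ∈ A, c' x = c a0 := by
    intro x hx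
    simp only [c', hAv x hx, hx, if_true, if_false]
  have hc'o : ∀ x, x ≠ v → x ∉ A → c' x = c x := by
    intro x hx hx'
    simp only [c', hx, hx', if_false]
  -- lifting an edge
  have hlift : ∀ x y, G'.Adj x y → ∃ a b, G.Adj a b ∧ a ≠ v ∧ b ≠ v ∧ c' a = c x ∧ c' b = c y ∧
      (∀ i, x ∈ f i → a ∈ f' i) ∧ (∀ i, y ∈ f i → b ∈ f' i) ∧ (x ≠ a0 → a = x) ∧
      (y ≠ a0 → b = y) ∧ (x = a0 → a ∈ A) ∧ (y = a0 → b ∈ A) := by
    rintro x y ⟨a, b, g1, g2, g3, g4, g5, g6, g7⟩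
    have haux : ∀ a x : V, a ≠ v → (a ∈ A → x = a0) → (a ∉ A → x = a) →
        c' a = c x ∧ (∀ i, x ∈ f i → a ∈ f' i) ∧ (x ≠ a0 → a = x) ∧ (x = a0 → a ∈ A) := by
      intro a x g1 g4 g5
      by_cases ha : a ∈ A
      · have hx := g4 ha
        subst hx
        exact ⟨hc'A a ha, fun i hi => Or.inr ⟨hi, Or.inr ha⟩, fun h => absurd rfl h, fun _ => ha⟩
      · have hx := g5 ha
        subst hx
        exact ⟨hc'o _ g1 ha, fun i hi => Or.inl hi, fun _ => rfl, fun h => h ▸ ha0⟩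
    obtain ⟨p1, p2, p3, p4⟩ := haux a x g1 g4 g5
    obtain ⟨q1, q2, q3, q4⟩ := haux b y g2 g6 g7
    exact ⟨a, b, g3, g1, g2, p1, q1, p2, q2, p3, q3, p4, q4⟩
  -- connections
  have hlift' : ∀ i j, ∃ a : V, i ≠ j → (a ∈ f' i ∧ c' a = c (e i j)) := by
    intro i j
    by_cases hij : i = j
    · exact ⟨v, fun h => absurd hij h⟩
    · obtain ⟨h4, h5, h6⟩ := h3 i j hij
      obtain ⟨a, b, g⟩ := hlift _ _ h5
      exact ⟨a, fun _ => ⟨g.2.2.2.2.2.1 i h4, g.2.2.2.1⟩⟩
  have hpairs : ∀ i j, ∃ ab : V × V, i < j → (G.Adj ab.1 ab.2 ∧ ab.1 ∈ f' i ∧ ab.2 ∈ f' j ∧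
      c' ab.1 = c' ab.2) := by
    intro i j
    by_cases hij : i < j
    · obtain ⟨h4, h5, h6⟩ := h3 i j hij.ne
      obtain ⟨h7, -, -⟩ := h3 j i hij.ne'
      obtain ⟨a, b, g1, g2, g3, g4, g5, g6, g7, g8⟩ := hlift _ _ h5
      exact ⟨(a, b), fun _ => ⟨g1, g6 i h4, g7 j h7, by rw [g4, g5, h6]⟩⟩
    · exact ⟨(v, v), fun h => absurd h hij⟩
  choose pr hpr using hpairs
  refine ⟨f', fun i j => if i < j then (pr i j).1 else (pr j i).2, c', ?_, ?_, ?_⟩
  · -- disjointness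
    have haux : ∀ i j, i ≠ j → ∀ u, u ∈ f i → ¬ (a0 ∈ f j ∧ (u = v ∨ u ∈ A)) := by
      rintro i j hij u hu ⟨ha, rfl | huA⟩
      · exact hfv i hu
      · have := hfA i u hu huA
        subst this
        exact Set.disjoint_left.1 (h1 i j hij) hu ha
    intro i j hij
    rw [Set.disjoint_left]
    rintro u (hu | hu) (hu' | hu')
    · exact Set.disjoint_left.1 (h1 i j hij) hu hu'
    · exact haux i j hij u hu hu'
    · exact haux j i hij.symm u hu' hu
    · exact Set.disjoint_left.1 (h1 i j hij) hu.1 hu'.1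
  · -- connectedness
    intro i
    obtain ⟨r, hr, hc⟩ := h2 i
    have hstar : a0 ∈ f i → ∀ x ∈ A, (Bic G c' (f' i)).Reachable a0 x := by
      intro ha x hx
      have e1 : (Bic G c' (f' i)).Adj a0 v := by
        refine ⟨(hN a0 ha0).symm, Or.inl ha, Or.inr ⟨ha, Or.inl rfl⟩, ?_⟩
        rw [hc'A a0 ha0, hc'v]; simp
      have e2 : (Bic G c' (f' i)).Adj v x := by
        refine ⟨hN x hx, Or.inr ⟨ha, Or.inl rfl⟩, Or.inr ⟨ha, Or.inr hx⟩, ?_⟩
        rw [hc'A x hx, hc'v]; simp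
      exact e1.reachable.trans e2.reachable
    have hstarv : a0 ∈ f i → (Bic G c' (f' i)).Reachable a0 v := by
      intro ha
      have e1 : (Bic G c' (f' i)).Adj a0 v := by
        refine ⟨(hN a0 ha0).symm, Or.inl ha, Or.inr ⟨ha, Or.inl rfl⟩, ?_⟩
        rw [hc'A a0 ha0, hc'v]; simp
      exact e1.reachable
    have hold : ∀ u, (Bic G' c (f i)).Reachable r u → (Bic G c' (f' i)).Reachable r u := by
      intro u hu
      refine o_reach_induct (P := fun u => (Bic G c' (f' i)).Reachable r u) hu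
        (SimpleGraph.Reachable.refl _) ?_
      intro x y hx hxy
      obtain ⟨k1, k2, k3, k4⟩ := hxy
      obtain ⟨a, b, g1, g2, g3, g4, g5, g6, g7, g8, g9, g10, g11⟩ := hlift _ _ k1
      have hab : (Bic G c' (f' i)).Adj a b := by
        refine ⟨g1, g6 i k2, g7 i k3, ?_⟩
        rw [g4, g5]; exact k4
      have hxa : (Bic G c' (f' i)).Reachable x a := by
        by_cases hx0 : x = a0
        · have := hstar (hx0 ▸ k2) a (g10 hx0)
          rw [hx0]; exact this
        · rw [g8 hx0]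
      have hyb : (Bic G c' (f' i)).Reachable y b := by
        by_cases hy0 : y = a0
        · have := hstar (hy0 ▸ k3) b (g11 hy0)
          rw [hy0]; exact this
        · rw [g9 hy0]
      exact ((hx.trans hxa).trans hab.reachable).trans hyb.symm
    refine ⟨r, Or.inl hr, ?_⟩
    rintro u (hu | ⟨ha, rfl | huA⟩)
    · exact hold u (hc u hu)
    · exact (hold a0 (hc a0 ha)).trans (hstarv ha)
    · exact (hold a0 (hc a0 ha)).trans (hstar ha u huA)
  · intro i j hij
    rcases lt_or_gt_of_ne hij with hlt | hgt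
    · have := hpr i j hlt
      have hnot : ¬ j < i := not_lt.2 hlt.le
      simp only [hlt, hnot, if_true, if_false]
      exact ⟨this.2.1, this.1, this.2.2.2⟩
    · have := hpr j i hgt
      have hnot : ¬ i < j := not_lt.2 hgt.le
      simp only [hgt, hnot, if_true, if_false]
      exact ⟨this.2.2.1, this.1.symm, this.2.2.2.symm⟩

end con

end Pool.Agent.MP_ccda7a_co
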