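import Pool.Agent.Lib.MP_ccda7a_co.Odd1

set_option autoImplicit false

namespace Pool.Agent.MP_ccda7a_co

variable {V : Type}

/-- `φ` is a proper colouring of `G` away from the set `R`. -/
def PCol {m : ℕ} (G : SimpleGraph V) (R : Set V) (φ : V → Fin m) : Prop :=
  ∀ u v, u ∉ R → v ∉ R → G.Adj u v → φ u ≠ φ v

/-- `m` pairwise adjacent vertices and a connected bichromatic piece touching all of them in
the right class give an odd clique with `m + 1` parts. -/
lemma oddK_of_piece {m : ℕ} (G : SimpleGraph V) (k : Fin m → V)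
    (hk : ∀ i j, i ≠ j → G.Adj (k i) (k j)) (c : V → Bool) (hck : ∀ i, c (k i) = true)
    (Γ : SimpleGraph V) (hΓ : Γ ≤ G) (hΓc : ∀ u w, Γ.Adj u w → c u ≠ c w) (r : V)
    (hS : ∀ i, ¬ Γ.Reachable r (k i))
    (hn : ∀ i, ∃ s, Γ.Reachable r s ∧ c s = true ∧ G.Adj (k i) s) : OddK (m + 1) G := by
  classical
  choose s hs1 hs2 hs3 using hn
  rw [oddK_iff]
  refine ⟨fun i => if h : (i : ℕ) < m then {k ⟨i, h⟩} else {u | Γ.Reachable r u},
    fun i j => if h : (i : ℕ) < m then k ⟨i, h⟩ else if h : (j : ℕ) < m then s ⟨j, h⟩ else r,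
    c, ?_, ?_, ?_⟩
  · intro i j hij
    rw [Set.disjoint_left]
    intro u hu hv
    by_cases hi : (i : ℕ) < m <;> by_cases hj : (j : ℕ) < m
    · simp only [hi, hj, dif_pos, Set.mem_singleton_iff] at hu hv
      have : (⟨i, hi⟩ : Fin m) ≠ ⟨j, hj⟩ := by
        intro h; apply hij; ext; simpa using congrArg (fun x : Fin m => (x : ℕ)) h
      exact (hk _ _ this).ne (hu.symm.trans hv)
    · simp only [hi, hj, dif_pos, dif_neg, not_false_iff, Set.mem_singleton_iff,
        Set.mem_ofPred_eq] at hu hv
      rw [hu] at hv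
      exact hS _ hv
    · simp only [hi, hj, dif_pos, dif_neg, not_false_iff, Set.mem_singleton_iff,
        Set.mem_ofPred_eq] at hu hv
      rw [hv] at hu
      exact hS _ hu
    · apply hij; ext; omega
  · intro i
    by_cases hi : (i : ℕ) < m
    · refine ⟨k ⟨i, hi⟩, by simp [hi], ?_⟩
      intro u hu
      simp only [hi, dif_pos, Set.mem_singleton_iff] at hu
      rw [hu]
    · refine ⟨r, by simp [hi], ?_⟩
      intro u hu
      simp only [hi, dif_neg, not_false_iff, Set.mem_ofPred_eq] at hu
      simp only [hi, dif_neg, not_false_iff]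
      have h2 : (Bic G c {u | Γ.Reachable r u}).Reachable r u ∧ Γ.Reachable r u :=
        o_reach_induct (P := fun u => (Bic G c {u | Γ.Reachable r u}).Reachable r u ∧
          Γ.Reachable r u) hu ⟨SimpleGraph.Reachable.refl _, SimpleGraph.Reachable.refl _⟩
          (by
            rintro x y ⟨hx, hx'⟩ hxy
            have hy' : Γ.Reachable r y := hx'.trans hxy.reachable
            refine ⟨hx.trans (SimpleGraph.Adj.reachable ⟨hΓ hxy, hx', hy', hΓc _ _ hxy⟩), hy'⟩)
      exact h2.1
  · intro i j hij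
    by_cases hi : (i : ℕ) < m <;> by_cases hj : (j : ℕ) < m
    · simp only [hi, hj, dif_pos, Set.mem_singleton_iff, hck, true_and, and_true]
      apply hk
      intro h; apply hij; ext; simpa using congrArg (fun x : Fin m => (x : ℕ)) h
    · simp only [hi, hj, dif_pos, dif_neg, not_false_iff, Set.mem_singleton_iff, true_and]
      exact ⟨hs3 _, by rw [hck, hs2]⟩
    · simp only [hi, hj, dif_pos, dif_neg, not_false_iff, Set.mem_ofPred_eq]
      exact ⟨hs1 _, (hs3 _).symm, by rw [hck, hs2]⟩
    · exfalso; apply hij; ext; omega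

/-- `G`, whose edges all lie inside `W`, is vertex-critical for `m` colours. -/
structure PCrit (m : ℕ) (G : SimpleGraph V) (W : Set V) : Prop where
  inW : ∀ u v, G.Adj u v → u ∈ W
  ncol : ∀ φ : V → Fin m, ¬ PCol G ∅ φ
  crit : ∀ x ∈ W, ∃ φ : V → Fin m, PCol G {x} φ

variable {m : ℕ} {G : SimpleGraph V} {W : Set V}

lemma PCrit.inW' (h : PCrit m G W) {u v : V} (huv : G.Adj u v) : v ∈ W := h.inW _ _ huv.symm

/-- In a critical graph every colour appears around the uncoloured vertex. -/
lemma PCrit.sees (h : PCrit m G W) {x : V} {φ : V → Fin m} (hφ : PCol G {x} φ) (j : Fin m) :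
    ∃ y, G.Adj x y ∧ φ y = j := by
  classical
  by_contra hcon
  push Not at hcon
  apply h.ncol (fun u => if u = x then j else φ u)
  intro u v _ _ huv
  by_cases hu : u = x <;> by_cases hv : v = x
  · subst hu; subst hv; exact absurd huv (G.irrefl)
  · subst hu; simp only [if_true, hv, if_false]; exact fun h' => hcon v huv h'.symm
  · subst hv; simp only [if_true, hu, if_false]; exact fun h' => hcon u huv.symm h'
  · simp only [hu, hv, if_false]
    exact hφ u v (by simpa using hu) (by simpa using hv) huv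

/-- A critical graph has no clique cutset (here: of size `m`). -/
lemma p_separating (hc : PCrit m G W) (k : Fin m → V)
    (hk : ∀ i j, i ≠ j → G.Adj (k i) (k j)) (X : Set V) (hXK : ∀ i, k i ∉ X)
    (hX : ∀ u v, u ∈ X → G.Adj u v → v ∈ X ∨ ∃ i, k i = v) (x : V) (hx : x ∈ X) (hxW : x ∈ W) :
    ∀ w ∈ W, w ∈ X ∨ ∃ i, k i = w := by
  classical
  intro w hw
  by_contra hcon
  push Not at hcon
  obtain ⟨hwX, hwK⟩ := hcon
  obtain ⟨φX, hφX⟩ := hc.crit w hw
  obtain ⟨φY, hφY⟩ := hc.crit x hxW
  have hxK : ∀ i, k i ≠ x := fun i h => hXK i (h ▸ hx)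
  have injX : Function.Injective (φX ∘ k) := by
    intro i j hij
    by_contra hne
    exact hφX (k i) (k j) (by simpa using hwK i) (by simpa using hwK j) (hk i j hne) hij
  have injY : Function.Injective (φY ∘ k) := by
    intro i j hij
    by_contra hne
    exact hφY (k i) (k j) (by simpa using hxK i) (by simpa using hxK j) (hk i j hne) hij
  have bijX : Function.Bijective (φX ∘ k) := Finite.injective_iff_bijective.1 injX
  have bijY : Function.Bijective (φY ∘ k) := Finite.injective_iff_bijective.1 injY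
  set σ : Fin m ≃ Fin m := (Equiv.ofBijective _ bijY).symm.trans (Equiv.ofBijective _ bijX) with hσ
  have hσk : ∀ i, σ (φY (k i)) = φX (k i) := by
    intro i
    have h1 : (Equiv.ofBijective _ bijY) i = φY (k i) := rfl
    rw [hσ, Equiv.trans_apply, ← h1, Equiv.symm_apply_apply]
    rfl
  apply hc.ncol (fun u => if u ∈ X then φX u else σ (φY u))
  have key : ∀ u v, u ∈ X → v ∉ X → G.Adj u v → φX u ≠ σ (φY v) := by
    intro u v hu hv huv
    rcases hX u v hu huv with h | ⟨i, rfl⟩
    · exact absurd h hv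
    · rw [hσk]
      refine hφX u (k i) ?_ (by simpa using hwK i) huv
      simp only [Set.mem_singleton_iff]
      rintro rfl; exact hwX hu
  intro u v _ _ huv
  by_cases hu : u ∈ X <;> by_cases hv : v ∈ X
  · simp only [hu, hv, if_true]
    refine hφX u v ?_ ?_ huv <;> simp only [Set.mem_singleton_iff] <;> rintro rfl
    · exact hwX hu
    · exact hwX hv
  · simp only [hu, hv, if_true, if_false]
    exact key u v hu hv huv
  · simp only [hu, hv, if_true, if_false]
    exact (key v u hv hu huv.symm).symm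
  · simp only [hu, hv, if_false]
    intro h
    have := σ.injective h
    refine hφY u v ?_ ?_ huv this <;> simp only [Set.mem_singleton_iff] <;> rintro rfl
    · exact hu hx
    · exact hv hx

/-- the graph without the vertices `k i` -/
def PDel (G : SimpleGraph V) (k : Fin m → V) : SimpleGraph V where
  Adj u v := G.Adj u v ∧ (∀ i, k i ≠ u) ∧ (∀ i, k i ≠ v)
  symm := ⟨fun _ _ h => ⟨h.1.symm, h.2.2, h.2.1⟩⟩
  loopless := ⟨fun _ h => h.1.ne rfl⟩

/-- the cut graph of a set `A` -/
def Cut (Δ : SimpleGraph V) (A : Set V) : SimpleGraph V where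
  Adj u v := Δ.Adj u v ∧ ¬ (u ∈ A ↔ v ∈ A)
  symm := ⟨fun _ _ h => ⟨h.1.symm, fun h' => h.2 h'.symm⟩⟩
  loopless := ⟨fun _ h => h.1.ne rfl⟩

/-- In a connected finite graph some independent set has a connected spanning cut graph. -/
lemma exists_indep_cut [Finite V] (Δ : SimpleGraph V) (e : V) :
    ∃ A : Set V, (∀ x ∈ A, ∀ y ∈ A, ¬ Δ.Adj x y) ∧
      ∀ u, Δ.Reachable e u → (Cut Δ A).Reachable e u := by
  classical
  have := Fintype.ofFinite V
  let P : Finset V → Prop := fun A => e ∈ A ∧ (∀ x ∈ A, ∀ y ∈ A, ¬ Δ.Adj x y) ∧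
    ∀ u ∈ A, (Cut Δ (A : Set V)).Reachable e u
  have hP0 : P {e} := by
    refine ⟨by simp, ?_, ?_⟩
    · intro x hx y hy
      rw [Finset.mem_singleton] at hx hy
      rw [hx, hy]; exact Δ.irrefl
    · intro u hu
      rw [Finset.mem_singleton] at hu
      rw [hu]
  obtain ⟨A, hA, hmax⟩ := Finset.exists_max_image (Finset.univ.filter P) Finset.card
    ⟨{e}, by simp only [Finset.mem_filter, Finset.mem_univ, true_and]; exact hP0⟩
  simp only [Finset.mem_filter, Finset.mem_univ, true_and] at hA hmax
  obtain ⟨heA, hind, hreach⟩ := hA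
  refine ⟨A, fun x hx y hy => hind x hx y hy, ?_⟩
  intro u hu
  by_contra hcon
  -- an edge leaving the reachable set
  have hex : ∃ w y, (Cut Δ (A : Set V)).Reachable e w ∧ ¬ (Cut Δ (A : Set V)).Reachable e y ∧
      Δ.Adj w y := by
    by_contra hno
    push Not at hno
    apply hcon
    refine o_reach_induct (P := fun u => (Cut Δ (A : Set V)).Reachable e u) hu
      (SimpleGraph.Reachable.refl _) ?_
    intro x y hx hxy
    by_contra hy
    exact hno x y hx hy hxy
  obtain ⟨w, y, hw, hy, hwy⟩ := hex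
  have hyA : y ∉ A := fun h => hy (hreach y h)
  have hwA : w ∉ A := by
    intro h
    apply hy
    refine hw.trans (SimpleGraph.Adj.reachable ⟨hwy, ?_⟩)
    intro h'
    exact hyA (h'.1 h)
  have hyn : ∀ a ∈ A, ¬ Δ.Adj a y := by
    intro a ha hay
    apply hy
    refine (hreach a ha).trans (SimpleGraph.Adj.reachable ⟨hay, ?_⟩)
    intro h'
    exact hyA (h'.1 ha)
  have hstep : ∀ u, (Cut Δ (A : Set V)).Reachable e u →
      (Cut Δ ((insert y A : Finset V) : Set V)).Reachable e u := by
    intro u hu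
    have := o_reach_induct (P := fun u => (Cut Δ ((insert y A : Finset V) : Set V)).Reachable e u ∧
      (Cut Δ (A : Set V)).Reachable e u) hu
      ⟨SimpleGraph.Reachable.refl _, SimpleGraph.Reachable.refl _⟩ ?_
    · exact this.1
    · rintro p q ⟨hp, hp'⟩ hpq
      have hq' : (Cut Δ (A : Set V)).Reachable e q := hp'.trans hpq.reachable
      refine ⟨hp.trans (SimpleGraph.Adj.reachable ⟨hpq.1, ?_⟩), hq'⟩
      have hpy : p ≠ y := by rintro rfl; exact hy hp'
      have hqy : q ≠ y := by rintro rfl; exact hy hq'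
      simpa [hpy, hqy] using hpq.2
  have hPnew : P (insert y A) := by
    refine ⟨by simp [heA], ?_, ?_⟩
    · intro x hx z hz
      rw [Finset.mem_insert] at hx hz
      rcases hx with rfl | hx <;> rcases hz with rfl | hz
      · exact Δ.irrefl
      · intro h; exact hyn z hz h.symm
      · exact hyn x hx
      · exact hind x hx z hz
    · intro x hx
      rw [Finset.mem_insert] at hx
      rcases hx with rfl | hx
      · refine (hstep w hw).trans (SimpleGraph.Adj.reachable ⟨hwy, ?_⟩)
        have hwx : w ≠ x := hwy.ne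
        simp [hwA, hwx]
      · exact hstep x (hreach x hx)
  have := hmax _ hPnew
  rw [Finset.card_insert_of_notMem hyA] at this
  omega

end Pool.Agent.MP_ccda7a_co
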