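import Pool.Agent.Lib.MP_ccda7a_co.Odd2

set_option autoImplicit false

namespace Pool.Agent.MP_ccda7a_co

variable {V : Type} {m : ℕ} {G : SimpleGraph V} {W : Set V}

/-- In a critical graph every vertex `k j` of a clique of size `m` has a neighbour outside. -/
lemma PCrit.outside (hc : PCrit m G W) (k : Fin m → V) (hkW : ∀ i, k i ∈ W) (j : Fin m) :
    ∃ y, G.Adj (k j) y ∧ ∀ i, k i ≠ y := by
  classical
  obtain ⟨φ, hφ⟩ := hc.crit (k j) (hkW j)
  -- a colour missing on the other clique vertices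
  have hp : ∃ p : Fin m, ∀ i, i ≠ j → φ (k i) ≠ p := by
    by_contra hno
    push Not at hno
    choose g hg1 hg2 using hno
    have hinj : Function.Injective g := by
      intro p q hpq
      rw [← hg2 p, ← hg2 q, hpq]
    obtain ⟨p, hp⟩ := (Finite.injective_iff_surjective.1 hinj) j
    exact hg1 p hp
  obtain ⟨p, hp⟩ := hp
  obtain ⟨y, hy1, hy2⟩ := hc.sees hφ p
  refine ⟨y, hy1, ?_⟩
  rintro i rfl
  refine hp i ?_ hy2
  rintro rfl
  exact hy1.ne rfl

/-- Two vertices `k i`, `k j` of a clique of size `m` in a critical graph all of whose odd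
contractions are colourable: if the outside neighbours of `k j` are independent, then one of them
is adjacent to `k i`. -/
lemma PCrit.meets (hc : PCrit m G W) (k : Fin m → V)
    (hk : ∀ i j, i ≠ j → G.Adj (k i) (k j)) (i j : Fin m) (hij : i ≠ j)
    (hcon : ∀ (A : Set V) (a0 : V) (hA : ∀ x ∈ A, ∀ y ∈ A, ¬ G.Adj x y) (ha0 : a0 ∈ A),
      (∀ x ∈ A, G.Adj (k j) x) → ∃ ψ : V → Fin m, PCol (Con G (k j) A a0 hA ha0) ∅ ψ)
    (hind : ∀ x y, G.Adj (k j) x → (∀ l, k l ≠ x) → G.Adj (k j) y → (∀ l, k l ≠ y) →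
      ¬ G.Adj x y) :
    ∃ y, G.Adj (k j) y ∧ (∀ l, k l ≠ y) ∧ G.Adj (k i) y := by
  classical
  by_contra hno
  push Not at hno
  set A : Set V := {x | x = k i ∨ (G.Adj (k j) x ∧ ∀ l, k l ≠ x)} with hAdef
  have hA : ∀ x ∈ A, ∀ y ∈ A, ¬ G.Adj x y := by
    rintro x (rfl | hx) y (rfl | hy)
    · exact G.irrefl
    · exact hno y hy.1 hy.2
    · intro h; exact hno x hx.1 hx.2 h.symm
    · exact hind x y hx.1 hx.2 hy.1 hy.2
  have hN : ∀ x ∈ A, G.Adj (k j) x := by
    rintro x (rfl | hx)
    · exact hk _ _ hij.symm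
    · exact hx.1
  obtain ⟨ψ, hψ⟩ := hcon A (k i) hA (Or.inl rfl) hN
  -- the colouring of `G - k j`
  let π : V → V := fun u => if u ∈ A then k i else u
  have hπA : ∀ u ∈ A, π u = k i := fun u hu => by simp only [π, hu, if_true]
  have hπn : ∀ u, u ∉ A → π u = u := fun u hu => by simp only [π, hu, if_false]
  have hφ : ∀ u w, u ≠ k j → w ≠ k j → G.Adj u w → ψ (π u) ≠ ψ (π w) := by
    intro u w hu hw huw
    refine hψ _ _ (by simp) (by simp) ⟨u, w, hu, hw, huw, hπA u, hπn u, hπA w, hπn w⟩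
  have hp : ∃ p : Fin m, ∀ l, l ≠ j → ψ (π (k l)) ≠ p := by
    by_contra hno
    push Not at hno
    choose g hg1 hg2 using hno
    have hinj : Function.Injective g := by
      intro p q hpq
      rw [← hg2 p, ← hg2 q, hpq]
    obtain ⟨p, hp⟩ := (Finite.injective_iff_surjective.1 hinj) j
    exact hg1 p hp
  obtain ⟨p, hp⟩ := hp
  -- no neighbour of `k j` has colour `p`
  have hfree : ∀ y, G.Adj (k j) y → ψ (π y) ≠ p := by
    intro y hy
    by_cases hyk : ∃ l, k l = y
    · obtain ⟨l, rfl⟩ := hyk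
      apply hp
      rintro rfl
      exact hy.ne rfl
    · push Not at hyk
      have hyA : y ∈ A := Or.inr ⟨hy, hyk⟩
      rw [hπA y hyA, ← hπA (k i) (Or.inl rfl)]
      exact hp i hij
  apply hc.ncol (fun u => if u = k j then p else ψ (π u))
  intro u w _ _ huw
  by_cases hu : u = k j <;> by_cases hw : w = k j
  · rw [hu, hw] at huw; exact absurd huw G.irrefl
  · rw [hu] at huw
    simp only [hu, if_true, hw, if_false]
    exact (hfree w huw).symm
  · rw [hw] at huw
    simp only [hw, if_true, hu, if_false]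
    exact hfree u huw.symm
  · simp only [hu, hw, if_false]
    exact hφ u w hu hw huw

/-- The heart: a critical graph with a clique of size `m`, all of whose odd contractions at the
clique vertices are colourable, contains an odd clique with `m + 1` parts. -/
lemma oddK_of_clique [Finite V] (hc : PCrit m G W) (k : Fin m → V)
    (hk : ∀ i j, i ≠ j → G.Adj (k i) (k j)) (hkW : ∀ i, k i ∈ W)
    (hm : 0 < m)
    (hcon : ∀ (v : V) (A : Set V) (a0 : V) (hA : ∀ x ∈ A, ∀ y ∈ A, ¬ G.Adj x y) (ha0 : a0 ∈ A),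
      (∀ x ∈ A, G.Adj v x) → ∃ ψ : V → Fin m, PCol (Con G v A a0 hA ha0) ∅ ψ) :
    OddK (m + 1) G := by
  classical
  set Δ := PDel G k with hΔ
  -- a vertex outside of the clique
  obtain ⟨e, he1, he2⟩ := hc.outside k hkW ⟨0, hm⟩
  have heW : e ∈ W := hc.inW' he1
  have hreach : ∀ u ∈ W, (∀ i, k i ≠ u) → Δ.Reachable e u := by
    intro u hu huK
    have := p_separating hc k hk {u | Δ.Reachable e u} ?_ ?_ e (SimpleGraph.Reachable.refl _)
      heW u hu
    · rcases this with h | ⟨i, hi⟩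
      · exact h
      · exact absurd hi (huK i)
    · intro i h
      have : ∀ i', k i' ≠ k i := o_reach_induct (P := fun u => ∀ i', k i' ≠ u) h he2
        (fun u v _ h' => h'.2.2)
      exact this i rfl
    · intro u v hu huv
      by_cases hv : ∀ i, k i ≠ v
      · left
        have hu' : ∀ i', k i' ≠ u := o_reach_induct (P := fun u => ∀ i', k i' ≠ u) hu he2
          (fun u v _ h' => h'.2.2)
        exact SimpleGraph.Reachable.trans hu (SimpleGraph.Adj.reachable ⟨huv, hu', hv⟩)
      · right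
        push Not at hv
        exact hv
  obtain ⟨A, hA, hcut⟩ := exists_indep_cut Δ e
  have hcutG : Cut Δ A ≤ G := fun u w h => h.1.1
  have hcutK : ∀ i, ¬ (Cut Δ A).Reachable e (k i) := by
    intro i h
    have : ∀ i', k i' ≠ k i := o_reach_induct (P := fun u => ∀ i', k i' ≠ u) h he2
      (fun u v _ h' => h'.1.2.2)
    exact this i rfl
  -- the two cases
  by_cases hgood : ∀ i, ∃ s, G.Adj (k i) s ∧ (∀ l, k l ≠ s) ∧ s ∉ A
  · refine oddK_of_piece G k hk (fun u => decide ((∃ i, k i = u) ∨ u ∉ A)) ?_ (Cut Δ A) hcutG ?_ e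
      hcutK ?_
    · intro i
      simp only [decide_eq_true_eq]
      exact Or.inl ⟨i, rfl⟩
    · intro u v h heq
      apply h.2
      have hu : ¬ ∃ i, k i = u := fun ⟨i, hi⟩ => h.1.2.1 i hi
      have hv : ¬ ∃ i, k i = v := fun ⟨i, hi⟩ => h.1.2.2 i hi
      simpa [hu, hv] using heq
    · intro i
      obtain ⟨s, hs1, hs2, hs3⟩ := hgood i
      exact ⟨s, hcut s (hreach s (hc.inW' hs1) hs2), by simp [hs3], hs1⟩
  · push Not at hgood
    obtain ⟨j, hj⟩ := hgood
    -- the outside neighbours of `k j` lie in `A`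
    have hind : ∀ x y, G.Adj (k j) x → (∀ l, k l ≠ x) → G.Adj (k j) y → (∀ l, k l ≠ y) →
        ¬ G.Adj x y := by
      intro x y hx hxk hy hyk hxy
      exact hA x (hj x hx hxk) y (hj y hy hyk) ⟨hxy, hxk, hyk⟩
    have hgood' : ∀ i, ∃ s, G.Adj (k i) s ∧ (∀ l, k l ≠ s) ∧ s ∈ A := by
      intro i
      by_cases hij : i = j
      · subst hij
        obtain ⟨y, hy1, hy2⟩ := hc.outside k hkW i
        exact ⟨y, hy1, hy2, hj y hy1 hy2⟩
      · obtain ⟨y, hy1, hy2, hy3⟩ := hc.meets k hk i j hij (fun A a0 hA ha0 hN =>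
          hcon (k j) A a0 hA ha0 hN) hind
        exact ⟨y, hy3, hy2, hj y hy1 hy2⟩
    refine oddK_of_piece G k hk (fun u => decide ((∃ i, k i = u) ∨ u ∈ A)) ?_ (Cut Δ A) hcutG ?_ e
      hcutK ?_
    · intro i
      simp only [decide_eq_true_eq]
      exact Or.inl ⟨i, rfl⟩
    · intro u v h heq
      apply h.2
      have hu : ¬ ∃ i, k i = u := fun ⟨i, hi⟩ => h.1.2.1 i hi
      have hv : ¬ ∃ i, k i = v := fun ⟨i, hi⟩ => h.1.2.2 i hi
      simpa [hu, hv] using heq
    · intro i
      obtain ⟨s, hs1, hs2, hs3⟩ := hgood' i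
      exact ⟨s, hcut s (hreach s (hc.inW' hs1) hs2), by simp [hs3], hs1⟩

/-- The restriction of `G` to the vertex set `W` (other vertices become isolated). -/
def prestr (G : SimpleGraph V) (W : Set V) : SimpleGraph V where
  Adj u v := G.Adj u v ∧ u ∈ W ∧ v ∈ W
  symm := ⟨fun _ _ h => ⟨h.1.symm, h.2.2, h.2.1⟩⟩
  loopless := ⟨fun _ h => h.1.ne rfl⟩

/-- Every counterexample gives a counterexample without cliques of size `m` (which moreover
contains no new odd cliques). -/
theorem odd_reduction [Finite V] (m : ℕ) (hm : 2 ≤ m) : ∀ (n : ℕ) (W : Finset V), W.card = n →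
    ∀ G : SimpleGraph V, (∀ u v, G.Adj u v → u ∈ W) → ¬ OddK (m + 1) G →
      (∀ φ : V → Fin m, ¬ PCol G ∅ φ) →
      ∃ G' : SimpleGraph V, G'.CliqueFree m ∧ (∀ φ : V → Fin m, ¬ PCol G' ∅ φ) ∧
        ∀ t, 2 ≤ t → OddK t G' → OddK t G := by
  classical
  intro n
  induction n using Nat.strong_induction_on with
  | _ n ih =>
    intro W hWn G hGW hodd hnc
    by_cases hcf : G.CliqueFree m
    · exact ⟨G, hcf, hnc, fun t _ h => h⟩
    -- vertex deletion
    by_cases hcrit : ∀ x ∈ W, ∃ φ : V → Fin m, PCol G {x} φ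
    swap
    · push Not at hcrit
      obtain ⟨x, hx, hxφ⟩ := hcrit
      have hlt : (W.erase x).card < n := by
        rw [← hWn]; exact Finset.card_erase_lt_of_mem hx
      have hle : prestr G ((W.erase x : Finset V) : Set V) ≤ G := fun _ _ h => h.1
      obtain ⟨G', h1, h2, h3⟩ := ih _ hlt (W.erase x) rfl (prestr G ((W.erase x : Finset V) : Set V))
        (fun u v h => h.2.1) (fun h => hodd (h.mono hle)) (by
          intro φ hφ
          apply hxφ φ
          intro u v hu hv huv
          refine hφ u v (by simp) (by simp) ⟨huv, ?_, ?_⟩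
          · simp only [Finset.coe_erase, Set.mem_sdiff, Finset.mem_coe]
            exact ⟨hGW _ _ huv, hu⟩
          · simp only [Finset.coe_erase, Set.mem_sdiff, Finset.mem_coe]
            exact ⟨hGW _ _ huv.symm, hv⟩)
      exact ⟨G', h1, h2, fun t ht h => (h3 t ht h).mono hle⟩
    have hc : PCrit m G (W : Set V) := ⟨fun u v h => hGW u v h, hnc, fun x hx => hcrit x hx⟩
    -- odd contraction
    by_cases hcon : ∀ (v : V) (A : Set V) (a0 : V) (hA : ∀ x ∈ A, ∀ y ∈ A, ¬ G.Adj x y)
        (ha0 : a0 ∈ A), (∀ x ∈ A, G.Adj v x) → ∃ ψ : V → Fin m, PCol (Con G v A a0 hA ha0) ∅ ψ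
    swap
    · push Not at hcon
      obtain ⟨v, A, a0, hA, ha0, hN, hψ⟩ := hcon
      have hvW : v ∈ W := hGW _ _ (hN a0 ha0)
      have hlt : (W.erase v).card < n := by
        rw [← hWn]; exact Finset.card_erase_lt_of_mem hvW
      have hodd' : ∀ t, 2 ≤ t → OddK t (Con G v A a0 hA ha0) → OddK t G :=
        fun t ht h => con_oddK G v A a0 hA ha0 hN t ht h
      obtain ⟨G', h1, h2, h3⟩ := ih _ hlt (W.erase v) rfl (Con G v A a0 hA ha0) (by
          intro x y hxy
          obtain ⟨a, b, g1, g2, g3, g4, g5, g6, g7⟩ := hxy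
          rw [Finset.mem_erase]
          by_cases ha : a ∈ A
          · rw [g4 ha]
            exact ⟨fun h => (hN a0 ha0).ne h.symm, hGW _ _ (hN a0 ha0).symm⟩
          · rw [g5 ha]
            exact ⟨g1, hGW _ _ g3⟩)
        (fun h => hodd (hodd' _ (by omega) h)) (fun φ hφ => hψ φ hφ)
      exact ⟨G', h1, h2, fun t ht h => hodd' t ht (h3 t ht h)⟩
    exfalso
    apply hodd
    -- the clique
    unfold SimpleGraph.CliqueFree at hcf
    push Not at hcf
    obtain ⟨K, hK⟩ := hcf
    have hcard : K.card = m := hK.card_eq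
    let k : Fin m → V := fun i => ((K.equivFinOfCardEq hcard).symm i : V)
    have hkK : ∀ i, k i ∈ K := fun i => ((K.equivFinOfCardEq hcard).symm i).2
    have hkinj : ∀ i j, i ≠ j → k i ≠ k j := by
      intro i j hij h
      apply hij
      exact (K.equivFinOfCardEq hcard).symm.injective (Subtype.ext h)
    have hk : ∀ i j, i ≠ j → G.Adj (k i) (k j) := by
      intro i j hij
      exact hK.1 (hkK i) (hkK j) (hkinj i j hij)
    have hkW : ∀ i, k i ∈ (W : Set V) := by
      intro i
      have : ∃ j : Fin m, i ≠ j := by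
        by_cases hi : (i : ℕ) = 0
        · exact ⟨⟨1, by omega⟩, fun h => by have := congrArg Fin.val h; simp at this; omega⟩
        · exact ⟨⟨0, by omega⟩, fun h => by have := congrArg Fin.val h; simp at this; omega⟩
      obtain ⟨j, hij⟩ := this
      exact hGW _ _ (hk i j hij)
    exact oddK_of_clique hc k hk hkW (by omega) hcon

end Pool.Agent.MP_ccda7a_co
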