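import Mathlib

set_option autoImplicit false

namespace Pool.Agent.MP_ccda7a_co

/-- The graph `G` contains an odd-`K_t` as a subgraph, word for word as in the frozen statement
of the problem (there `t = 5`): pairwise disjoint vertex sets `f i`, trees `T i` of `G` spanning
them, edges joining every two of the trees, and a colouring `c` of the vertices by two colours
which is proper on all the trees and for which all the joining edges are monochromatic. -/
def OddK {V : Type} (t : ℕ) (G : SimpleGraph V) : Prop :=
  ∃ (f : Fin t → Set V) (T : Fin t → SimpleGraph V) (e : Fin t → Fin t → V) (c : V → Bool),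
    (∀ i j, i ≠ j → Disjoint (f i) (f j)) ∧
    (∀ i, T i ≤ G) ∧
    (∀ i u v, (T i).Adj u v → u ∈ f i ∧ v ∈ f i ∧ c u ≠ c v) ∧
    (∀ i, ((T i).induce (f i)).IsTree) ∧
    (∀ i j, i ≠ j → e i j ∈ f i ∧ G.Adj (e i j) (e j i) ∧ c (e i j) = c (e j i))

end Pool.Agent.MP_ccda7a_co
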